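import Pool.Agent.Lib.NL57.Upper
import Pool.Agent.Lib.MP_2f2576_co.Defs

/-!
Heavy independent sets in no lonely colour graphs.
-/

set_option autoImplicit false

open Finset

namespace Pool.Agent.Lib.NL57

open Pool.Agent.Lib.MP_3b2820_co Pool.Agent.Lib.MP_2f2576_co

variable {V : Type}

lemma not_reach {C : Type} {X : SimpleGraph V} {c : Sym2 V → C}
    (h : ∀ (v : V) (w : X.Walk v v), w.IsCycle → ∀ e ∈ w.edges, ∃ f ∈ w.edges, f ≠ e ∧ c f = c e)
    {u v : V} (huv : X.Adj u v) : ¬ (X.deleteEdges {e | c e = c s(u, v)}).Reachable u v := by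
  intro hr
  have hle : X.deleteEdges {e | c e = c s(u, v) ∧ e ≠ s(u, v)} ≤ X := X.deleteEdges_le _
  obtain ⟨x, w, hw, he⟩ := (SimpleGraph.adj_and_reachable_delete_edges_iff_exists_cycle
    (G := X.deleteEdges {e | c e = c s(u, v) ∧ e ≠ s(u, v)}) (v := u) (w := v)).1
    ⟨by simp [huv], hr.mono fun a b hab => by
      simp only [SimpleGraph.deleteEdges_adj, Set.mem_ofPred_eq, Set.mem_singleton_iff] at hab ⊢
      exact ⟨⟨hab.1, fun h => hab.2 h.1⟩, fun h => hab.2 (by rw [h])⟩⟩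
  obtain ⟨f, hf, hne, hc⟩ := h x (w.mapLe hle) (hw.mapLe hle) s(u, v) (by simpa using he)
  have hf' : f ∈ w.edges := by simpa using hf
  have := w.edges_subset_edgeSet hf'
  rw [SimpleGraph.edgeSet_deleteEdges] at this
  exact this.2 ⟨hc, hne⟩

lemma deg_two [Fintype V] {C : Type} {X : SimpleGraph V} {c : Sym2 V → C} (h : AtMostTwo X c)
    (x : V) (k : C) : ∑ u, ind (X.Adj u x ∧ c s(u, x) = k) ≤ 2 := by
  classical
  have h1 : ∑ u, ind (X.Adj u x ∧ c s(u, x) = k) =
      (Finset.univ.filter fun u => X.Adj u x ∧ c s(u, x) = k).card := by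
    rw [Finset.card_filter, Nat.cast_sum]
    refine Finset.sum_congr rfl fun u _ => ?_
    by_cases h : X.Adj u x ∧ c s(u, x) = k
    · rw [ind_pos h, if_pos h, Nat.cast_one]
    · rw [ind_neg h, if_neg h, Nat.cast_zero]
  have h2 : ((Finset.univ.filter fun u => X.Adj u x ∧ c s(u, x) = k : Finset V) : Set V).encard ≤
      {e | e ∈ X.incidenceSet x ∧ c e = k}.encard := by
    refine Set.encard_le_encard_of_injOn (f := fun u => s(u, x)) (fun u hu => ?_)
      fun u _ u' _ e => Sym2.congr_left.1 e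
    have := (Finset.mem_filter.1 hu).2
    exact ⟨⟨this.1, Sym2.mem_mk_right u x⟩, this.2⟩
  have h3 := h2.trans (h x k)
  rw [Set.encard_coe_eq_coe_finsetCard] at h3
  rw [h1]
  exact_mod_cast h3

lemma Ham.tri {K : Type} {G : SimpleGraph V} {c : Sym2 V → K} {R : K → Setoid V} (H : Ham G c R)
    {u y v : V} (h1 : G.Adj u y) (h2 : G.Adj v u) (h3 : G.Adj v y) : c s(v, u) = c s(u, y) := by
  by_contra hne
  have h4 : c s(v, y) = c s(v, u) := by
    by_contra h4
    exact H.diff v u h2 ((R _).trans' (H.same v y _ h3 h4)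
      ((R _).symm' (H.same u y _ h1 fun e => hne e.symm)))
  exact H.diff u y h1 ((R _).trans' ((R _).symm' (H.same v u _ h2 hne))
    (H.same v y _ h3 (h4 ▸ hne)))

lemma Ham.oneTri [Fintype V] {K : Type} {G : SimpleGraph V} {c : Sym2 V → K} {R : K → Setoid V}
    (H : Ham G c R) (hd : ∀ x k, ∑ u, ind (G.Adj u x ∧ c s(u, x) = k) ≤ 2) : OneTri G := by
  classical
  intro u y v v' h1 h2 h3 h2' h3'
  by_contra hne
  have h4 := (Finset.sum_le_sum_of_subset_of_nonneg (Finset.subset_univ {y, v, v'})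
    fun _ _ _ => ind_nonneg _).trans (hd u (c s(u, y)))
  rw [Finset.sum_insert (by simp [h3.ne', h3'.ne']), Finset.sum_pair hne,
    ind_pos ⟨h1.symm, by rw [Sym2.eq_swap]⟩, ind_pos ⟨h2, H.tri h1 h2 h3⟩,
    ind_pos ⟨h2', H.tri h1 h2' h3'⟩] at h4
  linarith

lemma exists_ham [Fintype V] {X : SimpleGraph V} (h : NoLonely X) :
    ∃ (K : Type) (_ : Fintype K) (c : Sym2 V → K) (R : K → Setoid V), Ham X c R ∧
      ∀ x k, ∑ u, ind (X.Adj u x ∧ c s(u, x) = k) ≤ 2 := by
  classical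
  obtain ⟨C, c, h1, h2⟩ := h
  refine ⟨Set.range c, inferInstance, Set.rangeFactorization c,
    fun k => (X.deleteEdges {e | c e = k.1}).reachableSetoid, ⟨fun u v k huv hk => ?_,
      fun u v huv => not_reach h2 huv⟩, fun x k => ?_⟩
  · exact SimpleGraph.Adj.reachable (SimpleGraph.deleteEdges_adj.2
      ⟨huv, fun e => hk (Subtype.ext e)⟩)
  · simp only [Subtype.ext_iff]
    exact deg_two h1 x k.1

lemma params {L : ℝ} (hL : 0 < L) (h1 : 1 ≤ Real.log L) : ∃ (m : ℕ) (a : ℝ), 2 ≤ m ∧ 0 < a ∧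
    a < 1 ∧ Real.log L ^ 2 / (2048 * L) ≤
      a / (2 * m ^ 2) - a ^ 2 / (-Real.log a) * (8 * L / Real.log m / m ^ 4) := by
  set l := Real.log L with hl
  set z := Real.exp (l / 4) with hz
  have hz1 : 1 < z := Real.one_lt_exp_iff.2 (by linarith)
  have hz4 : z ^ 4 = L := by
    rw [hz, ← Real.exp_nat_mul, ← Real.exp_log hL]
    congr 1
    push_cast
    ring
  have hzl : l ^ 2 ≤ 32 * z := by
    have := Real.quadratic_le_exp_of_nonneg (show 0 ≤ l / 4 by linarith)
    nlinarith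
  have hm1 : z ≤ (⌈z⌉₊ : ℝ) := Nat.le_ceil z
  have hm2 : (⌈z⌉₊ : ℝ) ≤ 2 * z := by linarith [Nat.ceil_lt_add_one (show 0 ≤ z by linarith)]
  have hm3 : 2 ≤ ⌈z⌉₊ := Nat.lt_ceil.2 (by simpa using hz1)
  generalize ⌈z⌉₊ = m at hm1 hm2 hm3
  have hm0 : (0 : ℝ) < m := by linarith
  have g1 : l / 4 ≤ Real.log m := by
    rw [← Real.log_exp (l / 4)]
    exact Real.log_le_log (by linarith) hm1
  have g2 : Real.log m ≤ l := by
    have := Real.log_le_log hm0 hm2
    rw [Real.log_mul two_ne_zero (by linarith), hz, Real.log_exp] at this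
    linarith [Real.log_two_lt_d9]
  set g := Real.log m with hg
  have g0 : 0 < g := by linarith
  have l0 : 0 < l := by linarith
  set a := m ^ 2 * l * g / (128 * L) with ha
  have ha0 : 0 < a := by positivity
  have ha2 : a ≤ z⁻¹ := by
    rw [ha, div_le_iff₀ (by positivity), ← hz4]
    have e : z⁻¹ * (128 * z ^ 4) = (2 * z) ^ 2 * (32 * z) := by
      field_simp
      norm_num
    rw [e, mul_assoc]
    exact mul_le_mul (by gcongr) (by nlinarith) (by positivity) (by positivity)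
  have ha3 : l / 4 ≤ -Real.log a := by
    have := Real.log_le_log ha0 ha2
    rw [Real.log_inv, hz, Real.log_exp] at this
    linarith
  refine ⟨m, a, hm3, ha0, ha2.trans_lt (inv_lt_one_of_one_lt₀ hz1), ?_⟩
  have h2 : a ^ 2 / (-Real.log a) * (8 * L / g / m ^ 4) ≤ a ^ 2 / (l / 4) * (8 * L / g / m ^ 4) := by
    gcongr
  have h3 : a / (2 * m ^ 2) - a ^ 2 / (l / 4) * (8 * L / g / m ^ 4) = l * g / (512 * L) := by
    rw [ha]
    field_simp
    ring
  have h4 : l ^ 2 / (2048 * L) ≤ l * g / (512 * L) := by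
    rw [div_le_div_iff₀ (by positivity) (by positivity)]
    nlinarith [mul_pos l0 hL]
  linarith

theorem upper [Fintype V] {X : SimpleGraph V} (h : NoLonely X) {L : ℝ} (hL : 0 < L)
    (h1 : 1 ≤ Real.log L) (hV : Real.log (Fintype.card V) ≤ L) (μ : V → ℝ) (hμ : ∀ v, 0 ≤ μ v) :
    ∃ I : Finset V, X.IsIndepSet (I : Set V) ∧
      Real.log L ^ 2 / (2048 * L) * ∑ v, μ v ≤ ∑ v ∈ I, μ v := by
  classical
  rcases (Finset.sum_nonneg fun v (_ : v ∈ Finset.univ) => hμ v).eq_or_lt with h0 | h0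
  · exact ⟨∅, by simp, by simp [← h0]⟩
  obtain ⟨K, _, c, R, H, hd⟩ := exists_ham h
  obtain ⟨m, a, hm, ha0, ha1, hb⟩ := params hL h1
  have hp : IsProb fun v => μ v / ∑ v, μ v :=
    ⟨fun v => div_nonneg (hμ v) h0.le, by rw [← Finset.sum_div, div_self h0.ne']⟩
  let _ : LinearOrder V := LinearOrder.lift' (fun v => toLex (-μ v, Fintype.equivFin V v))
    fun u v e => (Fintype.equivFin V).injective (congrArg (fun x => (ofLex x).2) e)
  obtain ⟨I, hI, hs⟩ := upper_core H (H.oneTri hd) hd hp (fun u y huy => by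
    have h2 : toLex (-μ u, Fintype.equivFin V u) < toLex (-μ y, Fintype.equivFin V y) := huy
    refine div_le_div_of_nonneg_right ?_ h0.le
    rcases Prod.Lex.toLex_lt_toLex.1 h2 with h3 | h3
    · linarith [h3]
    · linarith [h3.1]) m hm ha0 ha1
  refine ⟨I, hI, ?_⟩
  rw [← Finset.sum_div] at hs
  rw [← le_div_iff₀ h0]
  refine le_trans (hb.trans ?_) hs
  have hl : 0 < -Real.log a := neg_pos.2 (Real.log_neg ha0 ha1)
  have hlm : 0 < Real.log m := Real.log_pos (by exact_mod_cast hm)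
  gcongr

end Pool.Agent.Lib.NL57
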