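import Pool.Agent.Lib.MP_2f2576_co.Defs

namespace Pool.Agent.Lib.NL57

open Pool.Agent.Lib.MP_2f2576_co

/-- Some edge colouring by natural numbers satisfies (i), and in every circuit the largest colour
occurs at least twice. -/
def TopTwice {V : Type} (X : SimpleGraph V) : Prop :=
  ∃ c : Sym2 V → ℕ, AtMostTwo X c ∧ ∀ (v : V) (w : X.Walk v v), w.IsCycle → ∀ e ∈ w.edges,
    (∀ f ∈ w.edges, c f ≤ c e) → ∃ f ∈ w.edges, f ≠ e ∧ c f = c e

end Pool.Agent.Lib.NL57
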