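import Pool.Agent.Lib.NL57.Perm

/-!
Switching estimates for random permutations that preserve the classes of a partition.
-/

set_option autoImplicit false

open Finset

namespace Pool.Agent.Lib.NL57

variable {V κ : Type} [Fintype V] [DecidableEq V] [DecidableEq κ]

/-- The permutations that preserve every class. -/
def pres (c : V → κ) : Finset (Equiv.Perm V) := Finset.univ.filter fun π => ∀ x, c (π x) = c x

lemma mem_pres {c : V → κ} {π : Equiv.Perm V} : π ∈ pres c ↔ ∀ x, c (π x) = c x := by
  simp [pres]

lemma pres_swap {c : V → κ} {π : Equiv.Perm V} (h : π ∈ pres c) {a z : V} (e : c z = c a) :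
    π * Equiv.swap a z ∈ pres c := by
  refine mem_pres.2 fun x => ?_
  rw [Equiv.Perm.mul_apply, mem_pres.1 h, Equiv.swap_apply_def]
  split_ifs with h1 h2
  · rw [h1, e]
  · rw [h2, e]
  · rfl

/-- The class preserving permutations that map no point of `A` into `B`. -/
def avoidC (c : V → κ) (A B : Finset V) : Finset (Equiv.Perm V) :=
  (pres c).filter fun π => ∀ x ∈ A, π x ∉ B

lemma avoidC_step (c : V → κ) (A B : Finset V) {x : V} (hx : x ∉ A) :
    (avoidC c A B).card * (B.filter fun y => c y = c x).card ≤
      ((avoidC c A B).filter fun π => π x ∈ B).card *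
        (Finset.univ.filter fun y => c y = c x).card := by
  rw [← Finset.card_product, ← Finset.card_product]
  refine Finset.card_le_card_of_injOn
    (fun z => (z.1 * Equiv.swap x (z.1.symm z.2), z.1.symm z.2)) (fun z hz => ?_)
    fun z _ z' _ e => ?_
  · obtain ⟨h1, h2⟩ := Finset.mem_product.1 hz
    obtain ⟨h0, h3⟩ := Finset.mem_filter.1 h1
    obtain ⟨h2, h4⟩ := Finset.mem_filter.1 h2
    have h5 : c (z.1.symm z.2) = c x := by rw [← mem_pres.1 h0, Equiv.apply_symm_apply, h4]
    refine Finset.mem_product.2 ⟨Finset.mem_filter.2 ⟨Finset.mem_filter.2 ⟨pres_swap h0 h5,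
      fun y hy => ?_⟩, by simpa using h2⟩, Finset.mem_filter.2 ⟨Finset.mem_univ _, h5⟩⟩
    have n1 : y ≠ x := fun e => hx (e ▸ hy)
    have n2 : y ≠ z.1.symm z.2 := fun e => h3 y hy (by rw [e]; simpa using h2)
    dsimp only
    rw [Equiv.Perm.mul_apply, Equiv.swap_apply_of_ne_of_ne n1 n2]
    exact h3 y hy
  · obtain ⟨e1, e2⟩ := Prod.mk.inj e
    rw [e2] at e1
    have e3 := mul_right_cancel e1
    rw [e3] at e2
    exact Prod.ext e3 (z'.1.symm.injective e2)

lemma card_avoidC (c : V → κ) {m : ℝ} (hm : 0 < m)
    (hc : ∀ x, ((Finset.univ.filter fun y => c y = c x).card : ℝ) = m) (A B : Finset V) :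
    ((avoidC c A B).card : ℝ) ≤
      (pres c).card * Real.exp (-((∑ x ∈ A, ((B.filter fun y => c y = c x).card : ℝ)) / m)) := by
  induction A using Finset.induction_on with
  | empty => simp [avoidC]
  | insert x A hx ih =>
    have h1 : ((avoidC c A B).card : ℝ) * (B.filter fun y => c y = c x).card ≤
        ((avoidC c A B).filter fun π => π x ∈ B).card * m := by
      rw [← hc x]
      exact_mod_cast avoidC_step c A B hx
    have h2 : avoidC c (insert x A) B = (avoidC c A B).filter fun π => ¬ π x ∈ B := by
      ext π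
      simp only [avoidC, Finset.mem_filter, Finset.forall_mem_insert]
      tauto
    have h3 : (((avoidC c A B).filter fun π => π x ∈ B).card : ℝ) +
        ((avoidC c A B).filter fun π => ¬ π x ∈ B).card = (avoidC c A B).card := by
      exact_mod_cast Finset.card_filter_add_card_filter_not _
    have h4 : ((avoidC c (insert x A) B).card : ℝ) ≤
        (avoidC c A B).card * (-((B.filter fun y => c y = c x).card / m) + 1) := by
      rw [h2]
      rw [← div_le_iff₀ hm, mul_div_assoc] at h1
      linarith
    refine h4.trans ((mul_le_mul_of_nonneg_left (Real.add_one_le_exp _) (Nat.cast_nonneg _)).trans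
      ((mul_le_mul_of_nonneg_right ih (Real.exp_pos _).le).trans (le_of_eq ?_)))
    rw [mul_assoc, ← Real.exp_add, Finset.sum_insert hx]
    congr 2
    ring

variable {J : Type} [Fintype J] [DecidableEq J]

/-- The families of class preserving permutations with prescribed values. -/
def forcedC (c : J → V → κ) (E : Finset (J × V × V)) : Finset (J → Equiv.Perm V) :=
  (Fintype.piFinset fun j => pres (c j)).filter fun ω => ∀ e ∈ E, ω e.1 e.2.1 = e.2.2

lemma forcedC_step (c : J → V → κ) (E : Finset (J × V × V)) {e : J × V × V} (he : e ∉ E) {w : ℕ}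
    (hw : w ≤ (Finset.univ.filter fun y => c e.1 y = c e.1 e.2.1).card) :
    (forcedC c (insert e E)).card * (w - E.card) ≤ (forcedC c E).card := by
  have h0 : w - E.card ≤ ((Finset.univ.filter fun y => c e.1 y = c e.1 e.2.1) \
      E.image fun f => f.2.1).card :=
    le_trans (tsub_le_tsub hw Finset.card_image_le) (Finset.le_card_sdiff _ _)
  refine (Nat.mul_le_mul_left _ h0).trans ?_
  rw [← Finset.card_product]
  refine Finset.card_le_card_of_injOn
    (fun z => Function.update z.1 e.1 (z.1 e.1 * Equiv.swap e.2.1 z.2)) (fun z hz => ?_)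
    fun z hz z' hz' h => ?_
  · obtain ⟨h1, h2⟩ := Finset.mem_product.1 hz
    obtain ⟨h1, h3⟩ := Finset.mem_filter.1 h1
    obtain ⟨h7, h2⟩ := Finset.mem_sdiff.1 h2
    refine Finset.mem_filter.2 ⟨Fintype.mem_piFinset.2 fun j => ?_, fun f hf => ?_⟩
    · dsimp only
      by_cases h : j = e.1
      · rw [h, Function.update_self]
        exact pres_swap (Fintype.mem_piFinset.1 h1 _) (Finset.mem_filter.1 h7).2
      · rw [Function.update_of_ne h]
        exact Fintype.mem_piFinset.1 h1 _
    have h4 := h3 f (Finset.mem_insert_of_mem hf)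
    dsimp only
    by_cases h : f.1 = e.1
    · rw [h, Function.update_self, Equiv.Perm.mul_apply, Equiv.swap_apply_of_ne_of_ne, ← h, h4]
      · intro h5
        have h6 := h3 e (Finset.mem_insert_self _ _)
        rw [h, h5, h6] at h4
        exact he ((Prod.ext h (Prod.ext h5 h4.symm) : f = e) ▸ hf)
      · exact fun h5 => h2 (Finset.mem_image.2 ⟨f, hf, h5⟩)
    · rw [Function.update_of_ne h, h4]
  · have h1 := (Finset.mem_filter.1 (Finset.mem_product.1 hz).1).2 e (Finset.mem_insert_self _ _)
    have h2 := (Finset.mem_filter.1 (Finset.mem_product.1 hz').1).2 e (Finset.mem_insert_self _ _)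
    have h3 : z.1 e.1 * Equiv.swap e.2.1 z.2 = z'.1 e.1 * Equiv.swap e.2.1 z'.2 := by
      simpa using congrFun h e.1
    have h4 : z.2 = z'.2 := by
      refine (z'.1 e.1 * Equiv.swap e.2.1 z'.2).injective ?_
      conv_lhs => rw [← h3]
      simp [h1, h2]
    refine Prod.ext (funext fun j => ?_) h4
    by_cases hj : j = e.1
    · rw [h4] at h3
      rw [hj, mul_right_cancel h3]
    · simpa [hj] using congrFun h j

end Pool.Agent.Lib.NL57
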