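import Pool.Agent.Lib.NL57.Lower
import Pool.Agent.Lib.NL57.PermC
import Pool.Agent.Lib.NL57.Defs2

/-!
A cube of blocks joined by random perfect matchings.
-/

set_option autoImplicit false

open Finset

namespace Pool.Agent.Lib.NL57

open Pool.Agent.Lib.MP_2f2576_co

lemma cycle_rel {V : Type} {G : SimpleGraph V} {x u v : V} (w : G.Walk x x) (hw : w.IsCycle)
    (he : s(u, v) ∈ w.edges) (R : Setoid V)
    (h : ∀ a b, s(a, b) ∈ w.edges → s(a, b) ≠ s(u, v) → R a b) : R u v := by
  have hs : ∀ f ∈ w.edges, f ∉ {f | f ∉ w.edges} := fun f hf h => h hf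
  obtain ⟨-, ⟨p⟩⟩ := (SimpleGraph.adj_and_reachable_delete_edges_iff_exists_cycle
    (G := G.deleteEdges {f | f ∉ w.edges}) (v := u) (w := v)).2
    ⟨x, w.toDeleteEdges _ hs, hw.toDeleteEdges G _ hs, by simpa using he⟩
  have key : ∀ a b (p : ((G.deleteEdges {f | f ∉ w.edges}).deleteEdges {s(u, v)}).Walk a b),
      R a b := by
    intro a b p
    induction p with
    | nil => exact R.refl' _
    | cons h' _ ih =>
      simp only [SimpleGraph.deleteEdges_adj, Set.mem_ofPred_eq, Set.mem_singleton_iff,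
        not_not] at h'
      exact R.trans' (h _ _ h'.1.2 h'.2) ih
  exact key u v p

lemma TopTwice.noPied {V : Type} {X : SimpleGraph V} (h : TopTwice X) : NoPied X := by
  classical
  obtain ⟨c, h1, h2⟩ := h
  refine ⟨ℕ, c, h1, fun v w hw => ?_⟩
  obtain ⟨e, he, hm⟩ := Finset.exists_max_image w.edges.toFinset c (by
    rw [List.toFinset_nonempty_iff, ← List.length_pos_iff, w.length_edges]
    have := hw.three_le_length
    omega)
  exact ⟨e, List.mem_toFinset.1 he, h2 v w hw e (List.mem_toFinset.1 he)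
    fun f hf => hm f (List.mem_toFinset.2 hf)⟩

lemma TopTwice.comap {V W : Type} {X : SimpleGraph V} (h : TopTwice X) (f : W ↪ V) :
    TopTwice (X.comap f) := by
  obtain ⟨c, h1, h2⟩ := h
  refine ⟨c ∘ Sym2.map f, atMostTwo_comap h1 f, fun v w hw e he hm => ?_⟩
  obtain ⟨e', he', hne, hc⟩ := h2 _ (w.map (SimpleGraph.Hom.comap f X)) (hw.map f.injective)
    (Sym2.map f e) (by rw [SimpleGraph.Walk.edges_map]; exact List.mem_map_of_mem he)
    fun e' he' => by
      rw [SimpleGraph.Walk.edges_map] at he'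
      obtain ⟨e'', he'', rfl⟩ := List.mem_map.1 he'
      exact hm e'' he''
  rw [SimpleGraph.Walk.edges_map] at he'
  obtain ⟨e'', he'', rfl⟩ := List.mem_map.1 he'
  exact ⟨e'', he'', fun e0 => hne (by rw [e0]; rfl), hc⟩

variable {k w : ℕ}

/-- The vertices. -/
abbrev Cb (k w : ℕ) : Type := (Fin k → Bool) × Fin w

/-- The block of level `j`. -/
def cls (j : ℕ) (x : Cb k w) : Fin k → Bool := fun i => if j ≤ i then x.1 i else false

lemma cls_eq {j : ℕ} {x y : Cb k w} : cls j x = cls j y ↔ ∀ i : Fin k, j ≤ i → x.1 i = y.1 i := by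
  refine ⟨fun h i hi => by simpa [cls, hi] using congrFun h i, fun h => funext fun i => ?_⟩
  by_cases hi : j ≤ i
  · simp [cls, hi, h i hi]
  · simp [cls, hi]

/-- Changing one bit. -/
def tog (j : Fin k) (x : Cb k w) : Cb k w := (Function.update x.1 j (!x.1 j), x.2)

lemma tog_same (j : Fin k) (x : Cb k w) : (tog j x).1 j = !x.1 j := by simp [tog]

lemma tog_ne {j i : Fin k} (h : i ≠ j) (x : Cb k w) : (tog j x).1 i = x.1 i := by simp [tog, h]

lemma tog_tog (j : Fin k) (x : Cb k w) : tog j (tog j x) = x := by simp [tog]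

lemma card_cls {j : ℕ} (hj : j ≤ k) (x : Cb k w) :
    (Finset.univ.filter fun y : Cb k w => cls j y = cls j x).card = 2 ^ j * w := by
  have h : (Finset.univ.filter fun y : Cb k w => cls j y = cls j x) = (Fintype.piFinset fun i : Fin k =>
      if (i : ℕ) < j then Finset.univ else {x.1 i}) ×ˢ Finset.univ := by
    ext y
    simp only [Finset.mem_filter, Finset.mem_univ, true_and, cls_eq, Finset.mem_product, and_true,
      Fintype.mem_piFinset]
    refine forall_congr' fun i => ?_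
    by_cases hi : (i : ℕ) < j
    · simp [hi, not_le.2 hi]
    · simp [hi, not_lt.1 hi]
  rw [h, Finset.card_product, Fintype.card_piFinset]
  simp only [apply_ite Finset.card, Finset.card_univ, Fintype.card_bool, Finset.card_singleton,
    Fintype.card_fin]
  rw [← Finset.prod_filter, Finset.prod_const, Fin.card_filter_val_lt, min_eq_right hj]

/-- The admissible families of permutations. -/
def Tau (k w : ℕ) : Finset (Fin k → Equiv.Perm (Cb k w)) :=
  Fintype.piFinset fun j : Fin k => pres (cls (j : ℕ))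

/-- The graph of a family of permutations. -/
def cube (t : Fin k → Equiv.Perm (Cb k w)) : SimpleGraph (Cb k w) :=
  SimpleGraph.fromRel fun x y => ∃ j, x.1 j = false ∧ y = tog j (t j x)

/-- The neighbour at level `j`. -/
def nb (t : Fin k → Equiv.Perm (Cb k w)) (j : Fin k) (y : Cb k w) : Cb k w :=
  if y.1 j = false then tog j (t j y) else (t j).symm (tog j y)

/-- The largest bit in which the two ends differ. -/
def lev : Sym2 (Cb k w) → ℕ :=
  Sym2.lift ⟨fun x y => (Finset.univ.filter fun i => x.1 i ≠ y.1 i).sup fun i => (i : ℕ),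
    fun _ _ => by simp only [ne_comm]⟩

variable {t : Fin k → Equiv.Perm (Cb k w)}

lemma tau_bit (ht : t ∈ Tau k w) {j i : Fin k} (h : j ≤ i) (x : Cb k w) : (t j x).1 i = x.1 i :=
  cls_eq.1 (mem_pres.1 (Fintype.mem_piFinset.1 ht j) x) i h

lemma cube_adj (ht : t ∈ Tau k w) {x y : Cb k w} (h : (cube t).Adj x y) :
    ∃ j : Fin k, y = nb t j x ∧ x.1 j ≠ y.1 j ∧ (∀ i, j < i → x.1 i = y.1 i) ∧ lev s(x, y) = j := by
  have key : ∀ (j : Fin k) (a : Cb k w), a.1 j ≠ (tog j (t j a)).1 j ∧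
      ∀ i, j < i → a.1 i = (tog j (t j a)).1 i := fun j a =>
    ⟨by rw [tog_same, tau_bit ht le_rfl]; simp,
      fun i hi => by rw [tog_ne hi.ne', tau_bit ht hi.le]⟩
  have h2 : ∃ j : Fin k, y = nb t j x ∧ x.1 j ≠ y.1 j ∧ ∀ i, j < i → x.1 i = y.1 i := by
    rcases ((SimpleGraph.fromRel_adj _ _ _).1 h).2 with ⟨j, h1, rfl⟩ | ⟨j, h1, rfl⟩
    · exact ⟨j, by rw [nb, if_pos h1], key j x⟩
    · refine ⟨j, ?_, (key j y).1.symm, fun i hi => ((key j y).2 i hi).symm⟩
      rw [nb, if_neg (h1 ▸ (key j y).1.symm), tog_tog, Equiv.symm_apply_apply]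
  obtain ⟨j, h1, h2, h3⟩ := h2
  refine ⟨j, h1, h2, h3, ?_⟩
  simp only [lev, Sym2.lift_mk]
  refine le_antisymm (Finset.sup_le fun i hi => ?_)
    (Finset.le_sup (f := fun i : Fin k => (i : ℕ)) (Finset.mem_filter.2 ⟨Finset.mem_univ j, h2⟩))
  exact not_lt.1 fun h4 => (Finset.mem_filter.1 hi).2 (h3 i h4)

lemma cube_top (ht : t ∈ Tau k w) : TopTwice (cube t) := by
  refine ⟨lev, fun v κ => ?_, fun v p hp e he hm => ?_⟩
  · refine le_trans (Set.encard_le_one_iff.2 ?_) one_le_two
    rintro e e' ⟨⟨h1, h2⟩, h3⟩ ⟨⟨h1', h2'⟩, h3'⟩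
    obtain ⟨y, rfl⟩ := Sym2.mem_iff_exists.1 h2
    obtain ⟨y', rfl⟩ := Sym2.mem_iff_exists.1 h2'
    obtain ⟨j, rfl, -, -, hj⟩ := cube_adj (x := v) (y := y) ht h1
    obtain ⟨j', rfl, -, -, hj'⟩ := cube_adj (x := v) (y := y') ht h1'
    rw [Fin.ext (hj.symm.trans (h3.trans (h3'.symm.trans hj')))]
  · by_contra hn
    induction e using Sym2.ind with
    | _ u v =>
    obtain ⟨j, -, h1, -, h2⟩ := cube_adj (x := u) (y := v) ht (p.edges_subset_edgeSet he)
    refine h1 (cycle_rel p hp he (Setoid.ker fun x : Cb k w => x.1 j) fun a b hab hne => ?_)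
    obtain ⟨i, -, -, h3, h4⟩ := cube_adj (x := a) (y := b) ht (p.edges_subset_edgeSet hab)
    have h5 := lt_of_le_of_ne (hm _ hab) fun e => hn ⟨_, hab, hne, e⟩
    rw [h2, h4] at h5
    exact h3 j h5

end Pool.Agent.Lib.NL57
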