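import Pool.Agent.Lib.NL57.CubeInd

/-!
Short cycles in the random cube graph are rare; the lower bound.
-/

set_option autoImplicit false

open Finset Filter

namespace Pool.Agent.Lib.NL57

variable {k w l : ℕ}

lemma mem_forcedC {E : Finset (Fin k × Cb k w × Cb k w)} {t : Fin k → Equiv.Perm (Cb k w)} :
    t ∈ forcedC (fun j : Fin k => cls (j : ℕ)) E ↔ t ∈ Tau k w ∧ ∀ e ∈ E, t e.1 e.2.1 = e.2.2 := by
  simp only [forcedC, Finset.mem_filter, Tau]

/-- The prescribed value for one step. -/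
def tr (j : Fin k) (y z : Cb k w) : Fin k × Cb k w × Cb k w :=
  (j, if y.1 j = false then (y, tog j z) else (z, tog j y))

lemma nb_iff (t : Fin k → Equiv.Perm (Cb k w)) (j : Fin k) (y z : Cb k w) :
    t (tr j y z).1 (tr j y z).2.1 = (tr j y z).2.2 ↔ z = nb t j y := by
  unfold tr nb
  split_ifs
  · exact ⟨fun h => by rw [show t j y = tog j z from h, tog_tog], fun h => by rw [h, tog_tog]⟩
  · exact (Equiv.eq_symm_apply _).symm

lemma tr_edge (j : Fin k) (y z : Cb k w) :
    s((tr j y z).2.1, tog (tr j y z).1 (tr j y z).2.2) = s(y, z) := by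
  unfold tr
  split_ifs <;> simp [tog_tog]

/-- The prescribed values along a path. -/
def trs (d : Fin (l + 1) → Fin k) (Y : Fin (l + 1) → Cb k w) : Finset (Fin k × Cb k w × Cb k w) :=
  Finset.univ.image fun r : Fin l => tr (d r.castSucc) (Y r.castSucc) (Y r.succ)

lemma cube_enc {t : Fin k → Equiv.Perm (Cb k w)} (ht : t ∈ Tau k w) {g : ℕ} {x : Cb k w}
    (h : Short (cube t) g x) : ∃ l < g, ∃ (d : Fin (l + 1) → Fin k) (Y : Fin (l + 1) → Cb k w),
      (Y 0 = x ∧ tr (d (Fin.last l)) (Y (Fin.last l)) x ∉ trs d Y) ∧ t ∈ forcedC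
        (fun j : Fin k => cls (j : ℕ)) (insert (tr (d (Fin.last l)) (Y (Fin.last l)) x) (trs d Y)) := by
  obtain ⟨p, hp, hg⟩ := h
  obtain ⟨l, hl⟩ : ∃ l, p.length = l + 1 := ⟨p.length - 1, by have := hp.three_le_length; omega⟩
  choose d hd _ using fun r : Fin (l + 1) => cube_adj ht (p.adj_getVert_succ (r.2.trans_eq hl.symm))
  have hx : p.getVert (l + 1) = x := hl ▸ p.getVert_length
  refine ⟨l, by omega, d, fun r => p.getVert r, ⟨by simp, fun h => ?_⟩,
    mem_forcedC.2 ⟨ht, fun e he => ?_⟩⟩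
  · obtain ⟨r, -, e⟩ := Finset.mem_image.1 h
    have e1 := congrArg (fun z : Fin k × Cb k w × Cb k w => s(z.2.1, tog z.1 z.2.2)) e
    simp only [tr_edge, Fin.val_castSucc, Fin.val_succ, Fin.val_last] at e1
    have h1 : (r : ℕ) < p.edges.length := by rw [p.length_edges]; omega
    have h2 : l < p.edges.length := by rw [p.length_edges]; omega
    refine r.2.ne ((hp.isTrail.edges_nodup.getElem_inj_iff (hi := h1) (hj := h2)).1 ?_)
    rw [SimpleGraph.Walk.getElem_edges, SimpleGraph.Walk.getElem_edges, e1, hx]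
  · rcases Finset.mem_insert.1 he with rfl | he
    · exact (nb_iff _ _ _ _).2 (hx.symm.trans (hd (Fin.last l)))
    · obtain ⟨r, -, rfl⟩ := Finset.mem_image.1 he
      exact (nb_iff _ _ _ _).2 (hd r.castSucc)

lemma path_sum (x : Cb k w) (d : Fin (l + 1) → Fin k) (A : Finset (Fin (l + 1) → Cb k w))
    (hA : ∀ Y ∈ A, Y 0 = x) : ∑ Y ∈ A, (forcedC (fun j : Fin k => cls (j : ℕ)) (trs d Y)).card ≤ (Tau k w).card := by
  rw [← Finset.card_biUnion]
  · exact Finset.card_le_card (Finset.biUnion_subset.2 fun _ _ _ h => (mem_forcedC.1 h).1)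
  · refine fun Y hY Y' hY' hne => Finset.disjoint_left.2 fun t h h' => hne (funext fun r => ?_)
    induction r using Fin.induction with
    | zero => exact (hA Y hY).trans (hA Y' hY').symm
    | succ r ih =>
      rw [(nb_iff _ _ _ _).1 ((mem_forcedC.1 h).2 _
        (Finset.mem_image_of_mem _ (Finset.mem_univ r))), (nb_iff _ _ _ _).1
        ((mem_forcedC.1 h').2 _ (Finset.mem_image_of_mem _ (Finset.mem_univ r))), ih]

theorem cube_short (hk : 1 ≤ k) (g : ℕ) (x : Cb k w) :
    (∑ t ∈ Tau k w, ind (Short (cube t) g x)) * (w - g : ℕ) ≤ g * k ^ g * (Tau k w).card := by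
  classical
  rw [← card_ind]
  norm_cast
  refine (Nat.mul_le_mul_right _ ((Finset.card_le_card (t := (Finset.range g).biUnion fun l =>
    Finset.univ.biUnion fun d : Fin (l + 1) → Fin k => (Finset.univ.filter
      fun Y : Fin (l + 1) → Cb k w => Y 0 = x ∧ tr (d (Fin.last l)) (Y (Fin.last l)) x ∉ trs d Y).biUnion
      fun Y => forcedC (fun j : Fin k => cls (j : ℕ))
        (insert (tr (d (Fin.last l)) (Y (Fin.last l)) x) (trs d Y))) fun t ht => ?_).trans
    Finset.card_biUnion_le)).trans ?_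
  · obtain ⟨l, hl, d, Y, h1, h2⟩ := cube_enc (Finset.mem_filter.1 ht).1 (Finset.mem_filter.1 ht).2
    exact Finset.mem_biUnion.2 ⟨l, Finset.mem_range.2 hl, Finset.mem_biUnion.2 ⟨d, Finset.mem_univ _,
      Finset.mem_biUnion.2 ⟨Y, Finset.mem_filter.2 ⟨Finset.mem_univ _, h1⟩, h2⟩⟩⟩
  rw [Finset.sum_mul, mul_assoc]
  refine (Finset.sum_le_card_nsmul _ _ (k ^ g * (Tau k w).card) fun l hl => ?_).trans (by simp)
  have hl := Finset.mem_range.1 hl
  refine (Nat.mul_le_mul_right _ Finset.card_biUnion_le).trans ?_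
  rw [Finset.sum_mul]
  refine (Finset.sum_le_card_nsmul _ _ (Tau k w).card fun d _ => ?_).trans ?_
  · refine (Nat.mul_le_mul_right _ Finset.card_biUnion_le).trans ?_
    rw [Finset.sum_mul]
    refine (Finset.sum_le_sum fun Y hY => ?_).trans (path_sum x d _ fun Y hY => (Finset.mem_filter.1 hY).2.1)
    refine le_trans (Nat.mul_le_mul_left _ (tsub_le_tsub_left ?_ w)) (forcedC_step _ _
      (Finset.mem_filter.1 hY).2.2 ?_)
    · exact Finset.card_image_le.trans (by simpa using hl.le)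
    · rw [card_cls (Fin.is_lt _).le]
      exact Nat.le_mul_of_pos_left w (by positivity)
  · rw [smul_eq_mul, Finset.card_univ, Fintype.card_fun, Fintype.card_fin, Fintype.card_fin]
    exact Nat.mul_le_mul_right _ (Nat.pow_le_pow_right hk hl)

lemma exists_good' {Ω V : Type} [Fintype V] [Nonempty V] (T : Finset Ω) (B : Ω → Prop)
    (S : Ω → V → Prop) (h1 : 2 * ∑ t ∈ T, ind (B t) < T.card)
    (h2 : ∀ x, 4 * ∑ t ∈ T, ind (S t x) ≤ T.card) :
    ∃ t ∈ T, ¬ B t ∧ 2 * ∑ x, ind (S t x) < Fintype.card V := by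
  obtain ⟨t, h⟩ := exists_good (Ω := T) (fun t => B t) (fun t => S t)
    (by rwa [Finset.sum_coe_sort T fun t => ind (B t), Fintype.card_coe])
    fun x => by rw [Finset.sum_coe_sort T fun t => ind (S t x), Fintype.card_coe]; exact h2 x
  exact ⟨t, t.2, h⟩

theorem cube_core {g : ℕ} {α : ℝ} (hk0 : 1 ≤ k) (hα : 0 < α) (hk : 2 - 2 * Real.log α ≤ α * k / 2) :
    ∃ (W : Type) (_ : Fintype W) (X : SimpleGraph W), Nonempty W ∧
      Fintype.card W ≤ 2 ^ k * ((5 * g + 1) * k ^ g) ∧ TopTwice X ∧ (g : ℕ∞) < X.egirth ∧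
      ∀ I : Finset W, X.IsIndepSet (I : Set W) → (I.card : ℝ) ≤ 2 * α * Fintype.card W := by
  classical
  have k1 := Nat.one_le_pow g k hk0
  have hw : 0 < (5 * g + 1) * k ^ g := by positivity
  have hw2 : 4 * (g * k ^ g) < (5 * g + 1) * k ^ g - g := by
    have := Nat.le_mul_of_pos_right g k1
    rw [lt_tsub_iff_right]
    nlinarith
  generalize (5 * g + 1) * k ^ g = w at hw hw2
  have : Nonempty (Fin w) := ⟨⟨0, hw⟩⟩
  obtain ⟨t, ht, hb, hs⟩ := exists_good' (Tau k w) _ (fun t => Short (cube t) g)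
    (cube_count hw hα (Nat.le_ceil _) hk) fun x => by
    have h2 := cube_short hk0 g x
    have h3 : (4 * (g * k ^ g) : ℝ) < (w - g : ℕ) := by exact_mod_cast hw2
    have h4 : (0 : ℝ) < (w - g : ℕ) := lt_of_le_of_lt (by positivity) h3
    refine le_of_mul_le_mul_right ?_ h4
    nlinarith [Nat.cast_nonneg (α := ℝ) (Tau k w).card]
  obtain ⟨W, _, f, hW, hg⟩ := delete_short _ g hs
  refine ⟨W, inferInstance, (cube t).comap f, Fintype.card_pos_iff.1 (by omega),
    (Fintype.card_le_of_embedding f).trans (by simp), (cube_top ht).comap f, hg, fun I hI => ?_⟩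
  have h2 : (I.map f).card < ⌈α * Fintype.card (Cb k w)⌉₊ := by
    refine not_le.1 fun h => ?_
    obtain ⟨J, hJ, hJc⟩ := Finset.exists_subset_card_eq h
    refine hb ⟨J, Finset.mem_powersetCard.2 ⟨Finset.subset_univ _, hJc⟩, fun x hx y hy hne => ?_⟩
    obtain ⟨x, hx', rfl⟩ := Finset.mem_map.1 (hJ hx)
    obtain ⟨y, hy', rfl⟩ := Finset.mem_map.1 (hJ hy)
    exact hI hx' hy' fun e => hne (congrArg f e)
  rw [Nat.lt_ceil, Finset.card_map] at h2
  have h3 : (Fintype.card (Cb k w) : ℝ) ≤ 2 * Fintype.card W := by exact_mod_cast hW.le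
  nlinarith

theorem cube_lower (g : ℕ) {L : ℝ} (hL : 0 < L) (h1 : 1 ≤ Real.log L)
    (h3 : (20 * g + 3) * Real.log L ≤ L) :
    ∃ (W : Type) (_ : Fintype W) (X : SimpleGraph W), Nonempty W ∧
      (Fintype.card W : ℝ) ≤ Real.exp L ∧ TopTwice X ∧ (g : ℕ∞) < X.egirth ∧
      ∀ I : Finset W, X.IsIndepSet (I : Set W) →
        L / (16 * Real.log L) * I.card ≤ Fintype.card W := by
  set l := Real.log L with hl
  have g0 : (0 : ℝ) ≤ g := Nat.cast_nonneg g
  have hx : 3 ≤ L := by nlinarith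
  have k1 : (⌊L⌋₊ : ℝ) ≤ L := Nat.floor_le hL.le
  have k2 : L ≤ 2 * ⌊L⌋₊ := by linarith [Nat.lt_floor_add_one L]
  have k3 : 3 ≤ ⌊L⌋₊ := Nat.le_floor (by exact_mod_cast hx)
  generalize ⌊L⌋₊ = k at k1 k2 k3
  have k4 : (3 : ℝ) ≤ k := by exact_mod_cast k3
  have g1 : 1 ≤ Real.log k := by
    rw [Real.le_log_iff_exp_le (by linarith)]
    linarith [Real.exp_one_lt_d9]
  have g2 : Real.log k ≤ l := Real.log_le_log (by linarith) k1
  obtain ⟨W, _, X, hne, hW, hX, hg, hI⟩ := cube_core (g := g) (k := k)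
    (α := 4 * Real.log k / k) (by omega) (by positivity) (by
      rw [Real.log_div (by linarith) (by linarith)]
      have e : 4 * Real.log k / k * k / 2 = 2 * Real.log k := by field_simp; norm_num
      have : 1 ≤ Real.log (4 * Real.log k) := by
        rw [Real.le_log_iff_exp_le (by linarith)]
        linarith [Real.exp_one_lt_d9]
      linarith)
  refine ⟨W, inferInstance, X, hne, ?_, hX, hg, fun I h => ?_⟩
  · have h4 : (Fintype.card W : ℝ) ≤ 2 ^ k * ((5 * g + 1) * k ^ g) := by exact_mod_cast hW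
    refine h4.trans ((mul_le_mul_of_nonneg_left (mul_le_mul_of_nonneg_right
      (Real.add_one_le_exp _) (by positivity)) (by positivity)).trans ?_)
    rw [← Real.exp_log two_pos, ← Real.exp_log (show (0 : ℝ) < k by linarith), ← Real.exp_nat_mul,
      ← Real.exp_nat_mul, ← Real.exp_add, ← Real.exp_add]
    refine Real.exp_le_exp.2 ?_
    nlinarith [Real.log_two_lt_d9, mul_le_mul_of_nonneg_left g2 g0, mul_le_mul_of_nonneg_left h1 g0]
  · refine (mul_le_mul_of_nonneg_left (hI I h) (by positivity)).trans ?_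
    rw [← mul_assoc]
    refine mul_le_of_le_one_left (Nat.cast_nonneg _) ?_
    rw [← mul_div_assoc, div_mul_div_comm, div_le_one (by positivity)]
    nlinarith [mul_le_mul k2 g2 (by linarith) (by positivity)]

end Pool.Agent.Lib.NL57
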