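import Pool.Agent.Lib.NL57.Cube

/-!
Large independent sets in the random cube graph are rare.
-/

set_option autoImplicit false

open Finset

namespace Pool.Agent.Lib.NL57

lemma card_ind {α : Type} (s : Finset α) (P : α → Prop) [DecidablePred P] :
    ((s.filter P).card : ℝ) = ∑ y ∈ s, ind (P y) := by
  rw [Finset.card_filter, Nat.cast_sum]
  refine Finset.sum_congr rfl fun u _ => ?_
  by_cases h : P u
  · rw [ind_pos h, if_pos h, Nat.cast_one]
  · rw [ind_neg h, if_neg h, Nat.cast_zero]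

lemma tele (t : ℕ → ℝ) (k : ℕ) (h1 : ∀ j ≤ k, 1 ≤ t j) (h2 : ∀ j < k, t j ≤ 2 * t (j + 1)) :
    k + 2 * Real.log (t k) - 2 * Real.log (t 0) ≤ ∑ j ∈ Finset.range k, (2 * t (j + 1) - t j) := by
  induction k with
  | zero => simp
  | succ k ih =>
    rw [Finset.sum_range_succ]
    have h3 := ih (fun j hj => h1 j (by omega)) fun j hj => h2 j (by omega)
    have a1 := h1 k (by omega)
    have a2 := h1 (k + 1) le_rfl
    have a3 := h2 k (by omega)
    have h4 := Real.log_le_sub_one_of_pos (show 0 < t (k + 1) / t k by positivity)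
    rw [Real.log_div (by linarith) (by linarith)] at h4
    have h5 : 2 * (t (k + 1) / t k - 1) ≤ 2 * t (k + 1) - t k - 1 := by
      rw [div_sub_one (by linarith), ← mul_div_assoc, div_le_iff₀ (by linarith)]
      nlinarith [mul_nonneg (sub_nonneg.2 a1) (sub_nonneg.2 a3)]
    push_cast
    linarith

variable {k w : ℕ}

/-- The number of ordered pairs in a common block. -/
noncomputable def prs (I : Finset (Cb k w)) (j : ℕ) : ℝ := ∑ x ∈ I, ∑ y ∈ I, ind (cls j y = cls j x)

lemma cls_tog {j : Fin k} {x y : Cb k w} :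
    cls j y = cls j (tog j x) ↔ y.1 j ≠ x.1 j ∧ cls (j + 1) y = cls (j + 1) x := by
  rw [cls_eq, cls_eq]
  refine ⟨fun h => ⟨by rw [h j le_rfl, tog_same]; simp, fun i hi => ?_⟩, fun h i hi => ?_⟩
  · rw [h i (by omega), tog_ne fun e => by rw [e] at hi; omega]
  · by_cases e : i = j
    · rw [e, tog_same]
      exact Bool.eq_not.2 h.1
    · rw [tog_ne e]
      exact h.2 i (Nat.succ_le_of_lt (lt_of_le_of_ne hi fun e' => e (Fin.ext e'.symm)))

lemma cls_self {j : Fin k} {x y : Cb k w} :
    cls j y = cls j x ↔ y.1 j = x.1 j ∧ cls (j + 1) y = cls (j + 1) x := by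
  have h := cls_tog (j := j) (x := tog j x) (y := y)
  rw [tog_tog, tog_same] at h
  rw [h, (cls_tog.1 (rfl : cls j (tog j x) = _)).2]
  cases y.1 j <;> cases x.1 j <;> simp

lemma prs_succ (I : Finset (Cb k w)) (j : Fin k) : prs I (j + 1) = prs I j +
    2 * ∑ x ∈ I.filter fun x => x.1 j = false, ∑ y ∈ I, ind (cls j y = cls j (tog j x)) := by
  have e : ∑ x ∈ I.filter fun x => x.1 j = false, ∑ y ∈ I, ind (cls j y = cls j (tog j x)) =
      ∑ x ∈ I, ∑ y ∈ I, ind (x.1 j = false) * ind (cls j y = cls j (tog j x)) := by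
    rw [Finset.sum_filter]
    refine Finset.sum_congr rfl fun x _ => ?_
    split_ifs with h
    · simp [ind_pos h]
    · simp [ind_neg h]
  rw [e, two_mul]
  conv_rhs => enter [2, 2]; rw [Finset.sum_comm]
  simp only [prs, ← Finset.sum_add_distrib]
  refine Finset.sum_congr rfl fun x _ => Finset.sum_congr rfl fun y _ => ?_
  rw [cls_self, cls_tog, cls_tog, eq_comm (a := cls (j + 1) x)]
  by_cases h : cls (j + 1) y = cls (j + 1) x <;> cases y.1 j <;> cases x.1 j <;> simp [ind, h]

lemma prs_ge (I : Finset (Cb k w)) {j : ℕ} (hj : j ≤ k) (hw : 0 < w) :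
    (I.card : ℝ) ^ 2 * (2 ^ j * w) ≤ Fintype.card (Cb k w) * prs I j := by
  have hm : ∀ x : Cb k w, ∑ z, ind (cls j z = cls j x) = 2 ^ j * w := fun x => by
    rw [sum_ind, card_cls hj]
    push_cast
    rfl
  have h1 : ∑ z : Cb k w, ∑ y ∈ I, ind (cls j z = cls j y) = I.card * (2 ^ j * w) := by
    rw [Finset.sum_comm]
    simp [hm]
  have h2 : ∑ z : Cb k w, (∑ y ∈ I, ind (cls j z = cls j y)) ^ 2 = 2 ^ j * w * prs I j := by
    simp only [pow_two, Finset.sum_mul_sum]
    simp only [prs, Finset.mul_sum]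
    rw [Finset.sum_comm]
    refine Finset.sum_congr rfl fun x _ => ?_
    rw [Finset.sum_comm]
    refine Finset.sum_congr rfl fun y _ => ?_
    rw [← hm x, Finset.sum_mul]
    refine Finset.sum_congr rfl fun z _ => ?_
    by_cases h : cls j z = cls j x
    · rw [h, eq_comm (a := cls j x) (b := cls j y)]
    · rw [ind_neg h, zero_mul, zero_mul]
  have h3 := sq_sum_le_card_mul_sum_sq (s := Finset.univ)
    (f := fun z : Cb k w => ∑ y ∈ I, ind (cls j z = cls j y))
  rw [h1, h2, Finset.card_univ] at h3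
  have h4 : (0 : ℝ) < 2 ^ j * w := by positivity
  exact le_of_mul_le_mul_right (by linarith) h4

lemma prs_zero (I : Finset (Cb k w)) : prs I 0 ≤ I.card * w := by
  rw [prs, ← nsmul_eq_mul, ← Finset.sum_const]
  refine Finset.sum_le_sum fun x _ => (Finset.sum_le_sum_of_subset_of_nonneg (Finset.subset_univ I)
    fun _ _ _ => ind_nonneg _).trans ?_
  rw [sum_ind, card_cls (Nat.zero_le k)]
  simp

lemma cube_set (hw : 0 < w) (I : Finset (Cb k w)) (hI : 0 < I.card) :
    ∑ t ∈ Tau k w, ind ((cube t).IsIndepSet (I : Set (Cb k w))) ≤ (Tau k w).card *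
      Real.exp (-(I.card ^ 2 / (2 * Fintype.card (Cb k w)) *
        (k - 2 * Real.log (Fintype.card (Cb k w) / I.card)))) := by
  classical
  have hs : (0 : ℝ) < I.card := by exact_mod_cast hI
  have hn : (0 : ℝ) < Fintype.card (Cb k w) := hs.trans_le (by exact_mod_cast I.card_le_univ)
  have hw' : (0 : ℝ) < w := by exact_mod_cast hw
  rw [← card_ind]
  refine le_trans (Nat.cast_le.2 (Finset.card_le_card (t := Fintype.piFinset fun j : Fin k =>
    avoidC (cls j) (I.filter fun x => x.1 j = false) (Finset.univ.filter fun z => tog j z ∈ I))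
    fun t ht => Fintype.mem_piFinset.2 fun j => ?_)) ?_
  · obtain ⟨h1, h2⟩ := Finset.mem_filter.1 ht
    refine Finset.mem_filter.2 ⟨Fintype.mem_piFinset.1 h1 j, fun x hx hy => ?_⟩
    obtain ⟨h3, h4⟩ := Finset.mem_filter.1 hx
    have hne : x ≠ tog j (t j x) := fun e => by
      have := congrArg (fun z => z.1 j) e
      simp [tog_same, tau_bit h1 le_rfl] at this
    exact h2 h3 (Finset.mem_filter.1 hy).2 hne
      ((SimpleGraph.fromRel_adj _ _ _).2 ⟨hne, Or.inl ⟨j, h4, rfl⟩⟩)
  rw [Fintype.card_piFinset, Nat.cast_prod]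
  refine (Finset.prod_le_prod (fun _ _ => Nat.cast_nonneg _) fun (j : Fin k) _ => card_avoidC (cls (j : ℕ))
    (m := 2 ^ (j : ℕ) * w) (by positivity) (fun x => by rw [card_cls j.2.le]; push_cast; rfl)
    _ _).trans ?_
  rw [Finset.prod_mul_distrib, ← Real.exp_sum, Tau, Fintype.card_piFinset, Nat.cast_prod,
    Finset.sum_neg_distrib]
  refine mul_le_mul_of_nonneg_left (Real.exp_le_exp.2 (neg_le_neg ?_))
    (Finset.prod_nonneg fun _ _ => Nat.cast_nonneg _)
  have e : ∀ (j : Fin k) (x : Cb k w), (((Finset.univ.filter fun z => tog j z ∈ I).filter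
      fun y => cls j y = cls j x).card : ℝ) = ∑ y ∈ I, ind (cls j y = cls j (tog j x)) := by
    intro j x
    rw [← card_ind, Nat.cast_inj]
    have h0 : ∀ a b : Cb k w, cls j a = cls j b → cls j (tog j a) = cls j (tog j b) := fun a b h =>
      cls_tog.2 ⟨by rw [tog_same, (cls_self.1 h).1]; simp,
        (cls_tog.1 (rfl : cls j (tog j a) = _)).2.trans (cls_self.1 h).2⟩
    refine Finset.card_bij' (fun z _ => tog j z) (fun z _ => tog j z) (fun z hz => ?_)
      (fun z hz => ?_) (fun z _ => tog_tog j z) fun z _ => tog_tog j z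
    · simp only [Finset.mem_filter, Finset.mem_univ, true_and] at hz ⊢
      exact ⟨hz.1, h0 _ _ hz.2⟩
    · simp only [Finset.mem_filter, Finset.mem_univ, true_and, tog_tog] at hz ⊢
      exact ⟨hz.1, by simpa only [tog_tog] using h0 _ _ hz.2⟩
  simp only [e]
  set T : ℕ → ℝ := fun j => Fintype.card (Cb k w) * prs I j / (I.card ^ 2 * (2 ^ j * w)) with hT
  have t1 : ∀ j ≤ k, 1 ≤ T j := fun j hj => (one_le_div (by positivity)).2 (prs_ge I hj hw)
  have t2 : ∀ j : Fin k, (∑ x ∈ I.filter fun x => x.1 j = false,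
      ∑ y ∈ I, ind (cls j y = cls j (tog j x))) / (2 ^ (j : ℕ) * w) =
      I.card ^ 2 / (2 * Fintype.card (Cb k w)) * (2 * T (j + 1) - T j) := fun j => by
    simp only [hT, prs_succ I j]
    field_simp
    ring
  have t3 := tele T k t1 fun j hj => by
    have h1 := t2 ⟨j, hj⟩
    have h2 : 0 ≤ I.card ^ 2 / (2 * Fintype.card (Cb k w)) * (2 * T (j + 1) - T j) := by
      rw [← h1]
      exact div_nonneg (Finset.sum_nonneg fun _ _ => Finset.sum_nonneg fun _ _ => ind_nonneg _)
        (by positivity)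
    exact sub_nonneg.1 (nonneg_of_mul_nonneg_right h2 (by positivity))
  have t4 : Real.log (T 0) ≤ Real.log (Fintype.card (Cb k w) / I.card) := by
    refine Real.log_le_log (zero_lt_one.trans_le (t1 0 (Nat.zero_le k))) ?_
    simp only [hT, pow_zero, one_mul]
    rw [div_le_div_iff₀ (by positivity) hs]
    nlinarith [mul_le_mul_of_nonneg_left (prs_zero I) (mul_pos hn hs).le]
  simp only [t2]
  rw [← Finset.mul_sum, Fin.sum_univ_eq_sum_range (fun j => 2 * T (j + 1) - T j) k]
  refine mul_le_mul_of_nonneg_left ?_ (by positivity)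
  linarith [Real.log_nonneg (t1 k le_rfl)]

theorem cube_count (hw : 0 < w) {α : ℝ} {s : ℕ} (hα : 0 < α)
    (hs : α * Fintype.card (Cb k w) ≤ s) (hk : 2 - 2 * Real.log α ≤ α * k / 2) :
    2 * ∑ t ∈ Tau k w, ind (∃ I ∈ Finset.powersetCard s Finset.univ,
      (cube t).IsIndepSet ((I : Finset (Cb k w)) : Set (Cb k w))) < (Tau k w).card := by
  have hN : (0 : ℝ) < (Tau k w).card := by
    exact_mod_cast Finset.card_pos.2 ⟨1, Fintype.mem_piFinset.2 fun j => mem_pres.2 fun _ => rfl⟩
  have : Nonempty (Fin w) := ⟨⟨0, hw⟩⟩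
  have hn : (0 : ℝ) < Fintype.card (Cb k w) := by exact_mod_cast Fintype.card_pos
  have hs0 : 0 < s := by exact_mod_cast (mul_pos hα hn).trans_le hs
  have hs1 : (1 : ℝ) ≤ s := by exact_mod_cast hs0
  refine lt_of_le_of_lt (mul_le_mul_of_nonneg_left
    (Finset.sum_le_sum fun t _ => ind_exists_le _ _) zero_le_two) ?_
  rw [Finset.sum_comm]
  by_cases hsn : Fintype.card (Cb k w) < s
  · rw [Finset.powersetCard_eq_empty.2 hsn]
    simpa using hN
  have h0 : (s : ℝ) ≤ Fintype.card (Cb k w) := by exact_mod_cast not_lt.1 hsn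
  refine lt_of_le_of_lt (mul_le_mul_of_nonneg_left (Finset.sum_le_sum fun I hI =>
    (cube_set hw I ((Finset.mem_powersetCard.1 hI).2 ▸ hs0)).trans
      (le_of_eq (by rw [(Finset.mem_powersetCard.1 hI).2]))) zero_le_two) ?_
  rw [Finset.sum_const, Finset.card_powersetCard, Finset.card_univ, nsmul_eq_mul]
  have h2 := choose_le (Fintype.card (Cb k w)) s hs0
  generalize (Fintype.card (Cb k w)).choose s = c at h2 ⊢
  generalize (Fintype.card (Cb k w) : ℝ) = n at hn hs h0 h2 ⊢
  rw [← Real.exp_log (show 0 < n / s by positivity), ← Real.exp_add, ← Real.exp_nat_mul] at h2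
  have l0 : 0 ≤ Real.log (n / s) := Real.log_nonneg ((one_le_div (by linarith)).2 h0)
  have l1 : Real.log (n / s) ≤ -Real.log α := by
    rw [← Real.log_inv]
    refine Real.log_le_log (by positivity) ?_
    rw [inv_eq_one_div, div_le_div_iff₀ (by linarith) hα]
    linarith
  have h4 : Real.exp (s * (Real.log (n / s) + 1)) *
      Real.exp (-(s ^ 2 / (2 * n) * (k - 2 * Real.log (n / s)))) ≤ Real.exp (-1) := by
    rw [← Real.exp_add]
    refine Real.exp_le_exp.2 ?_
    have e : (s : ℝ) ^ 2 / (2 * n) * (k - 2 * Real.log (n / s)) =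
        s * (s / n * k / 2 - s / n * Real.log (n / s)) := by field_simp
    have r1 : α ≤ s / n := (le_div_iff₀ hn).2 hs
    have r2 : s / n ≤ 1 := (div_le_one hn).2 h0
    have r3 := mul_le_mul_of_nonneg_right r1 (Nat.cast_nonneg (α := ℝ) k)
    have r4 := mul_le_mul_of_nonneg_right r2 l0
    rw [e]
    nlinarith
  have h5 := mul_le_mul_of_nonneg_right h2 (show 0 ≤ (Tau k w).card *
    Real.exp (-(s ^ 2 / (2 * n) * (k - 2 * Real.log (n / s)))) by positivity)
  have h6 := mul_le_mul_of_nonneg_left h4 hN.le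
  nlinarith [Real.exp_neg_one_lt_d9]

end Pool.Agent.Lib.NL57
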