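import Pool.Agent.Lib.NL57.Grid

/-!
Short cycles in the random grid graph are rare.
-/

set_option autoImplicit false

open Finset

namespace Pool.Agent.Lib.NL57

variable {k q l : ℕ}

/-- The positions of a walk given by its directions and new values. -/
def pos (x : Fin k → ZMod q) (d : Fin l → Fin k) (v : Fin l → ZMod q) : ℕ → Fin k → ZMod q
  | 0 => x
  | r + 1 => if h : r < l then Function.update (pos x d v r) (d ⟨r, h⟩) (v ⟨r, h⟩) else pos x d v r

/-- The prescribed values along a walk. -/
def trip (x : Fin k → ZMod q) (d : Fin l → Fin k) (v : Fin l → ZMod q) (σ : Fin l → Bool)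
    (r : Fin l) : (Fin k × (Fin k → ZMod q)) × ZMod q × ZMod q :=
  ((d r, Function.update (pos x d v r) (d r) 0),
    if σ r then (pos x d v r (d r), v r) else (v r, pos x d v r (d r)))

/-- The vertex lies on a cycle of length at most `g`. -/
def Short {V : Type} (X : SimpleGraph V) (g : ℕ) (x : V) : Prop :=
  ∃ w : X.Walk x x, w.IsCycle ∧ w.length ≤ g

lemma short_enc {t : Om k q} {g : ℕ} {x : Fin k → ZMod q} (h : Short (grid t) g x) :
    ∃ l ∈ Finset.Icc 1 g, ∃ (d : Fin l → Fin k) (v : Fin l → ZMod q) (σ : Fin l → Bool),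
      pos x d v l = x ∧ Function.Injective (trip x d v σ) ∧
      ∀ r, t (trip x d v σ r).1 (trip x d v σ r).2.1 = (trip x d v σ r).2.2 := by
  classical
  obtain ⟨w, hw, hg⟩ := h
  choose d _ hd using fun r : Fin w.length => grid_adj (w.adj_getVert_succ r.2)
  have hup : ∀ r : Fin w.length, w.getVert (r + 1) =
      Function.update (w.getVert r) (d r) (w.getVert (r + 1) (d r)) := fun r => by
    rcases hd r with h | h <;> rw [h, Function.update_self]
  have hpos : ∀ r ≤ w.length, pos x d (fun r => w.getVert (r + 1) (d r)) r = w.getVert r := by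
    intro r hr
    induction r with
    | zero => simp [pos]
    | succ r ih => rw [pos, dif_pos (show r < w.length from hr), ih (by omega), ← hup ⟨r, hr⟩]
  refine ⟨w.length, Finset.mem_Icc.2 ⟨by have := hw.three_le_length; omega, hg⟩, d,
    fun r => w.getVert (r + 1) (d r), fun r => decide (w.getVert (r + 1) = Function.update
      (w.getVert r) (d r) (t (d r, Function.update (w.getVert r) (d r) 0) (w.getVert r (d r)))),
    by rw [hpos _ le_rfl, w.getVert_length], fun r r' e => ?_, fun r => ?_⟩
  · have key : ∀ σ (r : Fin w.length), (fun z : (Fin k × (Fin k → ZMod q)) × ZMod q × ZMod q =>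
        s(Function.update z.1.2 z.1.1 z.2.1, Function.update z.1.2 z.1.1 z.2.2))
        (trip x d (fun r => w.getVert (r + 1) (d r)) σ r) =
        w.edges[r.1]'(by rw [w.length_edges]; exact r.2) := fun σ r => by
      rw [SimpleGraph.Walk.getElem_edges]
      simp only [trip, hpos r r.2.le]
      split_ifs
      · simp [← hup r]
      · simp [← hup r]
    exact Fin.ext ((hw.isTrail.edges_nodup.getElem_inj_iff).1
      ((key _ r).symm.trans ((congrArg (fun z : (Fin k × (Fin k → ZMod q)) × ZMod q × ZMod q =>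
        s(Function.update z.1.2 z.1.1 z.2.1, Function.update z.1.2 z.1.1 z.2.2)) e).trans
        (key _ r'))))
  · simp only [trip, hpos r r.2.le, decide_eq_true_eq]
    split_ifs with h
    · rw [h, Function.update_self]
    · rw [(hd r).resolve_left h, Function.update_self, Equiv.apply_symm_apply]

lemma pos_last (x : Fin k → ZMod q) (d : Fin l → Fin k) (v : Fin l → ZMod q) (r : Fin l)
    (hr : ∀ r', r < r' → d r' ≠ d r) (m : ℕ) (hm : r < m) : pos x d v m (d r) = v r := by
  induction m with
  | zero => omega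
  | succ m ih =>
    rw [pos]
    rcases Nat.lt_succ_iff_lt_or_eq.1 hm with h | h
    · split_ifs with h'
      · rw [Function.update_of_ne (hr ⟨m, h'⟩ h).symm, ih h]
      · exact ih h
    · subst h
      rw [dif_pos r.2, Function.update_self]

variable [NeZero q]

lemma closed_count (x : Fin k → ZMod q) (d : Fin l → Fin k) :
    ∑ v : Fin l → ZMod q, ind (pos x d v l = x) ≤
      q ^ l * (1 / q : ℝ) ^ (Finset.univ.image d).card := by
  classical
  have hq : (1 : ℝ) ≤ q := by exact_mod_cast Nat.pos_of_ne_zero (NeZero.ne q)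
  rw [sum_ind]
  refine le_trans (Nat.cast_le.2 (Finset.card_le_card (t := Fintype.piFinset fun r =>
    if ∀ r', r < r' → d r' ≠ d r then {x (d r)} else Finset.univ) fun v hv =>
    Fintype.mem_piFinset.2 fun r => ?_)) ?_
  · split_ifs with h
    · rw [Finset.mem_singleton, ← pos_last x d v r h l r.2, (Finset.mem_filter.1 hv).2]
    · exact Finset.mem_univ _
  · rw [Fintype.card_piFinset, Nat.cast_prod]
    have e : ∀ r, (((if ∀ r', r < r' → d r' ≠ d r then {x (d r)} else Finset.univ :
        Finset (ZMod q)).card : ℕ) : ℝ) =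
        q * if ∀ r', r < r' → d r' ≠ d r then (1 / q : ℝ) else 1 := fun r => by
      split_ifs
      · rw [Finset.card_singleton, Nat.cast_one, mul_one_div_cancel (by linarith)]
      · rw [Finset.card_univ, ZMod.card, mul_one]
    simp only [e]
    rw [Finset.prod_mul_distrib, Finset.prod_const, Finset.card_univ, Fintype.card_fin,
      ← Finset.prod_filter, Finset.prod_const]
    refine mul_le_mul_of_nonneg_left (pow_le_pow_of_le_one (by positivity)
      ((div_le_one (by linarith)).2 hq) ?_) (by positivity)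
    refine Finset.card_le_card_of_surjOn d fun i hi => ?_
    obtain ⟨r, -, rfl⟩ := Finset.mem_image.1 hi
    obtain ⟨r', h1, h2⟩ := Finset.exists_max_image (Finset.univ.filter fun s => d s = d r) id
      ⟨r, by simp⟩
    have h3 := (Finset.mem_filter.1 h1).2
    refine ⟨r', Finset.mem_filter.2 ⟨Finset.mem_univ _, fun s hs e => ?_⟩, h3⟩
    exact absurd (h2 s (Finset.mem_filter.2 ⟨Finset.mem_univ _, e.trans h3⟩)) (not_le.2 hs)

lemma dir_count (hl : 1 ≤ l) (hk : k ≤ q) :
    ∑ d : Fin l → Fin k, (1 / q : ℝ) ^ (Finset.univ.image d).card ≤ l ^ l * (2 * k / q) := by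
  classical
  have hq : (0 : ℝ) < q := by exact_mod_cast Nat.pos_of_ne_zero (NeZero.ne q)
  have h1 : ∑ D : Finset (Fin k), (1 / q : ℝ) ^ D.card = (1 / q + 1) ^ k := by
    simpa using Fintype.sum_pow_mul_eq_add_pow (Fin k) (1 / q : ℝ) 1
  have h2 : (1 / q + 1 : ℝ) ^ k ≤ 1 + 2 * k / q := by
    refine (pow_le_pow_left₀ (by positivity) (Real.add_one_le_exp _) k).trans ?_
    rw [← Real.exp_nat_mul]
    have h3 : (k : ℝ) * (1 / q) ≤ 1 := by
      rw [mul_one_div, div_le_one hq]
      exact_mod_cast hk
    have h4 := Real.abs_exp_sub_one_le (x := k * (1 / q)) (by rwa [abs_of_nonneg (by positivity)])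
    rw [abs_of_nonneg (a := (k : ℝ) * (1 / q)) (by positivity)] at h4
    have := le_abs_self (Real.exp (k * (1 / q)) - 1)
    have e : 2 * (k : ℝ) / q = 2 * (k * (1 / q)) := by ring
    linarith
  rw [← Finset.add_sum_erase _ _ (Finset.mem_univ ∅), Finset.card_empty, pow_zero] at h1
  refine le_trans ?_ (mul_le_mul_of_nonneg_left (show ∑ D ∈ Finset.univ.erase ∅,
    (1 / q : ℝ) ^ (D : Finset (Fin k)).card ≤ _ by linarith) (by positivity))
  rw [← Finset.sum_fiberwise_of_maps_to (t := Finset.univ.erase ∅) (g := fun d => Finset.univ.image d)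
    (fun d _ => Finset.mem_erase.2 ⟨Finset.nonempty_iff_ne_empty.1
      ⟨d ⟨0, hl⟩, by simp⟩, Finset.mem_univ _⟩), Finset.mul_sum]
  refine Finset.sum_le_sum fun D _ => ?_
  rw [Finset.sum_congr rfl fun d hd => by rw [(Finset.mem_filter.1 hd).2], Finset.sum_const,
    nsmul_eq_mul]
  refine mul_le_mul_of_nonneg_right ?_ (by positivity)
  rcases (Finset.univ.filter fun d : Fin l → Fin k => Finset.univ.image d = D).eq_empty_or_nonempty
    with h | ⟨d, hd⟩
  · rw [h]
    simp
  · have h3 : D.card ≤ l := by
      rw [← (Finset.mem_filter.1 hd).2]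
      simpa using Finset.card_image_le (s := Finset.univ) (f := d)
    have h4 : (Finset.univ.filter fun d : Fin l → Fin k => Finset.univ.image d = D).card ≤
        (Fintype.piFinset fun _ : Fin l => D).card :=
      Finset.card_le_card fun d hd => Fintype.mem_piFinset.2 fun r => by
        rw [← (Finset.mem_filter.1 hd).2]
        simp
    rw [Fintype.card_piFinset_const] at h4
    exact_mod_cast h4.trans (Nat.pow_le_pow_left h3 l)

lemma forced_count {g : ℕ} (hl : l ≤ g) (hg : 2 * g ≤ q) (x : Fin k → ZMod q) (d : Fin l → Fin k)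
    (v : Fin l → ZMod q) (σ : Fin l → Bool) :
    ∑ t : Om k q, ind (pos x d v l = x ∧ Function.Injective (trip x d v σ) ∧
      ∀ r, t (trip x d v σ r).1 (trip x d v σ r).2.1 = (trip x d v σ r).2.2) ≤
      ind (pos x d v l = x) * (Fintype.card (Om k q) * (2 / q : ℝ) ^ l) := by
  classical
  have hq : (0 : ℝ) < q := by exact_mod_cast Nat.pos_of_ne_zero (NeZero.ne q)
  simp only [ind_and, ← Finset.mul_sum]
  refine mul_le_mul_of_nonneg_left ?_ (ind_nonneg _)
  by_cases hi : Function.Injective (trip x d v σ)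
  · have hc : (Finset.univ.image (trip x d v σ)).card = l := by
      rw [Finset.card_image_of_injective _ hi, Finset.card_univ, Fintype.card_fin]
    have h1 := card_forced g (Finset.univ.image (trip x d v σ)) (by omega)
    rw [hc, ZMod.card] at h1
    have h2 : ((forced (Finset.univ.image (trip x d v σ))).card : ℝ) * ((q - g : ℕ) : ℝ) ^ l ≤
      Fintype.card (Om k q) := by exact_mod_cast h1
    have h3 : (q : ℝ) / 2 ≤ (q - g : ℕ) := by
      rw [div_le_iff₀ two_pos]
      exact_mod_cast (show q ≤ (q - g) * 2 by omega)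
    have e : (Finset.univ.filter fun t : Om k q => ∀ r, t (trip x d v σ r).1 (trip x d v σ r).2.1 =
        (trip x d v σ r).2.2) = forced (Finset.univ.image (trip x d v σ)) := by
      ext t
      simp [forced]
    rw [ind_pos hi, one_mul, sum_ind, e, ← inv_div, inv_pow, ← div_eq_mul_inv,
      le_div_iff₀ (by positivity)]
    exact le_trans (by gcongr) h2
  · rw [ind_neg hi, zero_mul]
    positivity

theorem short_count {g : ℕ} (hg : 2 * g ≤ q) (hk : k ≤ q) (x : Fin k → ZMod q) :
    ∑ t : Om k q, ind (Short (grid t) g x) ≤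
      Fintype.card (Om k q) * (g * (4 * g) ^ g * (2 * k / q)) := by
  have hq : (0 : ℝ) < q := by exact_mod_cast Nat.pos_of_ne_zero (NeZero.ne q)
  have h1 : ∀ t : Om k q, ind (Short (grid t) g x) ≤ ∑ l ∈ Finset.Icc 1 g, ∑ d : Fin l → Fin k,
      ∑ v : Fin l → ZMod q, ∑ σ : Fin l → Bool, ind (pos x d v l = x ∧
        Function.Injective (trip x d v σ) ∧
        ∀ r, t (trip x d v σ r).1 (trip x d v σ r).2.1 = (trip x d v σ r).2.2) := fun t => by
    have n0 : ∀ {ι : Type} (s : Finset ι) (P : ι → Prop), 0 ≤ ∑ i ∈ s, ind (P i) :=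
      fun _ _ => Finset.sum_nonneg fun _ _ => ind_nonneg _
    by_cases h : Short (grid t) g x
    · obtain ⟨l, hl, d, v, σ, h'⟩ := short_enc h
      rw [ind_pos h, ← ind_pos h']
      refine le_trans ?_ (Finset.single_le_sum (fun _ _ => Finset.sum_nonneg fun _ _ =>
        Finset.sum_nonneg fun _ _ => n0 _ _) hl)
      refine le_trans ?_ (Finset.single_le_sum (fun _ _ =>
        Finset.sum_nonneg fun _ _ => n0 _ _) (Finset.mem_univ d))
      refine le_trans ?_ (Finset.single_le_sum (fun _ _ => n0 _ _) (Finset.mem_univ v))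
      exact Finset.single_le_sum (f := fun σ => ind (pos x d v l = x ∧
        Function.Injective (trip x d v σ) ∧
        ∀ r, t (trip x d v σ r).1 (trip x d v σ r).2.1 = (trip x d v σ r).2.2))
        (fun _ _ => ind_nonneg _) (Finset.mem_univ σ)
    · rw [ind_neg h]
      exact Finset.sum_nonneg fun _ _ => Finset.sum_nonneg fun _ _ =>
        Finset.sum_nonneg fun _ _ => n0 _ _
  refine (Finset.sum_le_sum fun t _ => h1 t).trans ?_
  rw [Finset.sum_comm]
  have h2 : ∀ l ∈ Finset.Icc 1 g, ∑ t : Om k q, ∑ d : Fin l → Fin k,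
      ∑ v : Fin l → ZMod q, ∑ σ : Fin l → Bool, ind (pos x d v l = x ∧
        Function.Injective (trip x d v σ) ∧
        ∀ r, t (trip x d v σ r).1 (trip x d v σ r).2.1 = (trip x d v σ r).2.2) ≤
      Fintype.card (Om k q) * ((4 * g) ^ g * (2 * k / q)) := fun l hl => by
    obtain ⟨l1, l2⟩ := Finset.mem_Icc.1 hl
    rw [Finset.sum_comm]
    have h3 : ∀ d : Fin l → Fin k, ∑ t : Om k q, ∑ v : Fin l → ZMod q, ∑ σ : Fin l → Bool,
        ind (pos x d v l = x ∧ Function.Injective (trip x d v σ) ∧
          ∀ r, t (trip x d v σ r).1 (trip x d v σ r).2.1 = (trip x d v σ r).2.2) ≤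
        Fintype.card (Om k q) * 4 ^ l * (1 / q : ℝ) ^ (Finset.univ.image d).card := fun d => by
      rw [Finset.sum_comm]
      refine (Finset.sum_le_sum fun v _ => (Finset.sum_comm.le.trans
        (Finset.sum_le_sum fun σ _ => forced_count l2 hg x d v σ))).trans ?_
      simp only [Finset.sum_const, Finset.card_univ, Fintype.card_fun, Fintype.card_bool,
        Fintype.card_fin, nsmul_eq_mul, ← Finset.mul_sum, ← Finset.sum_mul]
      refine (mul_le_mul_of_nonneg_left (mul_le_mul_of_nonneg_right (closed_count x d)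
        (by positivity)) (by positivity)).trans (le_of_eq ?_)
      rw [show (4 : ℝ) = 2 * (q * (2 / q)) by field_simp; norm_num, mul_pow, mul_pow]
      push_cast
      ring
    refine (Finset.sum_le_sum fun d _ => h3 d).trans ?_
    rw [← Finset.mul_sum, mul_assoc]
    refine mul_le_mul_of_nonneg_left ((mul_le_mul_of_nonneg_left (dir_count l1 hk)
      (by positivity)).trans ?_) (by positivity)
    rw [← mul_assoc, ← mul_pow]
    have g1 : (1 : ℝ) ≤ g := by exact_mod_cast l1.trans l2
    have g2 : (l : ℝ) ≤ g := by exact_mod_cast l2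
    exact mul_le_mul_of_nonneg_right ((pow_le_pow_left₀ (by positivity) (by linarith) l).trans
      (pow_le_pow_right₀ (by linarith) l2)) (by positivity)
  refine (Finset.sum_le_sum h2).trans (le_of_eq ?_)
  rw [Finset.sum_const, Nat.card_Icc, nsmul_eq_mul, Nat.add_sub_cancel]
  ring

end Pool.Agent.Lib.NL57
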