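import Mathlib

namespace Pool.Agent.Lib.NL57

open Classical in
/-- The fractional chromatic number: the least total weight of a non-negative weighting of the
independent sets in which the sets through each vertex have total weight at least one. -/
noncomputable def fracChrom {V : Type} [Fintype V] (X : SimpleGraph V) : ℝ :=
  sInf {s | ∃ x : Finset V → ℝ, (∀ I, 0 ≤ x I) ∧ (∀ I, x I ≠ 0 → X.IsIndepSet (I : Set V)) ∧
    (∀ v, 1 ≤ ∑ I with v ∈ I, x I) ∧ s = ∑ I, x I}

end Pool.Agent.Lib.NL57
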