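import Pool.Agent.Lib.MP_3b2820_co.Ent

/-!
Entropy of a family of partitions: a splitting of the family into two parts with small
conditional entropies, and the weight of the unpopular classes.
-/

set_option autoImplicit false

open Finset

namespace Pool.Agent.Lib.NL57

open Pool.Agent.Lib.MP_3b2820_co

variable {V K : Type}

/-- The common refinement of the partitions with index in `T`. -/
def RT (R : K → Setoid V) (T : Finset K) : Setoid V where
  r u v := ∀ k ∈ T, R k u v
  iseqv := ⟨fun u k _ => (R k).refl' u, fun h k hk => (R k).symm' (h k hk),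
    fun h h' k hk => (R k).trans' (h k hk) (h' k hk)⟩

lemma RT_iff (R : K → Setoid V) (T : Finset K) (u v : V) : RT R T u v ↔ ∀ k ∈ T, R k u v := Iff.rfl

lemma RT_anti (R : K → Setoid V) {A B : Finset K} (h : A ⊆ B) : RT R B ≤ RT R A :=
  fun _ _ h' k hk => h' k (h hk)

variable [Fintype V] [DecidableEq K] {p : V → ℝ}

lemma sub_RT (hp : IsProb p) (R : K → Setoid V) {A B Q : Finset K} (hA : Q ⊆ A) (hB : Q ⊆ B) :
    entR p (RT R (A ∪ B)) + entR p (RT R Q) ≤ entR p (RT R A) + entR p (RT R B) := by
  have h := entR_submod hp (RT_anti R hA) (RT_anti R hB)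
  have e : RT R A ⊓ RT R B = RT R (A ∪ B) := by
    ext u v
    rw [Setoid.inf_iff_and, RT_iff, RT_iff, RT_iff]
    simp only [Finset.mem_union]
    exact ⟨fun h k hk => hk.elim (h.1 k) (h.2 k),
      fun h => ⟨fun k hk => h k (Or.inl hk), fun k hk => h k (Or.inr hk)⟩⟩
  rwa [e] at h

lemma han (hp : IsProb p) (R : K → Setoid V) (T : Finset K) :
    ∑ k ∈ T, (entR p (RT R T) - entR p (RT R (T.erase k))) ≤
      entR p (RT R T) - entR p (RT R ∅) := by
  induction T using Finset.induction_on with
  | empty => simp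
  | insert a T ha ih =>
    rw [Finset.sum_insert ha, Finset.erase_insert ha]
    have h : ∑ k ∈ T, (entR p (RT R (insert a T)) - entR p (RT R ((insert a T).erase k))) ≤
        ∑ k ∈ T, (entR p (RT R T) - entR p (RT R (T.erase k))) := by
      refine Finset.sum_le_sum fun k hk => ?_
      have h1 := sub_RT hp R (A := (insert a T).erase k) (B := T) (Q := T.erase k)
        (Finset.erase_subset_erase _ (Finset.subset_insert _ _)) (Finset.erase_subset _ _)
      have e : (insert a T).erase k ∪ T = insert a T := by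
        ext x
        simp only [Finset.mem_union, Finset.mem_erase, Finset.mem_insert]
        constructor
        · rintro (h | h)
          exacts [h.2, Or.inr h]
        · rintro (rfl | h)
          exacts [Or.inl ⟨fun h => ha (h ▸ hk), Or.inl rfl⟩, Or.inr h]
      rw [e] at h1
      linarith
    linarith

omit [DecidableEq K] in
lemma ent_empty (hp : IsProb p) (R : K → Setoid V) : entR p (RT R ∅) = 0 := by
  unfold entR
  have : ∀ a, mass p (RT R ∅) a = 1 := fun a => by
    unfold mass
    rw [← hp.total]
    exact Finset.sum_congr rfl fun b _ => if_pos fun k hk => absurd hk (Finset.notMem_empty k)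
  simp [this]

/-- The context of an index: the part of the splitting that does not contain it. -/
def ctx [Fintype K] (T : Finset K) (k : K) : Finset K := if k ∈ T then Tᶜ else T

lemma exists_split [Fintype K] (hp : IsProb p) (R : K → Setoid V) : ∃ T : Finset K,
    ∑ k, (entR p (RT R (insert k (ctx T k))) - entR p (RT R (ctx T k))) ≤
      2 * Real.log (Fintype.card V) := by
  obtain ⟨T, -, hT⟩ := Finset.exists_max_image (Finset.univ : Finset (Finset K))
    (fun T => entR p (RT R T) + entR p (RT R Tᶜ)) ⟨∅, Finset.mem_univ _⟩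
  have key : ∀ A : Finset K, (∀ B : Finset K, entR p (RT R B) + entR p (RT R Bᶜ) ≤
      entR p (RT R A) + entR p (RT R Aᶜ)) →
      ∑ k ∈ Aᶜ, (entR p (RT R (insert k A)) - entR p (RT R A)) ≤ Real.log (Fintype.card V) := by
    intro A hA
    have h1 := han hp R Aᶜ
    rw [ent_empty hp, sub_zero] at h1
    have h2 := entR_le_log_card hp (id : V → V) (R := RT R Aᶜ)
      (fun a b h => by rw [show a = b from h])
    refine le_trans (Finset.sum_le_sum fun k _ => ?_) (h1.trans h2)
    have h3 := hA (insert k A)
    rw [Finset.compl_insert] at h3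
    linarith
  refine ⟨T, ?_⟩
  have h1 := key T fun B => hT B (Finset.mem_univ _)
  have h2 := key Tᶜ fun B => by
    rw [compl_compl, add_comm (entR p (RT R Tᶜ))]
    exact hT B (Finset.mem_univ _)
  rw [compl_compl] at h2
  rw [← Finset.sum_add_sum_compl T]
  have e1 : ∑ k ∈ T, (entR p (RT R (insert k (ctx T k))) - entR p (RT R (ctx T k))) =
      ∑ k ∈ T, (entR p (RT R (insert k Tᶜ)) - entR p (RT R Tᶜ)) :=
    Finset.sum_congr rfl fun k hk => by rw [ctx, if_pos hk]
  have e2 : ∑ k ∈ Tᶜ, (entR p (RT R (insert k (ctx T k))) - entR p (RT R (ctx T k))) =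
      ∑ k ∈ Tᶜ, (entR p (RT R (insert k T)) - entR p (RT R T)) :=
    Finset.sum_congr rfl fun k hk => by rw [ctx, if_neg (Finset.mem_compl.1 hk)]
  rw [e1, e2]
  linarith

/-- The class of `x` for `S` carries at least the share `1 / m` of its class for `Q`. -/
def Pop (p : V → ℝ) (m : ℕ) (S Q : Setoid V) (x : V) : Prop :=
  0 < mass p S x ∧ mass p Q x ≤ m * mass p S x

open Classical in
lemma unpop_le (hp : IsProb p) {m : ℕ} (hm : 0 < m) {S Q : Setoid V} (h : S ≤ Q) :
    Real.log m * ∑ x, (if Pop p m S Q x then 0 else p x) ≤ entR p S - entR p Q := by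
  unfold entR
  rw [Finset.mul_sum, neg_sub_neg, ← Finset.sum_sub_distrib]
  refine Finset.sum_le_sum fun x _ => ?_
  rcases (hp.nonneg x).eq_or_lt with h0 | h0
  · simp [← h0]
  · have h1 : 0 < mass p S x := h0.trans_le (le_mass hp S x)
    split_ifs with hx
    · have := Real.log_le_log h1 (mass_mono hp h x)
      nlinarith
    · have hm' : (0 : ℝ) < m := by exact_mod_cast hm
      have h2 : m * mass p S x ≤ mass p Q x := le_of_lt (not_le.1 fun h' => hx ⟨h1, h'⟩)
      have h3 := Real.log_le_log (mul_pos hm' h1) h2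
      rw [Real.log_mul hm'.ne' h1.ne'] at h3
      nlinarith

lemma pop_congr {m : ℕ} {S Q : Setoid V} (h : S ≤ Q) {x y : V} (hxy : S x y) :
    Pop p m S Q x ↔ Pop p m S Q y := by
  unfold Pop
  rw [mass_congr S hxy, mass_congr Q (h hxy)]

/-- A representative of the class. -/
noncomputable def rep (S : Setoid V) (x : V) : V := (Quotient.mk S x).out

omit [Fintype V] in
lemma rep_rel (S : Setoid V) (x : V) : S (rep S x) x := Quotient.mk_out x

omit [Fintype V] in
lemma rep_eq_iff (S : Setoid V) (x y : V) : rep S x = rep S y ↔ S x y :=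
  ⟨fun h => S.trans' (S.symm' (rep_rel S x)) (h ▸ rep_rel S y),
    fun h => by unfold rep; rw [Quotient.sound h]⟩

/-- The popular classes inside one class can be numbered by `ZMod m`. -/
lemma exists_index [LinearOrder V] (hp : IsProb p) (m : ℕ) {S Q : Setoid V} (h : S ≤ Q) :
    ∃ ι : V → ZMod m, (∀ x y, S x y → ι x = ι y) ∧
      ∀ x y, Pop p m S Q x → Pop p m S Q y → Q x y → ι x = ι y → S x y := by
  classical
  set F : V → Finset V := fun x => Finset.univ.filter fun y => rep S y = y ∧ Pop p m S Q y ∧ Q y x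
    with hF
  have hFc : ∀ x y, Q x y → F x = F y := fun x y hxy => by
    ext z
    simp only [hF, Finset.mem_filter, Finset.mem_univ, true_and]
    exact ⟨fun h => ⟨h.1, h.2.1, Q.trans' h.2.2 hxy⟩,
      fun h => ⟨h.1, h.2.1, Q.trans' h.2.2 (Q.symm' hxy)⟩⟩
  have hmem : ∀ x, Pop p m S Q x → rep S x ∈ F x := fun x hx => by
    simp only [hF, Finset.mem_filter, Finset.mem_univ, true_and]
    exact ⟨(rep_eq_iff S _ _).2 (rep_rel S x), (pop_congr h (rep_rel S x)).2 hx, h (rep_rel S x)⟩
  have hcard : ∀ x, Pop p m S Q x → (F x).card ≤ m := fun x hx => by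
    have h0 : 0 < mass p Q x := hx.1.trans_le (mass_mono hp h x)
    have h1 : ∑ y ∈ F x, mass p S y ≤ mass p Q x := by
      unfold mass
      rw [Finset.sum_comm]
      refine Finset.sum_le_sum fun b _ => ?_
      rw [← Finset.sum_filter, Finset.sum_const, nsmul_eq_mul]
      by_cases hb : Q b x
      · rw [if_pos hb]
        have h2 : ((F x).filter fun y => S b y).card ≤ 1 := by
          refine Finset.card_le_one.2 fun y hy z hz => ?_
          simp only [hF, Finset.mem_filter, Finset.mem_univ, true_and] at hy hz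
          rw [← hy.1.1, ← hz.1.1, rep_eq_iff]
          exact S.trans' (S.symm' hy.2) hz.2
        have h3 : (((F x).filter fun y => S b y).card : ℝ) ≤ 1 := by exact_mod_cast h2
        nlinarith [hp.nonneg b]
      · rw [if_neg hb]
        have h2 : ((F x).filter fun y => S b y) = ∅ := by
          refine Finset.filter_eq_empty_iff.2 fun y hy hby => hb ?_
          simp only [hF, Finset.mem_filter, Finset.mem_univ, true_and] at hy
          exact Q.trans' (h hby) hy.2.2
        simp [h2]
    have h2 : (F x).card * mass p Q x ≤ m * ∑ y ∈ F x, mass p S y := by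
      rw [Finset.mul_sum, ← nsmul_eq_mul, ← Finset.sum_const]
      refine Finset.sum_le_sum fun y hy => ?_
      simp only [hF, Finset.mem_filter, Finset.mem_univ, true_and] at hy
      rw [← mass_congr Q hy.2.2]
      exact hy.2.1.2
    have h3 : ((F x).card : ℝ) * mass p Q x ≤ m * mass p Q x :=
      h2.trans (mul_le_mul_of_nonneg_left h1 (Nat.cast_nonneg m))
    exact_mod_cast le_of_mul_le_mul_right h3 h0
  have hlt : ∀ x, Pop p m S Q x → ((F x).filter (· < rep S x)).card < m := fun x hx =>
    lt_of_lt_of_le (Finset.card_lt_card (Finset.filter_ssubset.2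
      ⟨_, hmem x hx, lt_irrefl _⟩)) (hcard x hx)
  have hmono : ∀ x y, Pop p m S Q x → Q x y → rep S x < rep S y →
      ((F x).filter (· < rep S x)).card < ((F y).filter (· < rep S y)).card := by
    intro x y hx hxy hl
    rw [← hFc x y hxy]
    refine Finset.card_lt_card ⟨fun z hz => ?_, fun hs => ?_⟩
    · rw [Finset.mem_filter] at hz ⊢
      exact ⟨hz.1, hz.2.trans hl⟩
    · exact lt_irrefl _ (Finset.mem_filter.1 (hs (Finset.mem_filter.2 ⟨hmem x hx, hl⟩))).2
  refine ⟨fun x => (((F x).filter (· < rep S x)).card : ZMod m), fun x y hxy => ?_,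
    fun x y hx hy hxy hι => ?_⟩
  · simp only [hFc x y (h hxy), (rep_eq_iff S x y).2 hxy]
  · have h1 := (ZMod.natCast_eq_natCast_iff' _ _ m).1 hι
    rw [Nat.mod_eq_of_lt (hlt x hx), Nat.mod_eq_of_lt (hlt y hy)] at h1
    rw [← rep_eq_iff]
    rcases lt_trichotomy (rep S x) (rep S y) with h2 | h2 | h2
    · exact absurd h1 (hmono x y hx hxy h2).ne
    · exact h2
    · exact absurd h1 (hmono y x hy (Q.symm' hxy) h2).ne'

end Pool.Agent.Lib.NL57
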