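import Pool.Agent.Lib.NL57.Defs

/-!
Duality and the standard bounds for the fractional chromatic number.
-/

set_option autoImplicit false

open Finset

namespace Pool.Agent.Lib.NL57

variable {V : Type} [Fintype V] {X : SimpleGraph V}

open Classical in
lemma exists_cover {ρ : ℝ} (h : ∀ μ : V → ℝ, (∀ v, 0 ≤ μ v) → ∃ I : Finset V,
    X.IsIndepSet (I : Set V) ∧ ρ * ∑ v, μ v ≤ ∑ v ∈ I, μ v) :
    ∃ x : Finset V → ℝ, (∀ I, 0 ≤ x I) ∧ (∀ I, x I ≠ 0 → X.IsIndepSet (I : Set V)) ∧
      (∀ v, ρ ≤ ∑ I with v ∈ I, x I) ∧ ∑ I, x I = 1 := by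
  let T : (Finset V → ℝ) →ₗ[ℝ] (V → ℝ) :=
    { toFun := fun x v => ∑ I with v ∈ I, x I
      map_add' := fun x y => by funext v; simp [Finset.sum_add_distrib]
      map_smul' := fun c x => by funext v; simp [Finset.mul_sum] }
  set K : Set (Finset V → ℝ) := stdSimplex ℝ (Finset V) ∩
    {x | ∀ I : Finset V, ¬ X.IsIndepSet (I : Set V) → x I = 0} with hK
  by_contra hn
  have hc : IsCompact K := (isCompact_stdSimplex ℝ _).inter_right (by
    simp only [Set.ofPred_forall]
    exact isClosed_iInter fun I => isClosed_iInter fun _ =>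
      isClosed_eq (continuous_apply I) continuous_const)
  have hv : Convex ℝ K := (convex_stdSimplex ℝ _).inter fun x hx y hy a b _ _ _ I hI => by
    simp [hx I hI, hy I hI]
  obtain ⟨f, u, w, h1, h2, h3⟩ := geometric_hahn_banach_compact_closed (hv.linear_image T)
    (hc.image T.continuous_of_finiteDimensional) (convex_Ici (fun _ : V => ρ)) isClosed_Ici (by
      rw [Set.disjoint_left]
      rintro _ ⟨x, hx, rfl⟩ hy
      exact hn ⟨x, hx.1.1, fun I hI => by_contra fun h' => hI (hx.2 I h'), hy, hx.1.2⟩)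
  have hf : ∀ y : V → ℝ, f y = ∑ v, y v * f (Pi.single v 1) := fun y => by
    conv_lhs => rw [pi_eq_sum_univ' y]
    simp only [map_sum, map_smul, smul_eq_mul]
  have h0 : ∀ v, 0 ≤ f (Pi.single v 1) := fun v => by
    by_contra hneg
    have hneg' : 0 < -f (Pi.single v 1) := by linarith [not_le.1 hneg]
    have h4 := h3 (fun _ => ρ) Set.self_mem_Ici
    have h5 := h3 ((fun _ => ρ) + ((f (fun _ => ρ) - w) / (-f (Pi.single v 1))) • Pi.single v 1)
      (Set.mem_Ici.2 (le_add_of_nonneg_right (smul_nonneg (div_nonneg (sub_pos.2 h4).le hneg'.le)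
        (Pi.single_nonneg.2 zero_le_one))))
    rw [map_add, map_smul, smul_eq_mul, div_neg, neg_mul, div_mul_cancel₀ _ (by linarith)] at h5
    linarith
  obtain ⟨I, hI, h4⟩ := h _ h0
  have h5 := h1 _ ⟨Pi.single I 1, ⟨single_mem_stdSimplex ℝ I, fun J hJ =>
    Pi.single_eq_of_ne (fun e : J = I => hJ (e ▸ hI)) _⟩, rfl⟩
  have h6 := h3 (fun _ => ρ) Set.self_mem_Ici
  rw [hf, ← Finset.mul_sum] at h6
  have e : ∀ v, T (Pi.single I 1) v = if v ∈ I then 1 else 0 := fun v => by
    simp [T, Pi.single_apply]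
  rw [hf] at h5
  simp only [e, ite_mul, one_mul, zero_mul, Finset.sum_ite_mem, Finset.univ_inter] at h5
  linarith

lemma bdd_frac (P : (Finset V → ℝ) → Prop) :
    BddBelow {s | ∃ x : Finset V → ℝ, (∀ I, 0 ≤ x I) ∧ (∀ I, x I ≠ 0 → X.IsIndepSet (I : Set V)) ∧
      P x ∧ s = ∑ I, x I} :=
  ⟨0, fun _ ⟨_, h, _, _, e⟩ => e ▸ Finset.sum_nonneg fun I _ => h I⟩

theorem fracChrom_le {ρ : ℝ} (hρ : 0 < ρ) (h : ∀ μ : V → ℝ, (∀ v, 0 ≤ μ v) → ∃ I : Finset V,
    X.IsIndepSet (I : Set V) ∧ ρ * ∑ v, μ v ≤ ∑ v ∈ I, μ v) : fracChrom X ≤ 1 / ρ := by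
  obtain ⟨x, h1, h2, h3, h4⟩ := exists_cover h
  refine csInf_le (bdd_frac _) ⟨fun I => x I / ρ, fun I => div_nonneg (h1 I) hρ.le,
    fun I hI => h2 I fun e => hI (by simp [e]), fun v => ?_, by rw [← Finset.sum_div, h4]⟩
  rw [← Finset.sum_div, le_div_iff₀ hρ, one_mul]
  exact h3 v

theorem le_fracChrom {b : ℝ} (hV : Nonempty V)
    (h : ∀ I : Finset V, X.IsIndepSet (I : Set V) → b * I.card ≤ Fintype.card V) :
    b ≤ fracChrom X := by
  classical
  have hn : (0 : ℝ) < Fintype.card V := by exact_mod_cast Fintype.card_pos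
  refine le_csInf ⟨_, fun I => if I.card = 1 then 1 else 0, fun I => by positivity, fun I hI => ?_,
    fun v => ?_, rfl⟩ ?_
  · obtain ⟨a, rfl⟩ := Finset.card_eq_one.1 (by_contra fun h' => hI (if_neg h'))
    simp
  · refine le_trans (by simp) (Finset.single_le_sum (a := {v}) (fun I _ => by positivity) (by simp))
  · rintro _ ⟨x, h1, h2, h3, rfl⟩
    by_cases hb : b ≤ 0
    · exact hb.trans (Finset.sum_nonneg fun I _ => h1 I)
    refine le_of_mul_le_mul_right ?_ hn
    have h4 : (Fintype.card V : ℝ) ≤ ∑ I, x I * I.card := by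
      refine le_trans (by simp) ((Finset.sum_le_sum fun v (_ : v ∈ Finset.univ) => h3 v).trans
        (le_of_eq ?_))
      simp only [Finset.sum_filter]
      rw [Finset.sum_comm]
      exact Finset.sum_congr rfl fun I _ => by simp [mul_comm]
    refine (mul_le_mul_of_nonneg_left h4 (not_le.1 hb).le).trans ?_
    rw [Finset.mul_sum, Finset.sum_mul]
    refine Finset.sum_le_sum fun I _ => ?_
    by_cases h0 : x I = 0
    · simp [h0]
    · rw [mul_left_comm]
      exact mul_le_mul_of_nonneg_left (h I (h2 I h0)) (h1 I)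

theorem le_colours {b : ℝ} (hV : Nonempty V)
    (h : ∀ I : Finset V, X.IsIndepSet (I : Set V) → b * I.card ≤ Fintype.card V) {m : ℕ}
    (hm : X.Colorable m) : b ≤ m := by
  classical
  obtain ⟨C⟩ := hm
  have hn : (0 : ℝ) < Fintype.card V := by exact_mod_cast Fintype.card_pos
  refine le_of_mul_le_mul_right ?_ hn
  conv_lhs => rw [← Finset.card_univ, Finset.card_eq_sum_card_fiberwise (f := C)
    (t := Finset.univ) fun _ _ => Finset.mem_univ _, Nat.cast_sum, Finset.mul_sum]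
  refine (Finset.sum_le_sum fun c _ => h _ fun x hx y hy _ hxy => ?_).trans (by simp)
  exact C.valid hxy ((Finset.mem_filter.1 hx).2.trans (Finset.mem_filter.1 hy).2.symm)

end Pool.Agent.Lib.NL57
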