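import Pool.Agent.Lib.NL57.Hash

/-!
Two switching estimates for random permutations.
-/

set_option autoImplicit false

open Finset

namespace Pool.Agent.Lib.NL57

lemma sum_ind {Ω : Type} [Fintype Ω] (P : Ω → Prop) [DecidablePred P] :
    ∑ ω, ind (P ω) = (Finset.univ.filter P).card := by
  rw [Finset.card_filter, Nat.cast_sum]
  refine Finset.sum_congr rfl fun u _ => ?_
  by_cases h : P u
  · rw [ind_pos h, if_pos h, Nat.cast_one]
  · rw [ind_neg h, if_neg h, Nat.cast_zero]

variable {α : Type} [Fintype α] [DecidableEq α]

/-- The permutations that map no point of `A` into `B`. -/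
def avoid (A B : Finset α) : Finset (Equiv.Perm α) := Finset.univ.filter fun π => ∀ x ∈ A, π x ∉ B

lemma avoid_step (A B : Finset α) {x : α} (hx : x ∉ A) :
    (avoid A B).card * B.card ≤ ((avoid A B).filter fun π => π x ∈ B).card * Fintype.card α := by
  rw [← Finset.card_product, ← Finset.card_univ, ← Finset.card_product]
  refine Finset.card_le_card_of_injOn
    (fun z => (z.1 * Equiv.swap x (z.1.symm z.2), z.1.symm z.2)) (fun z hz => ?_)
    fun z _ z' _ e => ?_
  · obtain ⟨h1, h2⟩ := Finset.mem_product.1 hz
    have h3 := (Finset.mem_filter.1 h1).2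
    refine Finset.mem_product.2 ⟨Finset.mem_filter.2 ⟨Finset.mem_filter.2 ⟨Finset.mem_univ _,
      fun y hy => ?_⟩, by simpa using h2⟩, Finset.mem_univ _⟩
    have n1 : y ≠ x := fun e => hx (e ▸ hy)
    have n2 : y ≠ z.1.symm z.2 := fun e => h3 y hy (by rw [e]; simpa using h2)
    dsimp only
    rw [Equiv.Perm.mul_apply, Equiv.swap_apply_of_ne_of_ne n1 n2]
    exact h3 y hy
  · obtain ⟨e1, e2⟩ := Prod.mk.inj e
    rw [e2] at e1
    have e3 := mul_right_cancel e1
    rw [e3] at e2
    exact Prod.ext e3 (z'.1.symm.injective e2)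

lemma card_avoid [Nonempty α] (A B : Finset α) : ((avoid A B).card : ℝ) ≤
    Fintype.card (Equiv.Perm α) * Real.exp (-(A.card * B.card / Fintype.card α)) := by
  have hq : (0 : ℝ) < Fintype.card α := by exact_mod_cast Fintype.card_pos
  induction A using Finset.induction_on with
  | empty => simp [avoid]
  | insert x A hx ih =>
    have h1 : ((avoid A B).card : ℝ) * B.card ≤
        ((avoid A B).filter fun π => π x ∈ B).card * Fintype.card α := by
      exact_mod_cast avoid_step A B hx
    have h2 : avoid (insert x A) B = (avoid A B).filter fun π => ¬ π x ∈ B := by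
      ext π
      simp [avoid, and_comm]
    have h3 : (((avoid A B).filter fun π => π x ∈ B).card : ℝ) +
        ((avoid A B).filter fun π => ¬ π x ∈ B).card = (avoid A B).card := by
      exact_mod_cast Finset.card_filter_add_card_filter_not _
    have h4 : ((avoid (insert x A) B).card : ℝ) ≤
        (avoid A B).card * (-(B.card / Fintype.card α) + 1) := by
      rw [h2]
      rw [← div_le_iff₀ hq] at h1
      have : ((avoid A B).card : ℝ) * B.card / Fintype.card α =
        (avoid A B).card * (B.card / Fintype.card α) := by ring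
      linarith
    refine h4.trans ((mul_le_mul_of_nonneg_left (Real.add_one_le_exp _) (Nat.cast_nonneg _)).trans
      ((mul_le_mul_of_nonneg_right ih (Real.exp_pos _).le).trans (le_of_eq ?_)))
    rw [mul_assoc, ← Real.exp_add, Finset.card_insert_of_notMem hx]
    push_cast
    congr 2
    ring

variable {J : Type} [Fintype J] [DecidableEq J]

/-- The families of permutations with prescribed values. -/
def forced (E : Finset (J × α × α)) : Finset (J → Equiv.Perm α) :=
  Finset.univ.filter fun ω => ∀ e ∈ E, ω e.1 e.2.1 = e.2.2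

lemma forced_step (E : Finset (J × α × α)) {e : J × α × α} (he : e ∉ E) :
    (forced (insert e E)).card * (Fintype.card α - E.card) ≤ (forced E).card := by
  have h0 : Fintype.card α - E.card ≤ (E.image fun f => f.2.1)ᶜ.card := by
    rw [Finset.card_compl]
    exact Nat.sub_le_sub_left Finset.card_image_le _
  refine (Nat.mul_le_mul_left _ h0).trans ?_
  rw [← Finset.card_product]
  refine Finset.card_le_card_of_injOn
    (fun z => Function.update z.1 e.1 (z.1 e.1 * Equiv.swap e.2.1 z.2)) (fun z hz => ?_)
    fun z hz z' hz' h => ?_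
  · obtain ⟨h1, h2⟩ := Finset.mem_product.1 hz
    have h3 := (Finset.mem_filter.1 h1).2
    refine Finset.mem_filter.2 ⟨Finset.mem_univ _, fun f hf => ?_⟩
    have h4 := h3 f (Finset.mem_insert_of_mem hf)
    dsimp only
    by_cases h : f.1 = e.1
    · rw [h, Function.update_self, Equiv.Perm.mul_apply, Equiv.swap_apply_of_ne_of_ne, ← h, h4]
      · intro h5
        have h6 := h3 e (Finset.mem_insert_self _ _)
        rw [h, h5, h6] at h4
        exact he ((Prod.ext h (Prod.ext h5 h4.symm) : f = e) ▸ hf)
      · exact fun h5 => Finset.mem_compl.1 h2 (Finset.mem_image.2 ⟨f, hf, h5⟩)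
    · rw [Function.update_of_ne h, h4]
  · have h1 := (Finset.mem_filter.1 (Finset.mem_product.1 hz).1).2 e (Finset.mem_insert_self _ _)
    have h2 := (Finset.mem_filter.1 (Finset.mem_product.1 hz').1).2 e (Finset.mem_insert_self _ _)
    have h3 : z.1 e.1 * Equiv.swap e.2.1 z.2 = z'.1 e.1 * Equiv.swap e.2.1 z'.2 := by
      simpa using congrFun h e.1
    have h4 : z.2 = z'.2 := by
      refine (z'.1 e.1 * Equiv.swap e.2.1 z'.2).injective ?_
      conv_lhs => rw [← h3]
      simp [h1, h2]
    refine Prod.ext (funext fun j => ?_) h4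
    by_cases hj : j = e.1
    · rw [h4] at h3
      rw [hj, mul_right_cancel h3]
    · simpa [hj] using congrFun h j

lemma card_forced (g : ℕ) (E : Finset (J × α × α)) (hE : E.card ≤ g) :
    (forced E).card * (Fintype.card α - g) ^ E.card ≤ Fintype.card (J → Equiv.Perm α) := by
  induction E using Finset.induction_on with
  | empty => simp [forced]
  | insert e E he ih =>
    rw [Finset.card_insert_of_notMem he] at hE ⊢
    refine le_trans ?_ (ih (by omega))
    rw [pow_succ', ← mul_assoc]
    exact Nat.mul_le_mul_right _ (le_trans (Nat.mul_le_mul_left _ (by omega)) (forced_step E he))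

end Pool.Agent.Lib.NL57
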