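import Pool.Agent.Lib.NL57.Bridge
import Pool.Agent.Lib.NL57.Perm

/-!
No lonely colour graphs without large independent sets: a random permutation of every line of a grid.
-/

set_option autoImplicit false

open Finset

namespace Pool.Agent.Lib.NL57

open Pool.Agent.Lib.MP_2f2576_co

lemma Ham.not_lonely {V K : Type} {G : SimpleGraph V} {c : Sym2 V → K} {R : K → Setoid V}
    (H : Ham G c R) (x : V) (w : G.Walk x x) (hw : w.IsCycle) (e : Sym2 V) (he : e ∈ w.edges) :
    ∃ f ∈ w.edges, f ≠ e ∧ c f = c e := by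
  by_contra hn
  induction e using Sym2.ind with
  | _ u v =>
  have hs : ∀ f ∈ w.edges, f ∉ {f | c f = c s(u, v) ∧ f ≠ s(u, v)} :=
    fun f hf h => hn ⟨f, hf, h.2, h.1⟩
  obtain ⟨h1, ⟨p⟩⟩ := (SimpleGraph.adj_and_reachable_delete_edges_iff_exists_cycle
    (G := G.deleteEdges {f | c f = c s(u, v) ∧ f ≠ s(u, v)}) (v := u) (w := v)).2
    ⟨x, w.toDeleteEdges _ hs, hw.toDeleteEdges G _ hs, by simpa using he⟩
  refine H.diff u v (SimpleGraph.deleteEdges_adj.1 h1).1 ?_
  have key : ∀ a b (p : ((G.deleteEdges {f | c f = c s(u, v) ∧ f ≠ s(u, v)}).deleteEdges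
      {s(u, v)}).Walk a b), R (c s(u, v)) a b := by
    intro a b p
    induction p with
    | nil => exact (R _).refl' _
    | cons h _ ih =>
      simp only [SimpleGraph.deleteEdges_adj, Set.mem_ofPred_eq, Set.mem_singleton_iff] at h
      exact (R _).trans' (H.same _ _ _ h.1.1 fun e => h.1.2 ⟨e, h.2⟩) ih
  exact key u v p

variable {k q : ℕ}

/-- A permutation for every line of the grid. -/
abbrev Om (k q : ℕ) : Type := Fin k × (Fin k → ZMod q) → Equiv.Perm (ZMod q)

/-- The graph of a family of permutations. -/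
def grid (t : Om k q) : SimpleGraph (Fin k → ZMod q) :=
  SimpleGraph.fromRel fun x y => ∃ i, y = Function.update x i (t (i, Function.update x i 0) (x i))

/-- The coordinates in which the two ends differ. -/
def dir : Sym2 (Fin k → ZMod q) → Set (Fin k) :=
  Sym2.lift ⟨fun x y => {i | x i ≠ y i}, fun _ _ => by simp only [ne_comm]⟩

lemma grid_adj {t : Om k q} {x y : Fin k → ZMod q} (h : (grid t).Adj x y) :
    ∃ i, dir s(x, y) = {i} ∧ (y = Function.update x i (t (i, Function.update x i 0) (x i)) ∨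
      y = Function.update x i ((t (i, Function.update x i 0)).symm (x i))) := by
  obtain ⟨hne, h⟩ := (SimpleGraph.fromRel_adj _ _ _).1 h
  have key : ∀ i a, y = Function.update x i a → dir s(x, y) = {i} := fun i a e => by
    ext j
    simp only [dir, Sym2.lift_mk, Set.mem_ofPred_eq, Set.mem_singleton_iff]
    refine ⟨fun hj => by_contra fun h' => hj (by rw [e, Function.update_of_ne h']), ?_⟩
    rintro rfl h'
    exact hne (by rw [e, ← Function.update_eq_self j x, h', e]; simp)
  rcases h with ⟨i, h⟩ | ⟨i, h⟩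
  · exact ⟨i, key i _ h, Or.inl h⟩
  · have h2 : y = Function.update x i ((t (i, Function.update x i 0)).symm (x i)) := by
      rw [h]
      simp
    exact ⟨i, key i _ h2, Or.inr h2⟩

lemma grid_noLonely (t : Om k q) : NoLonely (grid t) := by
  have H : Ham (grid t) dir fun κ => ⟨fun x y => ∀ i, κ = {i} → x i = y i,
      fun _ _ _ => rfl, fun h i e => (h i e).symm, fun h h' i e => (h i e).trans (h' i e)⟩ := by
    refine ⟨fun u v κ huv hκ i e => ?_, fun u v huv h => ?_⟩
    · obtain ⟨j, hj, -⟩ := grid_adj huv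
      by_contra hne
      have : i ∈ dir s(u, v) := hne
      rw [hj, Set.mem_singleton_iff] at this
      exact hκ (by rw [hj, e, this])
    · obtain ⟨j, hj, -⟩ := grid_adj huv
      have : j ∈ dir s(u, v) := by rw [hj]; rfl
      exact this (h j hj)
  refine ⟨_, dir, fun v κ => ?_, H.not_lonely⟩
  by_cases hκ : ∃ i, κ = {i}
  · obtain ⟨i, rfl⟩ := hκ
    refine le_trans (Set.encard_le_encard (t :=
      {s(v, Function.update v i (t (i, Function.update v i 0) (v i))),
        s(v, Function.update v i ((t (i, Function.update v i 0)).symm (v i)))}) ?_)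
      ((Set.encard_insert_le _ _).trans (by rw [Set.encard_singleton]; rfl))
    rintro e ⟨⟨h1, h2⟩, h3⟩
    obtain ⟨y, rfl⟩ := Sym2.mem_iff_exists.1 h2
    obtain ⟨j, hj, h⟩ := grid_adj (x := v) (y := y) h1
    obtain rfl : j = i := Set.singleton_injective (hj.symm.trans h3)
    rcases h with rfl | rfl
    exacts [Or.inl rfl, Or.inr rfl]
  · have : {e | e ∈ (grid t).incidenceSet v ∧ dir e = κ} = ∅ := by
      refine Set.eq_empty_of_forall_notMem ?_
      rintro e ⟨⟨h1, h2⟩, h3⟩
      obtain ⟨y, rfl⟩ := Sym2.mem_iff_exists.1 h2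
      obtain ⟨j, hj, -⟩ := grid_adj h1
      exact hκ ⟨j, h3.symm.trans hj⟩
    rw [this]
    simp

lemma choose_le (n s : ℕ) (hs : 0 < s) : (n.choose s : ℝ) ≤ (n / s * Real.exp 1) ^ s := by
  have h0 : (0 : ℝ) < s := by exact_mod_cast hs
  refine (Nat.choose_le_pow_div s n).trans ?_
  have h1 := Real.pow_div_factorial_le_exp (s : ℝ) h0.le s
  rw [mul_pow, ← Real.exp_nat_mul, mul_one, div_pow]
  refine le_trans (le_of_eq ?_) (mul_le_mul_of_nonneg_left h1 (by positivity))
  field_simp

variable [NeZero q]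

lemma line_bound (β : ℝ) (I : Finset (Fin k → ZMod q)) (j : Fin k × (Fin k → ZMod q)) :
    ∃ F : Finset (Equiv.Perm (ZMod q)),
      (∀ t : Om k q, (grid t).IsIndepSet (I : Set (Fin k → ZMod q)) → t j ∈ F) ∧
      (F.card : ℝ) ≤ Fintype.card (Equiv.Perm (ZMod q)) * Real.exp (-((2 * β * (I.filter fun x =>
        Function.update x j.1 0 = j.2).card - (β ^ 2 + 1) * ind (j.2 j.1 = 0)) / (4 * q))) := by
  have hq : (0 : ℝ) < q := by exact_mod_cast Nat.pos_of_ne_zero (NeZero.ne q)
  set L := I.filter fun x => Function.update x j.1 0 = j.2 with hL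
  have hup : ∀ x ∈ L, ∀ y ∈ L, Function.update x j.1 (y j.1) = y := fun x hx y hy => by
    have := congrArg (fun z => Function.update z j.1 (y j.1))
      ((Finset.mem_filter.1 hx).2.trans (Finset.mem_filter.1 hy).2.symm)
    simpa using this
  have hc : (L.image fun x => x j.1).card = L.card :=
    Finset.card_image_of_injOn fun x hx y hy e => by
      rw [← hup x hx y hy, ← show x j.1 = y j.1 from e, Function.update_eq_self]
  obtain ⟨A, hA, hAc⟩ := Finset.exists_subset_card_eq (s := L.image fun x => x j.1)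
    (n := L.card / 2) (by omega)
  refine ⟨avoid A ((L.image fun x => x j.1) \ A), fun t ht => Finset.mem_filter.2
    ⟨Finset.mem_univ _, fun a ha hb => ?_⟩, (card_avoid _ _).trans ?_⟩
  · obtain ⟨x, hx, rfl⟩ := Finset.mem_image.1 (hA ha)
    obtain ⟨y, hy, e⟩ := Finset.mem_image.1 (Finset.mem_sdiff.1 hb).1
    have hne : x ≠ y := fun h => (Finset.mem_sdiff.1 hb).2 (by rw [← e, ← h]; exact ha)
    refine ht (Finset.mem_filter.1 hx).1 (Finset.mem_filter.1 hy).1 hne
      ((SimpleGraph.fromRel_adj _ _ _).2 ⟨hne, Or.inl ⟨j.1, ?_⟩⟩)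
    rw [(Finset.mem_filter.1 hx).2, ← e, hup x hx y hy]
  · rw [Finset.card_sdiff_of_subset hA, hc, hAc, ZMod.card]
    refine mul_le_mul_of_nonneg_left (Real.exp_le_exp.2 (neg_le_neg ?_)) (Nat.cast_nonneg _)
    rw [div_le_div_iff₀ (by positivity) hq]
    have h1 : L.card ^ 2 ≤ 4 * (L.card / 2 * (L.card - L.card / 2)) + 1 := by
      obtain ⟨c, h | h⟩ := Nat.even_or_odd' L.card
      · rw [h, show 2 * c / 2 = c by omega, show 2 * c - c = c by omega]
        nlinarith
      · rw [h, show (2 * c + 1) / 2 = c by omega, show 2 * c + 1 - c = c + 1 by omega]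
        nlinarith
    have h2 : (L.card : ℝ) ^ 2 ≤ 4 * ((L.card / 2 : ℕ) * (L.card - L.card / 2 : ℕ)) + 1 := by
      exact_mod_cast h1
    have h3 : 2 * β * L.card - (β ^ 2 + 1) * ind (j.2 j.1 = 0) ≤
        4 * ((L.card / 2 : ℕ) * (L.card - L.card / 2 : ℕ)) := by
      rcases L.eq_empty_or_nonempty with h | ⟨x, hx⟩
      · have := mul_nonneg (show 0 ≤ β ^ 2 + 1 by positivity) (ind_nonneg (j.2 j.1 = 0))
        rw [h]
        simpa using this
      · rw [ind_pos (by rw [← (Finset.mem_filter.1 hx).2]; simp)]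
        nlinarith [sq_nonneg (β - L.card)]
    nlinarith

lemma set_bound (β r : ℝ) (hr : q * r = Fintype.card (Fin k → ZMod q))
    (I : Finset (Fin k → ZMod q)) :
    ∑ t : Om k q, ind ((grid t).IsIndepSet (I : Set (Fin k → ZMod q))) ≤ Fintype.card (Om k q) *
      Real.exp (-(k * (2 * β * I.card - (β ^ 2 + 1) * r) / (4 * q))) := by
  classical
  have hq : (0 : ℝ) < q := by exact_mod_cast Nat.pos_of_ne_zero (NeZero.ne q)
  choose F hF hc using line_bound β I
  rw [sum_ind]
  refine le_trans (Nat.cast_le.2 (Finset.card_le_card (t := Fintype.piFinset F) fun t ht =>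
    Fintype.mem_piFinset.2 (hF · t (Finset.mem_filter.1 ht).2))) ?_
  rw [Fintype.card_piFinset, Nat.cast_prod]
  refine (Finset.prod_le_prod (fun _ _ => Nat.cast_nonneg _) fun j _ => hc j).trans (le_of_eq ?_)
  rw [Finset.prod_mul_distrib, ← Real.exp_sum, Finset.prod_const, Fintype.card_fun,
    Nat.cast_pow, Finset.card_univ, Finset.sum_neg_distrib, ← Finset.sum_div,
    Fintype.sum_prod_type]
  have h : ∀ i : Fin k, ∑ b : Fin k → ZMod q, (2 * β * ((I.filter fun x =>
      Function.update x i 0 = b).card : ℝ) - (β ^ 2 + 1) * ind (b i = 0)) =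
      2 * β * I.card - (β ^ 2 + 1) * r := fun i => by
    have h1 := shift_count (fun b : Fin k → ZMod q => b i) (fun _ => True) i (by simp) (by simp)
    simp only [and_true, ind_pos trivial, Finset.sum_const, Finset.card_univ, ZMod.card,
      nsmul_eq_mul, mul_one, ← hr] at h1
    rw [Finset.sum_sub_distrib, ← Finset.mul_sum, ← Finset.mul_sum, mul_left_cancel₀ hq.ne' h1,
      ← Nat.cast_sum, ← Finset.card_eq_sum_card_fiberwise (by simp)]
  simp only [h, Finset.sum_const, Finset.card_univ, Fintype.card_fin, nsmul_eq_mul]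

lemma ind_exists_le {ι : Type} (s : Finset ι) (P : ι → Prop) :
    ind (∃ i ∈ s, P i) ≤ ∑ i ∈ s, ind (P i) := by
  by_cases h : ∃ i ∈ s, P i
  · obtain ⟨i, hi, h'⟩ := h
    rw [ind_pos ⟨i, hi, h'⟩, ← ind_pos h']
    exact Finset.single_le_sum (f := fun i => ind (P i)) (fun _ _ => ind_nonneg _) hi
  · rw [ind_neg h]
    exact Finset.sum_nonneg fun _ _ => ind_nonneg _

theorem indep_count {α : ℝ} {s : ℕ} (hα : 2 ≤ α * q)
    (hs : α * Fintype.card (Fin k → ZMod q) ≤ s) (hk : 2 - Real.log α ≤ 3 * k * α / 16) :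
    2 * ∑ t : Om k q, ind (∃ I ∈ Finset.powersetCard s Finset.univ,
      (grid t).IsIndepSet ((I : Finset (Fin k → ZMod q)) : Set (Fin k → ZMod q))) <
      Fintype.card (Om k q) := by
  have hq : (0 : ℝ) < q := by exact_mod_cast Nat.pos_of_ne_zero (NeZero.ne q)
  have hN : (0 : ℝ) < Fintype.card (Om k q) := by exact_mod_cast Fintype.card_pos
  have hn : (0 : ℝ) < Fintype.card (Fin k → ZMod q) := by exact_mod_cast Fintype.card_pos
  have hα0 : 0 < α := by nlinarith
  have hs0 : 0 < s := by exact_mod_cast (mul_pos hα0 hn).trans_le hs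
  have hs1 : (1 : ℝ) ≤ s := by exact_mod_cast hs0
  obtain ⟨r, hr⟩ : ∃ r : ℝ, q * r = Fintype.card (Fin k → ZMod q) :=
    ⟨_, mul_div_cancel₀ _ hq.ne'⟩
  have h1 : ∑ t : Om k q, ind (∃ I ∈ Finset.powersetCard s Finset.univ,
      (grid t).IsIndepSet ((I : Finset (Fin k → ZMod q)) : Set (Fin k → ZMod q))) ≤
      (Fintype.card (Fin k → ZMod q)).choose s * (Fintype.card (Om k q) *
        Real.exp (-(k * (2 * (α * q) * s - ((α * q) ^ 2 + 1) * r) / (4 * q)))) := by
    refine (Finset.sum_le_sum fun t _ => ind_exists_le _ _).trans ?_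
    rw [Finset.sum_comm]
    refine (Finset.sum_le_sum fun I hI => (set_bound (α * q) r hr I).trans
      (le_of_eq (by rw [(Finset.mem_powersetCard.1 hI).2]))).trans (le_of_eq ?_)
    rw [Finset.sum_const, Finset.card_powersetCard, Finset.card_univ, nsmul_eq_mul]
  have h2 : ((Fintype.card (Fin k → ZMod q)).choose s : ℝ) ≤ Real.exp (s * (1 - Real.log α)) := by
    refine (choose_le _ _ hs0).trans ?_
    rw [Real.exp_nat_mul, Real.exp_sub, Real.exp_log hα0]
    refine pow_le_pow_left₀ (by positivity) ?_ _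
    rw [div_mul_eq_mul_div, div_le_div_iff₀ (by positivity) hα0]
    nlinarith [Real.exp_pos 1]
  have h3 : 3 * k * α / 16 * s ≤ k * (2 * (α * q) * s - ((α * q) ^ 2 + 1) * r) / (4 * q) := by
    rw [← hr, ← mul_assoc] at hs
    have hr0 : 0 < r := by nlinarith
    rw [le_div_iff₀ (by positivity)]
    have e : 3 * k * α / 16 * s * (4 * q) = k * (3 / 4 * (α * q) * s) := by ring
    rw [e]
    generalize α * q = β at hα hs ⊢
    refine mul_le_mul_of_nonneg_left ?_ (Nat.cast_nonneg k)
    have h4 : β * (β * r) ≤ β * s := mul_le_mul_of_nonneg_left hs (by linarith)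
    have h5 : 4 * r ≤ β * (β * r) := by nlinarith [mul_le_mul hα hα two_pos.le (by linarith)]
    nlinarith
  have h4 : Real.exp (s * (1 - Real.log α)) *
      Real.exp (-(k * (2 * (α * q) * s - ((α * q) ^ 2 + 1) * r) / (4 * q))) ≤ Real.exp (-1) := by
    rw [← Real.exp_add]
    refine Real.exp_le_exp.2 ?_
    nlinarith
  have h5 := mul_le_mul_of_nonneg_right h2 (show 0 ≤ Fintype.card (Om k q) *
    Real.exp (-(k * (2 * (α * q) * s - ((α * q) ^ 2 + 1) * r) / (4 * q))) by positivity)
  have h6 := mul_le_mul_of_nonneg_left h4 hN.le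
  nlinarith [Real.exp_neg_one_lt_d9]

end Pool.Agent.Lib.NL57
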