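import Pool.Agent.Lib.NL57.EntT

/-!
A random hash that separates the ends of every edge between popular classes.
-/

set_option autoImplicit false

open Finset

namespace Pool.Agent.Lib.NL57

open Pool.Agent.Lib.MP_3b2820_co

open Classical in
/-- The indicator of a proposition. -/
noncomputable def ind (P : Prop) : ℝ := if P then 1 else 0

lemma ind_pos {P : Prop} (h : P) : ind P = 1 := if_pos h

lemma ind_neg {P : Prop} (h : ¬ P) : ind P = 0 := if_neg h

lemma ind_nonneg (P : Prop) : 0 ≤ ind P := by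
  by_cases h : P
  · rw [ind_pos h]; exact zero_le_one
  · rw [ind_neg h]

lemma ind_and (P Q : Prop) : ind (P ∧ Q) = ind P * ind Q := by
  by_cases h : P <;> by_cases h' : Q <;> simp [ind, h, h']

lemma shift_count {J A : Type} [Fintype J] [DecidableEq J] [Fintype A] [AddCommGroup A]
    (f : (J → A) → A) (P : (J → A) → Prop) (j : J)
    (hf : ∀ ω t, f (ω + Pi.single j t) = f ω + t) (hP : ∀ ω t, P (ω + Pi.single j t) ↔ P ω) :
    (Fintype.card A : ℝ) * ∑ ω, ind (f ω = 0 ∧ P ω) =
      ∑ ω, ind (P ω) := by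
  have h1 : ∀ t : A, ∑ ω, ind (f ω = 0 ∧ P ω) =
      ∑ ω, ind (f ω = t ∧ P ω) := fun t => by
    refine Fintype.sum_equiv (Equiv.addRight (Pi.single j t)) _ _ fun ω => ?_
    simp only [Equiv.coe_addRight, hf, hP, add_eq_right]
  rw [← nsmul_eq_mul, ← Finset.card_univ, ← Finset.sum_const, Finset.sum_congr rfl fun t _ => h1 t,
    Finset.sum_comm]
  refine Finset.sum_congr rfl fun ω _ => ?_
  simp only [ind_and, ← Finset.sum_mul]
  rw [Finset.sum_eq_single (f ω) (fun t _ ht => ind_neg ht.symm) (by simp), ind_pos rfl, one_mul]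

/-- The structure of a subgraph of a Hamming graph. -/
structure Ham {V K : Type} (G : SimpleGraph V) (c : Sym2 V → K) (R : K → Setoid V) : Prop where
  same : ∀ u v k, G.Adj u v → c s(u, v) ≠ k → R k u v
  diff : ∀ u v, G.Adj u v → ¬ R (c s(u, v)) u v

variable {V K : Type} [Fintype V] [LinearOrder V] [Fintype K] [DecidableEq K]

open Classical in
lemma side {G : SimpleGraph V} {c : Sym2 V → K} {R : K → Setoid V} (H : Ham G c R) {p : V → ℝ}
    (hp : IsProb p) (m : ℕ) [NeZero m] (B : Finset K) :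
    ∃ U : (Option K × V → ZMod m) → V → Prop,
      (∀ x, (m : ℝ) * ∑ ω, ind (U ω x) =
        Fintype.card (Option K × V → ZMod m)) ∧
      (∀ u v, G.Adj u v → (m : ℝ) ^ 2 * ∑ ω, ind (U ω u ∧ U ω v) ≤
        Fintype.card (Option K × V → ZMod m)) ∧
      ∀ u v, G.Adj u v → c s(u, v) ∉ B → Pop p m (RT R (insert (c s(u, v)) B)) (RT R B) u →
        Pop p m (RT R (insert (c s(u, v)) B)) (RT R B) v → ∀ ω, ¬ (U ω u ∧ U ω v) := by
  have hle : ∀ k, RT R (insert k B) ≤ RT R B := fun k => RT_anti R (Finset.subset_insert k B)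
  choose ι hι1 hι2 using fun k => exists_index hp m (hle k)
  set τ : (Option K × V → ZMod m) → V → K → ZMod m := fun ω x k =>
    if Pop p m (RT R (insert k B)) (RT R B) x then ι k x
    else ω (some k, rep (RT R (insert k B)) x) with hτ
  set ψ : (Option K × V → ZMod m) → V → ZMod m := fun ω x =>
    ω (none, rep (RT R B) x) + ∑ k ∈ Bᶜ, τ ω x k with hψ
  have s0 : ∀ ω t x y, ψ (ω + Pi.single (none, rep (RT R B) y) t) x =
      ψ ω x + if RT R B x y then t else 0 := by
    intro ω t x y
    have : ∀ k, τ (ω + Pi.single (none, rep (RT R B) y) t) x k = τ ω x k := fun k => by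
      simp [hτ]
    simp only [hψ, this, Pi.add_apply, Pi.single_apply, Prod.mk.injEq, true_and, rep_eq_iff]
    ring
  have s1 : ∀ ω t x y k, k ∉ B → ψ (ω + Pi.single (some k, rep (RT R (insert k B)) y) t) x =
      ψ ω x + if ¬ Pop p m (RT R (insert k B)) (RT R B) x ∧ RT R (insert k B) x y then t
        else 0 := by
    intro ω t x y k hk
    have h1 : ∀ k', τ (ω + Pi.single (some k, rep (RT R (insert k B)) y) t) x k' = τ ω x k' +
        if k' = k then (if ¬ Pop p m (RT R (insert k B)) (RT R B) x ∧ RT R (insert k B) x y then t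
        else 0) else 0 := fun k' => by
      by_cases h : k' = k
      · subst h
        by_cases h' : Pop p m (RT R (insert k' B)) (RT R B) x
        · simp [hτ, h']
        · simp [hτ, h', Pi.single_apply, rep_eq_iff]
      · simp [hτ, h]
    simp only [hψ, h1, Finset.sum_add_distrib, Finset.sum_ite_eq', Finset.mem_compl, hk,
      not_false_eq_true, if_true, Pi.add_apply, Pi.single_apply, Prod.mk.injEq, reduceCtorEq,
      false_and, if_false]
    ring
  have one : ∀ x, (m : ℝ) * ∑ ω, ind (ψ ω x = 0) =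
      Fintype.card (Option K × V → ZMod m) := fun x => by
    have := shift_count (fun ω => ψ ω x) (fun _ => True) (none, rep (RT R B) x)
      (fun ω t => by rw [s0, if_pos ((RT R B).refl' x)]) fun _ _ => Iff.rfl
    simpa [ZMod.card, ind_pos trivial] using this
  have good : ∀ u v, G.Adj u v → c s(u, v) ∉ B →
      Pop p m (RT R (insert (c s(u, v)) B)) (RT R B) u →
      Pop p m (RT R (insert (c s(u, v)) B)) (RT R B) v → ∀ ω, ¬ (ψ ω u = 0 ∧ ψ ω v = 0) := by
    intro u v huv hk hu hv ω h
    have hB : RT R B u v := fun k hk' => H.same u v k huv fun e => hk (e ▸ hk')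
    have h1 : ∑ k ∈ Bᶜ, τ ω u k = ∑ k ∈ Bᶜ, τ ω v k := by
      have := h.1.trans h.2.symm
      simp only [hψ, (rep_eq_iff _ u v).2 hB] at this
      exact add_left_cancel this
    have hk' := Finset.mem_compl.2 hk
    rw [← Finset.add_sum_erase _ _ hk', ← Finset.add_sum_erase _ _ hk'] at h1
    have h2 : ∑ k ∈ Bᶜ.erase (c s(u, v)), τ ω u k = ∑ k ∈ Bᶜ.erase (c s(u, v)), τ ω v k := by
      refine Finset.sum_congr rfl fun k hk2 => ?_
      have h3 : RT R (insert k B) u v := fun k' hk3 => by
        rcases Finset.mem_insert.1 hk3 with rfl | hk3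
        exacts [H.same u v _ huv (Finset.ne_of_mem_erase hk2).symm, hB k' hk3]
      simp only [hτ, pop_congr (hle k) h3, hι1 k u v h3, (rep_eq_iff _ u v).2 h3]
    rw [h2] at h1
    have h3 := add_right_cancel h1
    simp only [hτ, hu, hv, if_true] at h3
    exact H.diff u v huv (hι2 _ u v hu hv hB h3 _ (Finset.mem_insert_self _ _))
  have two : ∀ u v j, (∀ ω t, ψ (ω + Pi.single j t) u = ψ ω u + t) →
      (∀ ω t, ψ (ω + Pi.single j t) v = ψ ω v) →
      (m : ℝ) ^ 2 * ∑ ω, ind (ψ ω u = 0 ∧ ψ ω v = 0) ≤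
        Fintype.card (Option K × V → ZMod m) := by
    intro u v j h1 h2
    have := shift_count (fun ω => ψ ω u) (fun ω => ψ ω v = 0) j h1 fun ω t => by rw [h2]
    rw [ZMod.card] at this
    rw [pow_two, mul_assoc, ← one v]
    exact le_of_eq (congrArg _ this)
  have bad : ∀ u v, G.Adj u v → c s(u, v) ∉ B →
      ¬ Pop p m (RT R (insert (c s(u, v)) B)) (RT R B) u →
      (m : ℝ) ^ 2 * ∑ ω, ind (ψ ω u = 0 ∧ ψ ω v = 0) ≤
        Fintype.card (Option K × V → ZMod m) := by
    intro u v huv hk hu
    refine two u v (some (c s(u, v)), rep (RT R (insert (c s(u, v)) B)) u) (fun ω t => ?_)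
      fun ω t => ?_
    · rw [s1 _ _ _ _ _ hk, if_pos ⟨hu, (RT R _).refl' u⟩]
    · rw [s1 _ _ _ _ _ hk, if_neg, add_zero]
      exact fun h => H.diff u v huv ((R _).symm' (h.2 _ (Finset.mem_insert_self _ _)))
  refine ⟨fun ω x => ψ ω x = 0, one, fun u v huv => ?_, good⟩
  · by_cases hk : c s(u, v) ∈ B
    · refine two u v (none, rep (RT R B) u) (fun ω t => ?_) fun ω t => ?_
      · rw [s0, if_pos ((RT R B).refl' u)]
      · rw [s0, if_neg, add_zero]
        exact fun h => H.diff u v huv ((R _).symm' (h _ hk))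
    · by_cases hu : Pop p m (RT R (insert (c s(u, v)) B)) (RT R B) u
      · by_cases hv : Pop p m (RT R (insert (c s(u, v)) B)) (RT R B) v
        · simp [ind_neg (good u v huv hk hu hv _)]
        · have := bad v u huv.symm (by rwa [Sym2.eq_swap]) (by rwa [Sym2.eq_swap])
          simpa only [and_comm] using this
      · exact bad u v huv hk hu

end Pool.Agent.Lib.NL57
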