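import Pool.Agent.Lib.NL57.Cyc
import Pool.Agent.Lib.NL57.Frac

/-!
No lonely colour graphs of large girth without large independent sets, and the exact order.
-/

set_option autoImplicit false

open Finset Filter

namespace Pool.Agent.Lib.NL57

open Pool.Agent.Lib.MP_2f2576_co

lemma atMostTwo_comap {V W C : Type} {X : SimpleGraph V} {c : Sym2 V → C} (h : AtMostTwo X c)
    (f : W ↪ V) : AtMostTwo (X.comap f) (c ∘ Sym2.map f) := fun v k => by
  refine le_trans (Set.encard_le_encard_of_injOn (f := Sym2.map f) ?_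
    (Sym2.map.injective f.injective).injOn) (h (f v) k)
  rintro e ⟨⟨h1, h2⟩, h3⟩
  obtain ⟨y, rfl⟩ := Sym2.mem_iff_exists.1 h2
  exact ⟨⟨h1, Sym2.mem_mk_left _ _⟩, h3⟩

lemma noLonely_comap {V W : Type} {X : SimpleGraph V} (h : NoLonely X) (f : W ↪ V) :
    NoLonely (X.comap f) := by
  obtain ⟨C, c, h1, h2⟩ := h
  refine ⟨C, c ∘ Sym2.map f, atMostTwo_comap h1 f, fun v w hw e he => ?_⟩
  obtain ⟨e', he', hne, hc⟩ := h2 _ (w.map (SimpleGraph.Hom.comap f X)) (hw.map f.injective)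
    (Sym2.map f e) (by rw [SimpleGraph.Walk.edges_map]; exact List.mem_map_of_mem he)
  rw [SimpleGraph.Walk.edges_map] at he'
  obtain ⟨e'', he'', rfl⟩ := List.mem_map.1 he'
  exact ⟨e'', he'', fun e0 => hne (by rw [e0]; rfl), hc⟩

/-- Deleting the vertices on short cycles. -/
lemma delete_short {V : Type} [Fintype V] (X : SimpleGraph V) (g : ℕ)
    (h : 2 * ∑ x, ind (Short X g x) < Fintype.card V) :
    ∃ (W : Type) (_ : Fintype W) (f : W ↪ V), Fintype.card V < 2 * Fintype.card W ∧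
      (g : ℕ∞) < (X.comap f).egirth := by
  classical
  refine ⟨{x // ¬ Short X g x}, inferInstance, Function.Embedding.subtype _, ?_, ?_⟩
  · rw [sum_ind] at h
    have h1 : 2 * (Finset.univ.filter fun x => Short X g x).card < Fintype.card V := by
      exact_mod_cast h
    rw [Fintype.card_subtype_compl, Fintype.card_subtype]
    omega
  · refine (ENat.add_one_le_iff (ENat.natCast_ne_top g)).1 (SimpleGraph.le_egirth.2 fun a w hw => ?_)
    have h1 : ¬ w.length ≤ g := fun h' => a.2 ⟨w.map (SimpleGraph.Hom.comap _ X),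
      hw.map Subtype.val_injective, (SimpleGraph.Walk.length_map _ w).trans_le h'⟩
    exact_mod_cast not_le.1 h1

lemma exists_good {Ω V : Type} [Fintype Ω] [Fintype V] [Nonempty V] (B : Ω → Prop)
    (S : Ω → V → Prop) (h1 : 2 * ∑ t, ind (B t) < Fintype.card Ω)
    (h2 : ∀ x, 4 * ∑ t, ind (S t x) ≤ Fintype.card Ω) :
    ∃ t, ¬ B t ∧ 2 * ∑ x, ind (S t x) < Fintype.card V := by
  have hn : (0 : ℝ) < Fintype.card V := by exact_mod_cast Fintype.card_pos
  obtain ⟨t, -, ht⟩ := Finset.exists_lt_of_sum_lt (s := Finset.univ)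
    (f := fun t => Fintype.card V * ind (B t) + 2 * ∑ x, ind (S t x))
    (g := fun _ => (Fintype.card V : ℝ)) (by
    rw [Finset.sum_add_distrib, ← Finset.mul_sum, ← Finset.mul_sum, Finset.sum_comm]
    have h3 := Finset.sum_le_sum fun x (_ : x ∈ Finset.univ) => h2 x
    rw [← Finset.mul_sum] at h3
    simp only [Finset.sum_const, Finset.card_univ, nsmul_eq_mul] at h3 ⊢
    nlinarith)
  have h4 : 0 ≤ ∑ x, ind (S t x) := Finset.sum_nonneg fun _ _ => ind_nonneg _
  refine ⟨t, fun h => ?_, ?_⟩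
  · rw [ind_pos h] at ht
    linarith
  · linarith [mul_nonneg hn.le (ind_nonneg (B t))]

theorem lower_core {g k q : ℕ} {α : ℝ} (hk0 : 1 ≤ k) (hq : (8 * g * (4 * g) ^ g + 1) * k ≤ q)
    (hα : 2 ≤ α * q) (hk : 2 - Real.log α ≤ 3 * k * α / 16) :
    ∃ (W : Type) (_ : Fintype W) (X : SimpleGraph W), Nonempty W ∧ Fintype.card W ≤ q ^ k ∧
      NoLonely X ∧ (g : ℕ∞) < X.egirth ∧
      ∀ I : Finset W, X.IsIndepSet (I : Set W) → (I.card : ℝ) ≤ 2 * α * Fintype.card W := by
  classical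
  have h0 : k ≤ q := le_trans (Nat.le_mul_of_pos_left k (Nat.succ_pos _)) hq
  have : NeZero q := ⟨by omega⟩
  have hq0 : (0 : ℝ) < q := by exact_mod_cast Nat.pos_of_ne_zero (NeZero.ne q)
  have hα0 : 0 < α := by nlinarith
  have h1 : 2 * g ≤ q := by
    have h2 : 2 * g ≤ 8 * g * (4 * g) ^ g := by
      rcases Nat.eq_zero_or_pos g with rfl | hg
      · simp
      · nlinarith [Nat.one_le_pow g (4 * g) (by omega)]
    nlinarith
  obtain ⟨t, hb, hs⟩ := exists_good _ (fun t : Om k q => Short (grid t) g)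
    (indep_count hα (Nat.le_ceil _) hk) fun x => by
    have h2 := short_count h1 h0 x
    have h3 : (g * (4 * g) ^ g * (2 * k / q) : ℝ) ≤ 1 / 4 := by
      have h4 : ((8 * g * (4 * g) ^ g + 1) * k : ℝ) ≤ q := by exact_mod_cast hq
      rw [← mul_div_assoc, div_le_div_iff₀ hq0 (by norm_num)]
      nlinarith [Nat.cast_nonneg (α := ℝ) k]
    nlinarith [Nat.cast_nonneg (α := ℝ) (Fintype.card (Om k q))]
  obtain ⟨W, _, f, hW, hg⟩ := delete_short _ g hs
  refine ⟨W, inferInstance, (grid t).comap f, Fintype.card_pos_iff.1 (by omega),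
    (Fintype.card_le_of_embedding f).trans (by simp), noLonely_comap (grid_noLonely t) f, hg,
    fun I hI => ?_⟩
  have h2 : (I.map f).card < ⌈α * Fintype.card (Fin k → ZMod q)⌉₊ := by
    refine not_le.1 fun h => ?_
    obtain ⟨J, hJ, hJc⟩ := Finset.exists_subset_card_eq h
    refine hb ⟨J, Finset.mem_powersetCard.2 ⟨Finset.subset_univ _, hJc⟩, fun x hx y hy hne => ?_⟩
    obtain ⟨x, hx', rfl⟩ := Finset.mem_map.1 (hJ hx)
    obtain ⟨y, hy', rfl⟩ := Finset.mem_map.1 (hJ hy)
    exact hI hx' hy' fun e => hne (congrArg f e)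
  rw [Nat.lt_ceil, Finset.card_map] at h2
  have h3 : (Fintype.card (Fin k → ZMod q) : ℝ) ≤ 2 * Fintype.card W := by exact_mod_cast hW.le
  nlinarith

theorem lower (g : ℕ) {L : ℝ} (hL : 0 < L) (h1 : ((8 * g * (4 * g) ^ g + 1 : ℕ) : ℝ) ≤ Real.log L)
    (h3 : 3 * Real.log L ≤ L) :
    ∃ (W : Type) (_ : Fintype W) (X : SimpleGraph W), Nonempty W ∧
      (Fintype.card W : ℝ) ≤ Real.exp L ∧ NoLonely X ∧ (g : ℕ∞) < X.egirth ∧
      ∀ I : Finset W, X.IsIndepSet (I : Set W) →
        L / (64 * Real.log L ^ 2) * I.card ≤ Fintype.card W := by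
  have c0 : 1 ≤ 8 * g * (4 * g) ^ g + 1 := by omega
  generalize hc : 8 * g * (4 * g) ^ g + 1 = c at h1 c0
  set l := Real.log L with hl
  have c1 : (1 : ℝ) ≤ c := by exact_mod_cast c0
  have l1 : 1 ≤ l := c1.trans h1
  have l0 : 0 < l := by linarith
  have hx : 3 ≤ L / l := by rwa [le_div_iff₀ l0]
  have k1 : (⌊L / l⌋₊ : ℝ) ≤ L / l := Nat.floor_le (by linarith)
  have k2 : L / l ≤ 2 * ⌊L / l⌋₊ := by linarith [Nat.lt_floor_add_one (L / l)]
  have k3 : 3 ≤ ⌊L / l⌋₊ := Nat.le_floor (by exact_mod_cast hx)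
  generalize ⌊L / l⌋₊ = k at k1 k2 k3
  have k4 : (3 : ℝ) ≤ k := by exact_mod_cast k3
  rw [le_div_iff₀ l0] at k1
  rw [div_le_iff₀ l0] at k2
  have q1 : Real.log (c * k) ≤ l := Real.log_le_log (by positivity) (by nlinarith)
  have g1 : 1 ≤ Real.log k := by
    rw [Real.le_log_iff_exp_le (by linarith)]
    linarith [Real.exp_one_lt_d9]
  have g2 : Real.log k ≤ l := Real.log_le_log (by linarith) (by nlinarith)
  obtain ⟨W, _, X, hne, hW, hX, hg, hI⟩ := lower_core (g := g) (k := k) (q := c * k)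
    (α := 16 * Real.log k / k) (by omega) (by rw [hc]) (by
      push_cast
      rw [mul_comm (c : ℝ), ← mul_assoc, div_mul_cancel₀ _ (by linarith)]
      nlinarith) (by
      rw [Real.log_div (by linarith) (by linarith)]
      have e : 3 * (k : ℝ) * (16 * Real.log k / k) / 16 = 3 * Real.log k := by field_simp
      have := Real.log_nonneg (show 1 ≤ 16 * Real.log k by linarith)
      linarith)
  refine ⟨W, inferInstance, X, hne, ?_, hX, hg, fun I h => ?_⟩
  · have h4 : (Fintype.card W : ℝ) ≤ (c * k) ^ k := by exact_mod_cast hW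
    rw [← Real.exp_log (show (0 : ℝ) < c * k by positivity), ← Real.exp_nat_mul] at h4
    exact h4.trans (Real.exp_le_exp.2 (by nlinarith))
  · refine (mul_le_mul_of_nonneg_left (hI I h) (by positivity)).trans ?_
    rw [← mul_assoc]
    refine mul_le_of_le_one_left (Nat.cast_nonneg _) ?_
    rw [← mul_div_assoc, div_mul_div_comm, div_le_one (by positivity)]
    nlinarith [mul_le_mul k2 g2 (by linarith) (by positivity)]

lemma eventually_big (c : ℝ) : ∀ᶠ n : ℕ in atTop, 0 < n ∧ 0 < Real.log n ∧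
    c ≤ Real.log (Real.log n) ∧ 3 * Real.log (Real.log n) ≤ Real.log n := by
  have h1 : Tendsto (fun n : ℕ => Real.log n) atTop atTop :=
    Real.tendsto_log_atTop.comp tendsto_natCast_atTop_atTop
  have h2 := h1.eventually (Real.isLittleO_log_id_atTop.bound (show (0 : ℝ) < 1 / 3 by norm_num))
  filter_upwards [eventually_gt_atTop 0, h1.eventually_gt_atTop 0,
    (Real.tendsto_log_atTop.comp h1).eventually_ge_atTop c, h2] with n a b d e
  refine ⟨a, b, d, ?_⟩
  rw [id, Real.norm_of_nonneg b.le] at e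
  linarith [Real.le_norm_self (Real.log (Real.log n))]

theorem sharp (g : ℕ) : ∃ n₀ : ℕ, ∀ n ≥ n₀,
    (∀ (V : Type) [Fintype V] (X : SimpleGraph V), Fintype.card V ≤ n → NoLonely X →
      fracChrom X ≤ 2048 * (Real.log n / Real.log (Real.log n) ^ 2)) ∧
    ∃ (V : Type) (_ : Fintype V) (X : SimpleGraph V), 0 < Fintype.card V ∧ Fintype.card V ≤ n ∧
      NoLonely X ∧ (g : ℕ∞) < X.egirth ∧
      1 / 64 * (Real.log n / Real.log (Real.log n) ^ 2) * X.indepNum ≤ Fintype.card V ∧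
      1 / 64 * (Real.log n / Real.log (Real.log n) ^ 2) ≤ fracChrom X ∧
      ∀ m : ℕ, X.Colorable m → 1 / 64 * (Real.log n / Real.log (Real.log n) ^ 2) ≤ m := by
  obtain ⟨n₀, h⟩ := eventually_atTop.1 (eventually_big (8 * g * (4 * g) ^ g + 1 : ℕ))
  refine ⟨n₀, fun n hn => ?_⟩
  obtain ⟨h0, h1, h2, h3⟩ := h n hn
  have h4 : 1 ≤ Real.log (Real.log n) := le_trans (by exact_mod_cast Nat.succ_pos _) h2
  refine ⟨fun V _ X hV hX => ?_, ?_⟩
  · refine (fracChrom_le (by positivity) (upper hX h1 h4 ?_)).trans (le_of_eq (by field_simp))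
    rcases Nat.eq_zero_or_pos (Fintype.card V) with e | e
    · simpa [e] using h1.le
    · exact Real.log_le_log (by exact_mod_cast e) (by exact_mod_cast hV)
  · obtain ⟨W, _, X, hne, hW, hX, hg, hI⟩ := lower g h1 h2 h3
    rw [Real.exp_log (by exact_mod_cast h0)] at hW
    have e : 1 / 64 * (Real.log n / Real.log (Real.log n) ^ 2) =
      Real.log n / (64 * Real.log (Real.log n) ^ 2) := by field_simp
    rw [e]
    refine ⟨W, inferInstance, X, Fintype.card_pos, by exact_mod_cast hW, hX, hg, ?_,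
      le_fracChrom hne hI, fun m => le_colours hne hI⟩
    obtain ⟨I, hI'⟩ := X.exists_isNIndepSet_indepNum
    rw [← hI'.card_eq]
    exact hI I hI'.isIndepSet

end Pool.Agent.Lib.NL57
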