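import Mathlib

/-!
A derandomised weight process: heavy independent sets in ordered graphs in which every edge lies
in at most one triangle.
-/

set_option autoImplicit false

open Finset

namespace Pool.Agent.Lib.NL57

variable {V : Type} [LinearOrder V]

open Classical in
/-- Weight of the earlier neighbours of `y` in `S`, and of the earlier adjacent pairs. -/
noncomputable def sw (G : SimpleGraph V) (S : Finset V) (w : V → ℝ) (y : V) : ℝ :=
  ∑ u ∈ S, if u < y ∧ G.Adj u y then
    w u * (1 + ∑ v ∈ S, if v < u ∧ G.Adj v u ∧ G.Adj v y then w v else 0) else 0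

/-- Every edge lies in at most one triangle. -/
def OneTri {V : Type} (G : SimpleGraph V) : Prop :=
  ∀ u y v v', G.Adj u y → G.Adj v u → G.Adj v y → G.Adj v' u → G.Adj v' y → v = v'

open Classical in
lemma sw_insert (G : SimpleGraph V) (a : V) (s : Finset V) (ha : ∀ x ∈ s, a < x) (w : V → ℝ)
    (y : V) (hy : y ∈ s) :
    sw G (insert a s) w y = (if G.Adj a y then w a else 0) + ∑ u ∈ s, if u < y ∧ G.Adj u y then
      w u * (1 + ((if G.Adj a u ∧ G.Adj a y then w a else 0) +
        ∑ v ∈ s, if v < u ∧ G.Adj v u ∧ G.Adj v y then w v else 0)) else 0 := by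
  have hna : a ∉ s := fun h => lt_irrefl _ (ha a h)
  unfold sw
  rw [Finset.sum_insert hna]
  congr 1
  · have h0 : (∑ v ∈ insert a s, if v < a ∧ G.Adj v a ∧ G.Adj v y then w v else 0) = 0 := by
      refine Finset.sum_eq_zero fun v hv => if_neg fun h => ?_
      rcases Finset.mem_insert.1 hv with rfl | hv
      · exact lt_irrefl _ h.1
      · exact lt_asymm h.1 (ha v hv)
    rw [h0]
    simp [ha y hy]
  · refine Finset.sum_congr rfl fun u hu => ?_
    rw [Finset.sum_insert hna]
    simp only [ha u hu, true_and]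

open Classical in
lemma sw_adj (G : SimpleGraph V) (hT : OneTri G) (a : V) (s : Finset V) (ha : ∀ x ∈ s, a < x)
    (w : V → ℝ) (y : V) (hy : y ∈ s) (hay : G.Adj a y) :
    sw G (insert a s) w y =
      w a + sw G s (fun z => if G.Adj a z then w z * (1 + w a) else w z) y := by
  have hna : a ∉ s := fun h => lt_irrefl _ (ha a h)
  rw [sw_insert G a s ha w y hy, if_pos hay]
  unfold sw
  congr 1
  refine Finset.sum_congr rfl fun u hu => ?_
  by_cases h : u < y ∧ G.Adj u y
  · rw [if_pos h, if_pos h]
    by_cases hau : G.Adj a u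
    · have h0 : ∀ f : V → ℝ,
          (∑ v ∈ s, if v < u ∧ G.Adj v u ∧ G.Adj v y then f v else 0) = 0 := by
        intro f
        refine Finset.sum_eq_zero fun v hv => if_neg fun h' => hna ?_
        rw [hT u y a v h.2 hau hay h'.2.1 h'.2.2]
        exact hv
      rw [h0, h0]
      simp [hau, hay]
    · have h0 : (∑ v ∈ s, if v < u ∧ G.Adj v u ∧ G.Adj v y then
          (if G.Adj a v then w v * (1 + w a) else w v) else 0) =
          ∑ v ∈ s, if v < u ∧ G.Adj v u ∧ G.Adj v y then w v else 0 := by
        refine Finset.sum_congr rfl fun v _ => ?_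
        by_cases h' : v < u ∧ G.Adj v u ∧ G.Adj v y
        · rw [if_pos h', if_pos h', if_neg]
          intro hav
          apply hna
          rw [hT v y a u h'.2.2 hav hay h'.2.1.symm h.2]
          exact hu
        · rw [if_neg h', if_neg h']
      rw [h0]
      simp [hau]
  · rw [if_neg h, if_neg h]

open Classical in
lemma sw_nadj (G : SimpleGraph V) (hT : OneTri G) (a : V) (s : Finset V) (ha : ∀ x ∈ s, a < x)
    (w : V → ℝ) (y : V) (hy : y ∈ s) (hay : ¬ G.Adj a y) :
    (1 + w a) * sw G (insert a s) w y =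
      w a * sw G s (fun z => if G.Adj a z then 0 else w z) y +
        sw G s (fun z => if G.Adj a z then w z * (1 + w a) else w z) y := by
  have hna : a ∉ s := fun h => lt_irrefl _ (ha a h)
  rw [sw_insert G a s ha w y hy, if_neg hay, zero_add]
  unfold sw
  rw [Finset.mul_sum, Finset.mul_sum, ← Finset.sum_add_distrib]
  refine Finset.sum_congr rfl fun u hu => ?_
  by_cases h : u < y ∧ G.Adj u y
  · rw [if_pos h, if_pos h, if_pos h]
    by_cases hau : G.Adj a u
    · have h0 : (∑ v ∈ s, if v < u ∧ G.Adj v u ∧ G.Adj v y then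
          (if G.Adj a v then w v * (1 + w a) else w v) else 0) =
          ∑ v ∈ s, if v < u ∧ G.Adj v u ∧ G.Adj v y then w v else 0 := by
        refine Finset.sum_congr rfl fun v _ => ?_
        by_cases h' : v < u ∧ G.Adj v u ∧ G.Adj v y
        · rw [if_pos h', if_pos h', if_neg]
          intro hav
          apply hna
          rw [hT v u a y h'.2.1 hav hau h'.2.2.symm h.2.symm]
          exact hy
        · rw [if_neg h', if_neg h']
      rw [h0]
      simp only [hau, hay, if_true, and_false, if_false]
      ring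
    · have h0 : (1 + w a) * (∑ v ∈ s, if v < u ∧ G.Adj v u ∧ G.Adj v y then w v else 0) =
          w a * (∑ v ∈ s, if v < u ∧ G.Adj v u ∧ G.Adj v y then
            (if G.Adj a v then 0 else w v) else 0) +
          ∑ v ∈ s, if v < u ∧ G.Adj v u ∧ G.Adj v y then
            (if G.Adj a v then w v * (1 + w a) else w v) else 0 := by
        rw [Finset.mul_sum, Finset.mul_sum, ← Finset.sum_add_distrib]
        refine Finset.sum_congr rfl fun v _ => ?_
        split_ifs <;> ring
      simp only [hau, if_false, false_and, zero_add]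
      linear_combination w u * h0
  · rw [if_neg h, if_neg h, if_neg h]
    ring

/-- The potential of one vertex. -/
noncomputable def pot (l x σ : ℝ) : ℝ := x * (-Real.log x - σ) / (2 * l)

lemma pot_self {a x : ℝ} (ha0 : 0 < a) (ha1 : a < 1) (hx : x = 0 ∨ a ≤ x) :
    (1 + x) * pot (-Real.log a) x 0 ≤ x := by
  have hl : 0 < -Real.log a := neg_pos.2 (Real.log_neg ha0 ha1)
  unfold pot
  rcases hx with rfl | hx
  · simp
  · have hx0 : 0 < x := ha0.trans_le hx
    rw [← mul_div_assoc, div_le_iff₀ (by positivity)]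
    have h1 : Real.log a ≤ Real.log x := Real.log_le_log ha0 hx
    by_cases h : x ≤ 1
    · have h2 : Real.log x ≤ 0 := Real.log_nonpos hx0.le h
      have h3 : (1 + x) * (-Real.log x) ≤ 2 * -Real.log a := by nlinarith
      nlinarith
    · have h2 : 0 ≤ Real.log x := Real.log_nonneg (by linarith)
      have h3 : 0 ≤ (1 + x) * (x * Real.log x) := by positivity
      nlinarith [mul_pos hx0 hl]

lemma pot_adj {l x σ ω : ℝ} (hl : 0 < l) (hx : 0 ≤ x) (hω : 0 ≤ ω) :
    (1 + ω) * pot l x (ω + σ) ≤ pot l (x * (1 + ω)) σ := by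
  unfold pot
  rcases hx.eq_or_lt with rfl | hx
  · simp
  · rw [← mul_div_assoc]
    refine div_le_div_of_nonneg_right ?_ (by positivity)
    rw [Real.log_mul hx.ne' (by positivity)]
    have h1 : Real.log (1 + ω) ≤ ω := by
      have := Real.log_le_sub_one_of_pos (show 0 < 1 + ω by positivity)
      linarith
    have h2 : 0 < x * (1 + ω) := by positivity
    nlinarith

theorem exists_indep (G : SimpleGraph V) (hT : OneTri G) (μ : V → ℝ) (hμ : ∀ v, 0 ≤ μ v)
    {a : ℝ} (ha0 : 0 < a) (ha1 : a < 1) (S : Finset V) :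
    ∀ w : V → ℝ, (∀ v, w v = 0 ∨ a ≤ w v) → ∃ I : Finset V, I ⊆ S ∧ (∀ v ∈ I, w v ≠ 0) ∧
      G.IsIndepSet (I : Set V) ∧
      ∑ y ∈ S, μ y * pot (-Real.log a) (w y) (sw G S w y) ≤ ∑ y ∈ I, μ y := by
  classical
  have hl : 0 < -Real.log a := neg_pos.2 (Real.log_neg ha0 ha1)
  induction S using Finset.induction_on_min with
  | empty => intro w _; exact ⟨∅, by simp, by simp, by simp, by simp⟩
  | insert b s hb ih =>
    intro w hw
    have hnb : b ∉ s := fun h => lt_irrefl _ (hb b h)
    have hw0 : ∀ v, 0 ≤ w v := fun v => by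
      rcases hw v with h | h
      exacts [h.ge, ha0.le.trans h]
    obtain ⟨I1, h1s, h1w, h1i, h1⟩ := ih (fun z => if G.Adj b z then 0 else w z) (fun v => by
      by_cases h : G.Adj b v
      · simp [h]
      · simpa [h] using hw v)
    obtain ⟨I2, h2s, h2w, h2i, h2⟩ := ih (fun z => if G.Adj b z then w z * (1 + w b) else w z)
      (fun v => by
        by_cases h : G.Adj b v
        · simp only [h, if_true]
          rcases hw v with h' | h'
          · left; simp [h']
          · right; nlinarith [hw0 v, hw0 b]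
        · simpa [h] using hw v)
    set Φ := ∑ y ∈ insert b s, μ y * pot (-Real.log a) (w y) (sw G (insert b s) w y) with hΦ
    have key : (1 + w b) * Φ ≤ w b * (μ b + ∑ y ∈ I1, μ y) + ∑ y ∈ I2, μ y := by
      have hb0 : sw G (insert b s) w b = 0 := by
        unfold sw
        refine Finset.sum_eq_zero fun v hv => if_neg fun h => ?_
        rcases Finset.mem_insert.1 hv with rfl | hv
        · exact lt_irrefl _ h.1
        · exact lt_asymm h.1 (hb v hv)
      rw [hΦ, Finset.sum_insert hnb, hb0, mul_add]
      have e1 : (1 + w b) * (μ b * pot (-Real.log a) (w b) 0) ≤ w b * μ b := by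
        have := mul_le_mul_of_nonneg_left (pot_self ha0 ha1 (hw b)) (hμ b)
        linarith
      have e2 := mul_le_mul_of_nonneg_left h1 (hw0 b)
      refine le_trans (add_le_add e1 (le_trans ?_ (add_le_add e2 h2))) (le_of_eq (by ring))
      rw [Finset.mul_sum, Finset.mul_sum, ← Finset.sum_add_distrib]
      refine Finset.sum_le_sum fun y hy => ?_
      by_cases hby : G.Adj b y
      · rw [sw_adj G hT b s hb w y hy hby]
        simp only [hby, if_true]
        have := mul_le_mul_of_nonneg_left (pot_adj (σ := sw G s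
          (fun z => if G.Adj b z then w z * (1 + w b) else w z) y) hl (hw0 y) (hw0 b)) (hμ y)
        have e0 : ∀ σ, pot (-Real.log a) 0 σ = 0 := fun σ => by simp [pot]
        rw [e0]
        linarith
      · have := sw_nadj G hT b s hb w y hy hby
        simp only [hby, if_false]
        unfold pot
        refine le_of_eq ?_
        linear_combination (-(μ y * w y / (2 * -Real.log a))) * this
    by_cases h : w b ≠ 0 ∧ Φ ≤ μ b + ∑ y ∈ I1, μ y
    · have hb1 : b ∉ I1 := fun h' => hnb (h1s h')
      have hI : ∀ v ∈ I1, ¬ G.Adj b v ∧ w v ≠ 0 := fun v hv => by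
        have := h1w v hv
        by_cases h' : G.Adj b v
        · simp [h'] at this
        · exact ⟨h', by simpa [h'] using this⟩
      refine ⟨insert b I1, Finset.insert_subset_insert _ h1s, fun v hv => ?_, ?_, ?_⟩
      · rcases Finset.mem_insert.1 hv with rfl | hv
        exacts [h.1, (hI v hv).2]
      · rw [Finset.coe_insert]
        refine Set.Pairwise.insert h1i fun v hv _ => ⟨(hI v hv).1, fun h' => (hI v hv).1 h'.symm⟩
      · rw [Finset.sum_insert hb1]
        exact h.2
    · refine ⟨I2, h2s.trans (Finset.subset_insert _ _), fun v hv h0 => h2w v hv ?_, h2i, ?_⟩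
      · simp [h0]
      · by_cases h0 : w b = 0
        · rw [h0] at key
          linarith
        · have h3 : μ b + ∑ y ∈ I1, μ y ≤ Φ := le_of_lt (not_le.1 fun h' => h ⟨h0, h'⟩)
          nlinarith [hw0 b]

open Classical in
/-- Output form: constant starting weight `a` on `U`. -/
theorem exists_indep' (G : SimpleGraph V) (hT : OneTri G) (μ : V → ℝ) (hμ : ∀ v, 0 ≤ μ v)
    {a : ℝ} (ha0 : 0 < a) (ha1 : a < 1) (U : Finset V) :
    ∃ I : Finset V, G.IsIndepSet (I : Set V) ∧
      a / 2 * ∑ y ∈ U, μ y - a ^ 2 / (-Real.log a) *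
        ∑ y ∈ U, ∑ u ∈ U, (if u < y ∧ G.Adj u y then μ y else 0) ≤ ∑ y ∈ I, μ y := by
  have hl : 0 < -Real.log a := neg_pos.2 (Real.log_neg ha0 ha1)
  obtain ⟨I, -, -, hI, h⟩ := exists_indep G hT μ hμ ha0 ha1 U (fun _ => a) fun _ => Or.inr le_rfl
  refine ⟨I, hI, le_trans ?_ h⟩
  rw [Finset.mul_sum, Finset.mul_sum, ← Finset.sum_sub_distrib]
  refine Finset.sum_le_sum fun y _ => ?_
  have h1 : μ y * sw G U (fun _ => a) y ≤
      2 * a * ∑ u ∈ U, (if u < y ∧ G.Adj u y then μ y else 0) := by
    unfold sw
    rw [Finset.mul_sum, Finset.mul_sum]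
    refine Finset.sum_le_sum fun u _ => ?_
    by_cases h : u < y ∧ G.Adj u y
    · rw [if_pos h, if_pos h]
      have h2 : (∑ v ∈ U, if v < u ∧ G.Adj v u ∧ G.Adj v y then a else 0) ≤ 1 := by
        rw [← Finset.sum_filter, Finset.sum_const, nsmul_eq_mul]
        have h3 : (U.filter fun v => v < u ∧ G.Adj v u ∧ G.Adj v y).card ≤ 1 := by
          refine Finset.card_le_one.2 fun v hv v' hv' => ?_
          have := (Finset.mem_filter.1 hv).2
          have := (Finset.mem_filter.1 hv').2
          exact hT u y v v' h.2 (by tauto) (by tauto) (by tauto) (by tauto)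
        have h4 : ((U.filter fun v => v < u ∧ G.Adj v u ∧ G.Adj v y).card : ℝ) ≤ 1 := by
          exact_mod_cast h3
        nlinarith
      have := mul_nonneg (hμ y) ha0.le
      nlinarith
    · rw [if_neg h, if_neg h]
      simp
  unfold pot
  generalize -Real.log a = l at hl ⊢
  have e : μ y * (a * (l - sw G U (fun _ => a) y) / (2 * l)) =
      a / 2 * μ y - a / (2 * l) * (μ y * sw G U (fun _ => a) y) := by
    field_simp
  rw [e]
  have := mul_le_mul_of_nonneg_left h1 (show 0 ≤ a / (2 * l) by positivity)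
  have e2 : a / (2 * l) * (2 * a) = a ^ 2 / l := by field_simp
  rw [← mul_assoc _ (2 * a), e2] at this
  linarith

end Pool.Agent.Lib.NL57
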