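import Pool.Agent.Lib.NL57.CubeCyc

/-!
Heavy independent sets when the largest colour of every circuit occurs twice.
-/

set_option autoImplicit false

open Finset Filter

namespace Pool.Agent.Lib.NL57

open Pool.Agent.Lib.MP_3b2820_co Pool.Agent.Lib.MP_2f2576_co

variable {V : Type}

/-- The components of the edges of colour below `j`. -/
def low (X : SimpleGraph V) (c : Sym2 V → ℕ) (j : ℕ) : Setoid V :=
  (X.deleteEdges {e | j ≤ c e}).reachableSetoid

lemma low_mono (X : SimpleGraph V) (c : Sym2 V → ℕ) (j : ℕ) : low X c j ≤ low X c (j + 1) :=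
  fun _ _ h => SimpleGraph.Reachable.mono
    (X.deleteEdges_anti fun _ (h : j + 1 ≤ _) => (Nat.le_succ j).trans h) h

lemma low_same {X : SimpleGraph V} {c : Sym2 V → ℕ} {j : ℕ} {u v : V} (h : X.Adj u v)
    (hj : c s(u, v) < j) : low X c j u v :=
  SimpleGraph.Adj.reachable (SimpleGraph.deleteEdges_adj.2 ⟨h, not_le.2 hj⟩)

lemma low_diff {X : SimpleGraph V} {c : Sym2 V → ℕ}
    (h : ∀ (v : V) (w : X.Walk v v), w.IsCycle → ∀ e ∈ w.edges,
      (∀ f ∈ w.edges, c f ≤ c e) → ∃ f ∈ w.edges, f ≠ e ∧ c f = c e)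
    {u v : V} (huv : X.Adj u v) : ¬ low X c (c s(u, v)) u v := by
  intro hr
  have hle : X.deleteEdges {e | c s(u, v) ≤ c e ∧ e ≠ s(u, v)} ≤ X := X.deleteEdges_le _
  obtain ⟨x, w, hw, he⟩ := (SimpleGraph.adj_and_reachable_delete_edges_iff_exists_cycle
    (G := X.deleteEdges {e | c s(u, v) ≤ c e ∧ e ≠ s(u, v)}) (v := u) (w := v)).1
    ⟨by simp [huv], SimpleGraph.Reachable.mono (fun a b hab => by
      simp only [SimpleGraph.deleteEdges_adj, Set.mem_ofPred_eq, Set.mem_singleton_iff] at hab ⊢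
      exact ⟨⟨hab.1, fun h => hab.2 h.1⟩, fun h => hab.2 (by rw [h])⟩) hr⟩
  have key : ∀ f ∈ (w.mapLe hle).edges, f ≠ s(u, v) → c f < c s(u, v) := fun f hf hne => by
    have := w.edges_subset_edgeSet (show f ∈ w.edges by simpa using hf)
    rw [SimpleGraph.edgeSet_deleteEdges] at this
    exact not_le.1 fun h => this.2 ⟨h, hne⟩
  obtain ⟨f, hf, hne, hc⟩ := h x (w.mapLe hle) (hw.mapLe hle) s(u, v) (by simpa using he)
    fun f hf => (eq_or_ne f s(u, v)).elim (fun e => by rw [e]) fun e => (key f hf e).le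
  exact (key f hf hne).ne hc

lemma low_tri {X : SimpleGraph V} {c : Sym2 V → ℕ}
    (h : ∀ u v, X.Adj u v → ¬ low X c (c s(u, v)) u v) {u x y : V} (h1 : X.Adj u y)
    (h2 : X.Adj x y) (h3 : X.Adj x u) :
    c s(x, u) = c s(u, y) ∨ c s(x, y) = c s(u, y) ∨ c s(x, u) = c s(x, y) := by
  by_contra hn
  rcases (show c s(x, u) < c s(u, y) ∧ c s(x, y) < c s(u, y) ∨
    c s(x, u) < c s(x, y) ∧ c s(u, y) < c s(x, y) ∨
    c s(x, y) < c s(x, u) ∧ c s(u, y) < c s(x, u) by omega) with e | e | e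
  · exact h u y h1 (Setoid.trans' _ (Setoid.symm' _ (low_same h3 e.1)) (low_same h2 e.2))
  · exact h x y h2 (Setoid.trans' _ (low_same h3 e.1) (low_same h1 e.2))
  · exact h x u h3 (Setoid.trans' _ (low_same h2 e.1) (Setoid.symm' _ (low_same h1 e.2)))

variable [Fintype V] {p : V → ℝ}

lemma light_or (hp : IsProb p) {S Q : Setoid V} (h : S ≤ Q) {u y : V} (h1 : Q u y) (h2 : ¬ S u y) :
    2 * mass p S u ≤ mass p Q u ∨ 2 * mass p S y ≤ mass p Q y := by
  have h3 : mass p S u + mass p S y ≤ mass p Q y := by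
    unfold mass
    rw [← Finset.sum_add_distrib]
    refine Finset.sum_le_sum fun b _ => ?_
    by_cases a1 : S b u
    · rw [if_pos a1, if_neg fun a2 => h2 (S.trans' (S.symm' a1) a2), if_pos (Q.trans' (h a1) h1),
        add_zero]
    · rw [if_neg a1, zero_add]
      by_cases a2 : S b y
      · rw [if_pos a2, if_pos (h a2)]
      · rw [if_neg a2]
        split_ifs
        exacts [hp.nonneg b, le_rfl]
  rw [mass_congr Q h1]
  by_contra hn
  linarith [(not_or.1 hn).1, (not_or.1 hn).2]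

lemma light_le (hp : IsProb p) {S Q : Setoid V} (h : S ≤ Q) :
    Real.log 2 * ∑ x, ind (2 * mass p S x ≤ mass p Q x) * p x ≤ entR p S - entR p Q := by
  unfold entR
  rw [Finset.mul_sum, neg_sub_neg, ← Finset.sum_sub_distrib]
  refine Finset.sum_le_sum fun x _ => ?_
  rcases (hp.nonneg x).eq_or_lt with h0 | h0
  · simp [← h0]
  · have h1 : 0 < mass p S x := h0.trans_le (le_mass hp S x)
    by_cases hx : 2 * mass p S x ≤ mass p Q x
    · have h3 := Real.log_le_log (mul_pos two_pos h1) hx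
      rw [Real.log_mul two_ne_zero h1.ne'] at h3
      rw [ind_pos hx]
      nlinarith
    · have := Real.log_le_log h1 (mass_mono hp h x)
      rw [ind_neg hx]
      nlinarith

theorem top_deg [LinearOrder V] {X : SimpleGraph V} {c : Sym2 V → ℕ} (h1 : AtMostTwo X c)
    (h2 : ∀ u v, X.Adj u v → ¬ low X c (c s(u, v)) u v) (hp : IsProb p)
    (hord : ∀ u y, u < y → p y ≤ p u) :
    ∑ y, ∑ u, ind (u < y ∧ X.Adj u y) * p y ≤ 6 * Real.log (Fintype.card V) := by
  classical
  obtain ⟨N, hN⟩ : ∃ N, ∀ e, c e < N :=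
    ⟨Finset.univ.sup c + 1, fun e => Nat.lt_succ_of_le (Finset.le_sup (Finset.mem_univ e))⟩
  have h3 := bad_le (G := X) (c := fun e => (⟨c e, hN e⟩ : Fin N)) (fun x k => by
    simpa only [Fin.ext_iff] using deg_two h1 x k) hp.nonneg hord
    fun k x => ¬ 2 * mass p (low X c k) x ≤ mass p (low X c (k + 1)) x
  have h4 : Real.log 2 * ∑ k : Fin N, ∑ y,
      ind (2 * mass p (low X c k) y ≤ mass p (low X c (k + 1)) y) * p y ≤
      Real.log (Fintype.card V) := by
    rw [Finset.mul_sum]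
    refine (Finset.sum_le_sum fun (k : Fin N) _ => light_le hp (low_mono X c k)).trans ?_
    rw [Fin.sum_univ_eq_sum_range (fun k => entR p (low X c k) - entR p (low X c (k + 1))) N,
      Finset.sum_range_sub' (fun k => entR p (low X c k)) N]
    have a1 := entR_le_log_card hp (id : V → V) (R := low X c 0)
      (fun a b h => by rw [show a = b from h])
    have a2 := entR_anti hp (le_top (a := low X c N))
    rw [entR_top hp] at a2
    linarith
  simp only [not_not] at h3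
  have h5 : 0 ≤ ∑ k : Fin N, ∑ y,
      ind (2 * mass p (low X c k) y ≤ mass p (low X c (k + 1)) y) * p y :=
    Finset.sum_nonneg fun _ _ => Finset.sum_nonneg fun _ _ =>
      mul_nonneg (ind_nonneg _) (hp.nonneg _)
  refine le_trans (le_of_eq ?_) (h3.trans (by nlinarith [Real.log_two_gt_d9]))
  refine Finset.sum_congr rfl fun y _ => Finset.sum_congr rfl fun u _ => ?_
  by_cases h : u < y ∧ X.Adj u y
  · rw [ind_pos (P := ¬ _) fun h' => (light_or hp (low_mono X c _)
      (low_same h.2 (Nat.lt_succ_self _)) (h2 u y h.2)).elim h'.1 h'.2, one_mul]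
  · rw [ind_neg h, zero_mul, mul_zero]

/-- The weight of a random subset. -/
def wt (q : ℝ) (ω : V → Bool) : ℝ := ∏ x, if ω x then q else 1 - q

lemma samp [DecidableEq V] (q : ℝ) (A : Finset V) :
    ∑ ω : V → Bool, wt q ω * ind (∀ x ∈ A, ω x = true) = q ^ A.card := by
  have e : ∀ ω : V → Bool, wt q ω * ind (∀ x ∈ A, ω x = true) =
      ∏ x, if ω x then q else if x ∈ A then 0 else 1 - q := fun ω => by
    by_cases h : ∀ x ∈ A, ω x = true
    · rw [ind_pos h, mul_one, wt]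
      refine Finset.prod_congr rfl fun x _ => ?_
      by_cases h' : x ∈ A <;> simp [h', h]
    · rw [ind_neg h, mul_zero]
      obtain ⟨x, hx⟩ := not_forall.1 h
      exact (Finset.prod_eq_zero (Finset.mem_univ x) (by simp_all)).symm
  simp only [e]
  rw [← Fintype.piFinset_univ, ← Finset.prod_univ_sum (fun _ => Finset.univ)
    fun x (b : Bool) => if b then q else if x ∈ A then 0 else 1 - q]
  rw [← Finset.prod_const, ← Finset.univ_inter A, ← Finset.prod_ite_mem]
  refine Finset.prod_congr rfl fun x _ => ?_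
  by_cases h' : x ∈ A <;> simp [h']

lemma samp_sum [DecidableEq V] (q : ℝ) {ι : Type} [Fintype ι] (A : ι → Finset V) (b : ι → ℝ) (r : ℕ)
    (h : ∀ i, b i ≠ 0 → (A i).card = r) :
    ∑ ω : V → Bool, wt q ω * ∑ i, ind (∀ x ∈ A i, ω x = true) * b i = q ^ r * ∑ i, b i := by
  simp only [Finset.mul_sum]
  rw [Finset.sum_comm]
  refine Finset.sum_congr rfl fun i _ => ?_
  by_cases h0 : b i = 0
  · simp [h0]
  · simp only [← mul_assoc, ← Finset.sum_mul, samp, h i h0]

variable [LinearOrder V]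

lemma sub_one (G : SimpleGraph V) (hp : ∀ x, 0 ≤ p x) (T : V → V → V → Prop)
    (hT : ∀ u x y, G.Adj u y → G.Adj x y → G.Adj x u → T u y x ∨ T x y u) {a : ℝ} (ha0 : 0 < a)
    (ha1 : a < 1) (ω : V → Bool) : ∃ I : Finset V, G.IsIndepSet (I : Set V) ∧
      a / 2 * (∑ y, ind (∀ x ∈ ({y} : Finset V), ω x = true) * p y - ∑ z : V × V × V,
        ind (∀ x ∈ ({z.1, z.2.1, z.2.2} : Finset V), ω x = true) *
          (ind (z.2.1 < z.1 ∧ G.Adj z.2.1 z.1) * p z.1 * ind (T z.2.1 z.1 z.2.2))) -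
      a ^ 2 / (-Real.log a) * ∑ z : V × V, ind (∀ x ∈ ({z.1, z.2} : Finset V), ω x = true) *
        (ind (z.2 < z.1 ∧ G.Adj z.2 z.1) * p z.1) ≤ ∑ y ∈ I, p y := by
  classical
  have hl : 0 < -Real.log a := neg_pos.2 (Real.log_neg ha0 ha1)
  set U : V → Prop := fun y => ω y = true ∧
    ¬ ∃ u x, ω u = true ∧ ω x = true ∧ (u < y ∧ G.Adj u y) ∧ T u y x with hU
  have hadj : ∀ a b, (SimpleGraph.fromRel fun a b => G.Adj a b ∧ U a ∧ U b).Adj a b ↔
      G.Adj a b ∧ U a ∧ U b := fun a b =>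
    (SimpleGraph.fromRel_adj _ _ _).trans ⟨fun h => h.2.elim id fun h => ⟨h.1.symm, h.2.2, h.2.1⟩,
      fun h => ⟨h.1.ne, Or.inl h⟩⟩
  generalize (SimpleGraph.fromRel fun a b => G.Adj a b ∧ U a ∧ U b) = H at hadj
  have key : ∀ u x y, u < y → x < y → H.Adj u y → H.Adj x y → ¬ H.Adj x u := by
    intro u x y h1 h2 h3 h4 h5
    rw [hadj] at h3 h4 h5
    rcases hT u x y h3.1 h4.1 h5.1 with h | h
    · exact h3.2.2.2 ⟨u, x, h3.2.1.1, h4.2.1.1, ⟨h1, h3.1⟩, h⟩
    · exact h3.2.2.2 ⟨x, u, h4.2.1.1, h3.2.1.1, ⟨h2, h4.1⟩, h⟩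
  obtain ⟨I, hI, h⟩ := exists_indep' H (fun u y v _ h1 h2 h3 _ _ => False.elim (by
      rcases lt_or_gt_of_ne h1.ne with a1 | a1
      · rcases lt_or_gt_of_ne h3.ne with a3 | a3
        exacts [key u v y a1 a3 h1 h3 h2, key u y v (a1.trans a3) a3 h2.symm h3.symm h1.symm]
      · rcases lt_or_gt_of_ne h2.ne with a2 | a2
        exacts [key y v u a1 a2 h1.symm h2 h3, key u y v a2 (a1.trans a2) h2.symm h3.symm h1.symm]))
    (fun y => ind (U y) * p y) (fun y => mul_nonneg (ind_nonneg _) (hp y)) ha0 ha1 Finset.univ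
  refine ⟨I.filter U, fun x hx y hy hne hxy => hI (Finset.mem_filter.1 hx).1
    (Finset.mem_filter.1 hy).1 hne ((hadj x y).2 ⟨hxy, (Finset.mem_filter.1 hx).2,
      (Finset.mem_filter.1 hy).2⟩), le_trans (sub_le_sub (mul_le_mul_of_nonneg_left ?_
        (by positivity)) (mul_le_mul_of_nonneg_left ?_ (by positivity))) (h.trans (le_of_eq ?_))⟩
  · rw [Fintype.sum_prod_type, ← Finset.sum_sub_distrib]
    refine Finset.sum_le_sum fun y _ => ?_
    have n0 : ∀ z : V × V, 0 ≤ ind (∀ x ∈ ({y, z.1, z.2} : Finset V), ω x = true) *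
        (ind (z.1 < y ∧ G.Adj z.1 y) * p y * ind (T z.1 y z.2)) := fun z =>
      mul_nonneg (ind_nonneg _) (mul_nonneg (mul_nonneg (ind_nonneg _) (hp y)) (ind_nonneg _))
    have n1 := Finset.sum_nonneg fun z (_ : z ∈ Finset.univ) => n0 z
    simp only [Finset.mem_singleton, forall_eq]
    by_cases hy : ω y = true
    · by_cases hu : U y
      · rw [ind_pos hy, ind_pos hu]
        linarith
      · obtain ⟨u, x, a1, a2, a3, a4⟩ := not_not.1 fun h => hu ⟨hy, h⟩
        have n2 := Finset.single_le_sum (fun z _ => n0 z) (Finset.mem_univ (u, x))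
        rw [ind_pos a3, ind_pos a4, ind_pos (by simp [hy, a1, a2])] at n2
        rw [ind_pos hy, ind_neg hu]
        linarith
    · rw [ind_neg hy, ind_neg fun h : U y => hy h.1]
      linarith
  · rw [Fintype.sum_prod_type]
    refine Finset.sum_le_sum fun y _ => Finset.sum_le_sum fun u _ => ?_
    split_ifs with h
    · obtain ⟨a1, a2, a3⟩ := (hadj u y).1 h.2
      rw [ind_pos a3, ind_pos (P := u < y ∧ _) ⟨h.1, a1⟩, ind_pos (by simp [a2.1, a3.1]),
        one_mul (1 * _)]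
    · exact mul_nonneg (ind_nonneg _) (mul_nonneg (ind_nonneg _) (hp y))
  · rw [Finset.sum_filter]
    refine Finset.sum_congr rfl fun y _ => ?_
    split_ifs with h
    · rw [ind_pos h, one_mul]
    · rw [ind_neg h, zero_mul]

theorem sub_core (G : SimpleGraph V) (hp : IsProb p) (T : V → V → V → Prop)
    (hT : ∀ u x y, G.Adj u y → G.Adj x y → G.Adj x u → T u y x ∨ T x y u)
    (hne : ∀ u y x, T u y x → x ≠ u ∧ x ≠ y) (hc : ∀ u y, ∑ x, ind (T u y x) ≤ 4) {D q a : ℝ}
    (hD : ∑ y, ∑ u, ind (u < y ∧ G.Adj u y) * p y ≤ D) (hq0 : 0 < q) (hq1 : q < 1) (ha0 : 0 < a)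
    (ha1 : a < 1) : ∃ I : Finset V, G.IsIndepSet (I : Set V) ∧
      a / 2 * (q - q ^ 3 * (4 * D)) - a ^ 2 / (-Real.log a) * (q ^ 2 * D) ≤ ∑ y ∈ I, p y := by
  classical
  have hl : 0 < -Real.log a := neg_pos.2 (Real.log_neg ha0 ha1)
  choose I hI h using sub_one G hp.nonneg T hT ha0 ha1
  have hw : ∀ ω : V → Bool, 0 < wt q ω := fun ω =>
    Finset.prod_pos fun x _ => by split_ifs <;> linarith
  have e0 : ∑ ω : V → Bool, wt q ω = 1 := by simpa [ind] using samp q (∅ : Finset V)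
  have e1 := samp_sum q (fun y : V => {y}) p 1 fun _ _ => Finset.card_singleton _
  have e2 := samp_sum q (fun z : V × V => {z.1, z.2})
    (fun z => ind (z.2 < z.1 ∧ G.Adj z.2 z.1) * p z.1) 2 fun z hz =>
      Finset.card_pair fun e => hz (by rw [ind_neg fun h => h.1.ne' e, zero_mul])
  have e3 := samp_sum q (fun z : V × V × V => {z.1, z.2.1, z.2.2})
    (fun z => ind (z.2.1 < z.1 ∧ G.Adj z.2.1 z.1) * p z.1 * ind (T z.2.1 z.1 z.2.2)) 3
    fun z hz => by
      have a1 : z.2.1 < z.1 := by_contra fun h => hz (by rw [ind_neg fun h' => h h'.1]; ring)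
      have a2 := hne _ _ _ (by_contra fun h => hz (by rw [ind_neg h, mul_zero]))
      exact Finset.card_eq_three.2 ⟨_, _, _, a1.ne', a2.2.symm, a2.1.symm, rfl⟩
  have b3 : ∑ z : V × V × V, ind (z.2.1 < z.1 ∧ G.Adj z.2.1 z.1) * p z.1 *
      ind (T z.2.1 z.1 z.2.2) ≤ 4 * D := by
    refine le_trans ?_ (mul_le_mul_of_nonneg_left hD (by norm_num))
    simp only [Fintype.sum_prod_type, Finset.mul_sum]
    refine Finset.sum_le_sum fun y _ => Finset.sum_le_sum fun u _ => ?_
    rw [← Finset.mul_sum, mul_comm 4]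
    exact mul_le_mul_of_nonneg_left (hc u y) (mul_nonneg (ind_nonneg _) (hp.nonneg y))
  rw [hp.total] at e1
  rw [Fintype.sum_prod_type (f := fun z : V × V => ind (z.2 < z.1 ∧ G.Adj z.2 z.1) * p z.1)] at e2
  obtain ⟨ω, -, hω⟩ := Finset.exists_le_of_sum_le (s := Finset.univ) Finset.univ_nonempty
    (f := fun ω : V → Bool => wt q ω *
      (a / 2 * (q - q ^ 3 * (4 * D)) - a ^ 2 / (-Real.log a) * (q ^ 2 * D)))
    (g := fun ω => wt q ω * ∑ y ∈ I ω, p y) (by
    refine le_trans ?_ (Finset.sum_le_sum fun ω _ => mul_le_mul_of_nonneg_left (h ω) (hw ω).le)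
    rw [← Finset.sum_mul, e0, one_mul]
    simp only [mul_sub (wt q _), mul_left_comm (wt q _), Finset.sum_sub_distrib, ← Finset.mul_sum,
      e1, e2, e3, pow_one, mul_one]
    gcongr)
  exact ⟨I ω, hI ω, le_of_mul_le_mul_left hω (hw ω)⟩

omit [Fintype V] [LinearOrder V] in
lemma top_params {L : ℝ} (hL : 0 < L) (h1 : 1 ≤ Real.log L) : ∃ q a : ℝ, 0 < q ∧ q < 1 ∧ 0 < a ∧
    a < 1 ∧ Real.log L / (1024 * L) ≤
      a / 2 * (q - q ^ 3 * (4 * (6 * L))) - a ^ 2 / (-Real.log a) * (q ^ 2 * (6 * L)) := by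
  set l := Real.log L with hl
  set z := Real.exp (l / 8) with hz
  have hz1 : 1 < z := Real.one_lt_exp_iff.2 (by linarith)
  have hz8 : z ^ 8 = L := by
    rw [hz, ← Real.exp_nat_mul, ← Real.exp_log hL]
    congr 1
    push_cast
    ring
  have hzl : l / 8 + 1 ≤ z := Real.add_one_le_exp _
  have z3 : 1 < z ^ 3 := one_lt_pow₀ hz1 (by norm_num)
  have z4 : 1 < z ^ 4 := one_lt_pow₀ hz1 (by norm_num)
  have l0 : 0 < l := by linarith
  have ha0 : 0 < 7 * l / (128 * z ^ 4) := by positivity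
  have ha2 : 7 * l / (128 * z ^ 4) ≤ (z ^ 3)⁻¹ := by
    rw [inv_eq_one_div, div_le_div_iff₀ (by positivity) (by positivity)]
    nlinarith
  have ha3 : 3 * l / 8 ≤ -Real.log (7 * l / (128 * z ^ 4)) := by
    have := Real.log_le_log ha0 ha2
    rw [Real.log_inv, Real.log_pow, hz, Real.log_exp, ← hz] at this
    push_cast at this
    linarith
  refine ⟨1 / (7 * z ^ 4), _, by positivity, (div_lt_one (by positivity)).2 (by linarith), ha0,
    ha2.trans_lt (inv_lt_one_of_one_lt₀ z3), le_trans ?_ (sub_le_sub_left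
      (mul_le_mul_of_nonneg_right (div_le_div_of_nonneg_left (by positivity) (by positivity) ha3)
        (by positivity)) _)⟩
  rw [← hz8, ← sub_nonneg]
  have e : 7 * l / (128 * z ^ 4) / 2 * (1 / (7 * z ^ 4) - (1 / (7 * z ^ 4)) ^ 3 * (4 * (6 * z ^ 8))) -
      (7 * l / (128 * z ^ 4)) ^ 2 / (3 * l / 8) * ((1 / (7 * z ^ 4)) ^ 2 * (6 * z ^ 8)) -
      l / (1024 * z ^ 8) = l / (25088 * z ^ 8) := by
    field_simp
    norm_num
  rw [e]
  positivity

omit [LinearOrder V] in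
theorem top_upper {X : SimpleGraph V} (h : TopTwice X) {L : ℝ} (hL : 0 < L)
    (h1 : 1 ≤ Real.log L) (hV : Real.log (Fintype.card V) ≤ L) (μ : V → ℝ) (hμ : ∀ v, 0 ≤ μ v) :
    ∃ I : Finset V, X.IsIndepSet (I : Set V) ∧
      Real.log L / (1024 * L) * ∑ v, μ v ≤ ∑ v ∈ I, μ v := by
  classical
  rcases (Finset.sum_nonneg fun v (_ : v ∈ Finset.univ) => hμ v).eq_or_lt with h0 | h0
  · exact ⟨∅, by simp, by simp [← h0]⟩
  obtain ⟨c, c1, c2⟩ := h
  obtain ⟨q, a, hq0, hq1, ha0, ha1, hb⟩ := top_params hL h1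
  have hp : IsProb fun v => μ v / ∑ v, μ v :=
    ⟨fun v => div_nonneg (hμ v) h0.le, by rw [← Finset.sum_div, div_self h0.ne']⟩
  let _ : LinearOrder V := LinearOrder.lift' (fun v => toLex (-μ v, Fintype.equivFin V v))
    fun u v e => (Fintype.equivFin V).injective (congrArg (fun x => (ofLex x).2) e)
  obtain ⟨I, hI, hs⟩ := sub_core X hp (fun u y x => (X.Adj x u ∧ c s(x, u) = c s(u, y)) ∧ x ≠ y ∨
      (X.Adj x y ∧ c s(x, y) = c s(u, y)) ∧ x ≠ u) (fun u x y a1 a2 a3 => by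
      rcases low_tri (fun _ _ => low_diff c2) a1 a2 a3 with e | e | e
      exacts [Or.inl (Or.inl ⟨⟨a3, e⟩, a2.ne⟩), Or.inl (Or.inr ⟨⟨a2, e⟩, a3.ne⟩),
        Or.inr (Or.inl ⟨⟨a3.symm, Sym2.eq_swap ▸ e⟩, a1.ne⟩)])
    (fun u y x h => h.elim (fun h => ⟨h.1.1.ne, h.2⟩) fun h => ⟨h.2, h.1.1.ne⟩) (fun u y => by
      refine le_trans ?_ ((add_le_add (deg_two c1 u (c s(u, y))) (deg_two c1 y (c s(u, y)))).trans
        (by norm_num))
      rw [← Finset.sum_add_distrib]
      refine Finset.sum_le_sum fun x _ => ?_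
      unfold ind
      split_ifs <;> first | tauto | norm_num)
    ((top_deg c1 (fun _ _ => low_diff c2) hp fun u y huy => by
      have h2 : toLex (-μ u, Fintype.equivFin V u) < toLex (-μ y, Fintype.equivFin V y) := huy
      refine div_le_div_of_nonneg_right ?_ h0.le
      rcases Prod.Lex.toLex_lt_toLex.1 h2 with h3 | h3
      · linarith [h3]
      · linarith [h3.1]).trans (mul_le_mul_of_nonneg_left hV (by norm_num))) hq0 hq1 ha0 ha1
  refine ⟨I, hI, ?_⟩
  rw [← Finset.sum_div] at hs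
  rw [← le_div_iff₀ h0]
  exact hb.trans hs

omit [Fintype V] [LinearOrder V] in
theorem top_sharp (g : ℕ) : ∃ n₀ : ℕ, ∀ n ≥ n₀,
    (∀ (V : Type) [Fintype V] (X : SimpleGraph V), Fintype.card V ≤ n → TopTwice X →
      fracChrom X ≤ 1024 * (Real.log n / Real.log (Real.log n))) ∧
    ∃ (V : Type) (_ : Fintype V) (X : SimpleGraph V), 0 < Fintype.card V ∧ Fintype.card V ≤ n ∧
      TopTwice X ∧ NoPied X ∧ (g : ℕ∞) < X.egirth ∧
      1 / 16 * (Real.log n / Real.log (Real.log n)) * X.indepNum ≤ Fintype.card V ∧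
      1 / 16 * (Real.log n / Real.log (Real.log n)) ≤ fracChrom X ∧
      ∀ m : ℕ, X.Colorable m → 1 / 16 * (Real.log n / Real.log (Real.log n)) ≤ m := by
  have t1 : Tendsto (fun n : ℕ => Real.log n) atTop atTop :=
    Real.tendsto_log_atTop.comp tendsto_natCast_atTop_atTop
  have g0 : (0 : ℝ) < 20 * g + 3 := by positivity
  obtain ⟨n₀, h⟩ := eventually_atTop.1 ((eventually_big 1).and
    (t1.eventually (Real.isLittleO_log_id_atTop.bound (inv_pos.2 g0))))
  refine ⟨n₀, fun n hn => ?_⟩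
  obtain ⟨⟨h0, h1, h4, -⟩, h3⟩ := h n hn
  rw [id, Real.norm_of_nonneg h1.le, Real.norm_of_nonneg (by linarith), ← div_eq_inv_mul,
    le_div_iff₀' g0] at h3
  refine ⟨fun V _ X hV hX => ?_, ?_⟩
  · refine (fracChrom_le (by positivity) (top_upper hX h1 h4 ?_)).trans (le_of_eq (by field_simp))
    rcases Nat.eq_zero_or_pos (Fintype.card V) with e | e
    · simpa [e] using h1.le
    · exact Real.log_le_log (by exact_mod_cast e) (by exact_mod_cast hV)
  · obtain ⟨W, _, X, hne, hW, hX, hg, hI⟩ := cube_lower g h1 h4 h3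
    rw [Real.exp_log (by exact_mod_cast h0)] at hW
    have e : 1 / 16 * (Real.log n / Real.log (Real.log n)) =
      Real.log n / (16 * Real.log (Real.log n)) := by field_simp
    rw [e]
    refine ⟨W, inferInstance, X, Fintype.card_pos, by exact_mod_cast hW, hX, hX.noPied, hg, ?_,
      le_fracChrom hne hI, fun m => le_colours hne hI⟩
    obtain ⟨I, hI'⟩ := X.exists_isNIndepSet_indepNum
    rw [← hI'.card_eq]
    exact hI I hI'.isIndepSet

end Pool.Agent.Lib.NL57
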