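import Pool.Agent.Lib.NL57.Hash
import Pool.Agent.Lib.NL57.Pot

/-!
Heavy independent sets in subgraphs of Hamming graphs with at most two edges of each colour at a
vertex.
-/

set_option autoImplicit false

open Finset

namespace Pool.Agent.Lib.NL57

open Pool.Agent.Lib.MP_3b2820_co

variable {V K : Type} [Fintype V] [LinearOrder V]

lemma indep_pred (G : SimpleGraph V) (hT : OneTri G) (μ : V → ℝ) (hμ : ∀ v, 0 ≤ μ v)
    {a : ℝ} (ha0 : 0 < a) (ha1 : a < 1) (U : V → Prop) :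
    ∃ I : Finset V, G.IsIndepSet (I : Set V) ∧
      a / 2 * ∑ y, ind (U y) * μ y - a ^ 2 / (-Real.log a) *
        ∑ y, ∑ u, ind (U u ∧ U y) * (ind (u < y ∧ G.Adj u y) * μ y) ≤ ∑ y ∈ I, μ y := by
  classical
  obtain ⟨I, hI, h⟩ := exists_indep' G hT μ hμ ha0 ha1 (Finset.univ.filter U)
  refine ⟨I, hI, le_trans (le_of_eq ?_) h⟩
  have e : ∀ f : V → ℝ, ∑ y ∈ Finset.univ.filter U, f y = ∑ y, ind (U y) * f y := fun f => by
    rw [Finset.sum_filter]
    refine Finset.sum_congr rfl fun y _ => ?_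
    by_cases h : U y
    · rw [if_pos h, ind_pos h, one_mul]
    · rw [if_neg h, ind_neg h, zero_mul]
  simp only [e, Finset.mul_sum, ind_and (U _)]
  refine congrArg _ (Finset.sum_congr rfl fun y _ => Finset.sum_congr rfl fun u _ => ?_)
  by_cases h : u < y ∧ G.Adj u y
  · rw [if_pos h, ind_pos h]
    ring
  · rw [if_neg h, ind_neg h]
    ring

variable [Fintype K] [DecidableEq K]

omit [LinearOrder V] [DecidableEq K] in
lemma bad_one {G : SimpleGraph V} {c : Sym2 V → K} (hd : ∀ x k, ∑ u, ind (G.Adj u x ∧ c s(u, x) = k) ≤ 2)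
    {p : V → ℝ} (hp : ∀ x, 0 ≤ p x) (P : K → V → Prop) :
    ∑ y, ∑ u, ind (G.Adj u y ∧ ¬ P (c s(u, y)) y) * p y ≤ 2 * ∑ k, ∑ y, ind (¬ P k y) * p y := by
  rw [Finset.sum_comm (s := (Finset.univ : Finset K)), Finset.mul_sum]
  refine Finset.sum_le_sum fun y _ => ?_
  have e : ∀ u, ind (G.Adj u y ∧ ¬ P (c s(u, y)) y) * p y =
      ∑ k, ind (G.Adj u y ∧ c s(u, y) = k) * (ind (¬ P k y) * p y) := fun u => by
    rw [Finset.sum_eq_single (c s(u, y)) (fun k _ hk => by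
      rw [ind_neg fun h => hk h.2.symm, zero_mul]) (by simp), ind_and, ind_and, ind_pos rfl]
    ring
  simp only [e]
  rw [Finset.sum_comm, Finset.mul_sum]
  refine Finset.sum_le_sum fun k _ => ?_
  rw [← Finset.sum_mul]
  exact mul_le_mul_of_nonneg_right (hd y k) (mul_nonneg (ind_nonneg _) (hp y))

omit [DecidableEq K] in
lemma bad_le {G : SimpleGraph V} {c : Sym2 V → K} (hd : ∀ x k, ∑ u, ind (G.Adj u x ∧ c s(u, x) = k) ≤ 2)
    {p : V → ℝ} (hp : ∀ x, 0 ≤ p x) (hord : ∀ u y, u < y → p y ≤ p u) (P : K → V → Prop) :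
    ∑ y, ∑ u, ind (¬ (P (c s(u, y)) u ∧ P (c s(u, y)) y)) * (ind (u < y ∧ G.Adj u y) * p y) ≤
      4 * ∑ k, ∑ y, ind (¬ P k y) * p y := by
  have h1 := bad_one hd hp P
  have h2 := h1
  rw [Finset.sum_comm] at h2
  refine le_trans ?_ (le_trans (add_le_add h1 h2) (le_of_eq (by ring)))
  rw [← Finset.sum_add_distrib]
  refine Finset.sum_le_sum fun y _ => ?_
  rw [← Finset.sum_add_distrib]
  refine Finset.sum_le_sum fun u _ => ?_
  have n1 := mul_nonneg (ind_nonneg (G.Adj u y ∧ ¬ P (c s(u, y)) y)) (hp y)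
  have n2 := mul_nonneg (ind_nonneg (G.Adj y u ∧ ¬ P (c s(y, u)) u)) (hp u)
  by_cases h : u < y ∧ G.Adj u y
  · rw [ind_pos h, one_mul]
    by_cases hy : P (c s(u, y)) y
    · by_cases hu : P (c s(u, y)) u
      · rw [ind_neg (not_not.2 ⟨hu, hy⟩)]
        linarith
      · rw [ind_pos fun h' => hu h'.1, ind_pos (P := G.Adj y u ∧ _)
          ⟨h.2.symm, by rwa [Sym2.eq_swap]⟩]
        linarith [hord u y h.1]
    · rw [ind_pos fun h' => hy h'.2, ind_pos (P := G.Adj u y ∧ _) ⟨h.2, hy⟩]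
      linarith
  · rw [ind_neg h]
    linarith

theorem upper_core {G : SimpleGraph V} {c : Sym2 V → K} {R : K → Setoid V} (H : Ham G c R)
    (hT : OneTri G) (hd : ∀ x k, ∑ u, ind (G.Adj u x ∧ c s(u, x) = k) ≤ 2) {p : V → ℝ}
    (hp : IsProb p) (hord : ∀ u y, u < y → p y ≤ p u) (m : ℕ) (hm : 2 ≤ m) {a : ℝ} (ha0 : 0 < a)
    (ha1 : a < 1) : ∃ I : Finset V, G.IsIndepSet (I : Set V) ∧
      a / (2 * m ^ 2) - a ^ 2 / (-Real.log a) *
        (8 * Real.log (Fintype.card V) / Real.log m / m ^ 4) ≤ ∑ y ∈ I, p y := by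
  classical
  have : NeZero m := ⟨by omega⟩
  have hl : 0 < -Real.log a := neg_pos.2 (Real.log_neg ha0 ha1)
  have hm1 : (1 : ℝ) < m := by exact_mod_cast hm
  have hlm : 0 < Real.log m := Real.log_pos hm1
  obtain ⟨T, hT2⟩ := exists_split hp R
  obtain ⟨U1, a1, b1, c1⟩ := side H hp m T
  obtain ⟨U2, a2, b2, c2⟩ := side H hp m Tᶜ
  set N : ℝ := (Fintype.card (Option K × V → ZMod m) : ℝ) with hN
  have hN0 : 0 < N := by rw [hN]; exact_mod_cast Fintype.card_pos
  set P : K → V → Prop := fun k x => Pop p m (RT R (insert k (ctx T k))) (RT R (ctx T k)) x with hP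
  have hbad : ∑ y, ∑ u, ind (¬ (P (c s(u, y)) u ∧ P (c s(u, y)) y)) *
      (ind (u < y ∧ G.Adj u y) * p y) ≤ 8 * Real.log (Fintype.card V) / Real.log m := by
    refine (bad_le hd hp.nonneg hord P).trans ?_
    rw [le_div_iff₀ hlm]
    have h1 : Real.log m * ∑ k, ∑ y, ind (¬ P k y) * p y ≤ 2 * Real.log (Fintype.card V) := by
      rw [Finset.mul_sum]
      refine le_trans (Finset.sum_le_sum fun k _ => ?_) hT2
      refine le_trans (le_of_eq (congrArg _ (Finset.sum_congr rfl fun y _ => ?_)))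
        (unpop_le hp (by omega : 0 < m) (RT_anti R (Finset.subset_insert k (ctx T k))))
      by_cases h : P k y
      · rw [ind_neg (not_not.2 h), zero_mul, if_pos h]
      · rw [ind_pos h, one_mul, if_neg h]
    linarith
  have hone : ∀ y, ∑ ω : (Option K × V → ZMod m) × (Option K × V → ZMod m),
      ind (U1 ω.1 y ∧ U2 ω.2 y) = N ^ 2 / m ^ 2 := fun y => by
    rw [Fintype.sum_prod_type]
    simp only [ind_and]
    rw [← Finset.sum_mul_sum, eq_div_iff (by positivity)]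
    linear_combination (m * ∑ ω, ind (U2 ω y)) * a1 y + N * a2 y
  have htwo : ∀ u y, G.Adj u y → ∑ ω : (Option K × V → ZMod m) × (Option K × V → ZMod m),
      ind ((U1 ω.1 u ∧ U2 ω.2 u) ∧ (U1 ω.1 y ∧ U2 ω.2 y)) ≤
        N ^ 2 / m ^ 4 * ind (¬ (P (c s(u, y)) u ∧ P (c s(u, y)) y)) := fun u y huy => by
    rw [Fintype.sum_prod_type]
    have e : ∀ ω ω', ind ((U1 ω u ∧ U2 ω' u) ∧ (U1 ω y ∧ U2 ω' y)) =
        ind (U1 ω u ∧ U1 ω y) * ind (U2 ω' u ∧ U2 ω' y) := fun ω ω' => by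
      rw [← ind_and, and_and_and_comm]
    simp only [e]
    rw [← Finset.sum_mul_sum]
    by_cases hb : P (c s(u, y)) u ∧ P (c s(u, y)) y
    · rw [ind_neg (not_not.2 hb), mul_zero]
      simp only [hP, ctx] at hb
      by_cases hk : c s(u, y) ∈ T
      · simp only [hk, if_true] at hb
        simp [ind_neg (c2 u y huy (by simpa using hk) hb.1 hb.2 _)]
      · simp only [hk, if_false] at hb
        simp [ind_neg (c1 u y huy hk hb.1 hb.2 _)]
    · rw [ind_pos hb, mul_one, le_div_iff₀ (by positivity)]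
      have n1 : 0 ≤ (m : ℝ) ^ 2 * ∑ ω, ind (U2 ω u ∧ U2 ω y) :=
        mul_nonneg (by positivity) (Finset.sum_nonneg fun _ _ => ind_nonneg _)
      have := mul_le_mul (b1 u y huy) (b2 u y huy) n1 hN0.le
      linarith
  obtain ⟨ω, -, hω⟩ := Finset.exists_le_of_sum_le (s := Finset.univ) Finset.univ_nonempty
    (f := fun _ : (Option K × V → ZMod m) × (Option K × V → ZMod m) => a / (2 * m ^ 2) -
      a ^ 2 / (-Real.log a) * (8 * Real.log (Fintype.card V) / Real.log m / m ^ 4))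
    (g := fun ω => a / 2 * ∑ y, ind (U1 ω.1 y ∧ U2 ω.2 y) * p y - a ^ 2 / (-Real.log a) *
      ∑ y, ∑ u, ind ((U1 ω.1 u ∧ U2 ω.2 u) ∧ (U1 ω.1 y ∧ U2 ω.2 y)) *
        (ind (u < y ∧ G.Adj u y) * p y)) (by
    rw [Finset.sum_const, Finset.card_univ, Fintype.card_prod, nsmul_eq_mul, Nat.cast_mul, ← hN,
      Finset.sum_sub_distrib, ← Finset.mul_sum, ← Finset.mul_sum, Finset.sum_comm]
    simp only [← Finset.sum_mul, hone]
    rw [← Finset.mul_sum, hp.total, mul_one]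
    have h1 : ∑ ω : (Option K × V → ZMod m) × (Option K × V → ZMod m), ∑ y, ∑ u,
        ind ((U1 ω.1 u ∧ U2 ω.2 u) ∧ (U1 ω.1 y ∧ U2 ω.2 y)) * (ind (u < y ∧ G.Adj u y) * p y) ≤
        N ^ 2 / m ^ 4 * (8 * Real.log (Fintype.card V) / Real.log m) := by
      refine le_trans ?_ (mul_le_mul_of_nonneg_left hbad (by positivity))
      rw [Finset.sum_comm, Finset.mul_sum]
      refine Finset.sum_le_sum fun y _ => ?_
      rw [Finset.sum_comm, Finset.mul_sum]
      refine Finset.sum_le_sum fun u _ => ?_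
      rw [← Finset.sum_mul, ← mul_assoc (N ^ 2 / m ^ 4)]
      by_cases h : u < y ∧ G.Adj u y
      · exact mul_le_mul_of_nonneg_right (htwo u y h.2) (mul_nonneg (ind_nonneg _) (hp.nonneg y))
      · rw [ind_neg h]
        simp
    have h2 := mul_le_mul_of_nonneg_left h1 (show 0 ≤ a ^ 2 / (-Real.log a) by positivity)
    refine le_trans (le_of_eq ?_) (sub_le_sub_left h2 _)
    ring)
  obtain ⟨I, hI, h⟩ := indep_pred G hT p hp.nonneg ha0 ha1 fun x => U1 ω.1 x ∧ U2 ω.2 x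
  exact ⟨I, hI, hω.trans h⟩

end Pool.Agent.Lib.NL57
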